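import Mathlib

namespace Pool.Agent.H452R2.Om

/-- the optimal weight `2 ^ (4/3)` -/
noncomputable def zz : ℝ := 2 ^ (4/3:ℝ)

/-- odd primes up to `y` satisfying `Q` -/
def OP (Q : ℕ → Prop) [DecidablePred Q] (y : ℕ) : Finset ℕ := (Finset.Icc 3 y).filter (fun p => p.Prime ∧ Q p)

end Pool.Agent.H452R2.Om
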