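import Mathlib
import Pool.Agent.H452R2.Om.Defs
import Pool.Agent.H383.Rich
import Pool.Agent.Helper256.KM.Mertens

/-!
# Counting lemma: many integers `P q` with `P` a product of small primes
-/

set_option autoImplicit false

namespace Pool.Agent.H452R2.Om

open Finset

theorem cs_sum_w (B : Finset ℕ) (z : ℝ) :
    ∑ s ∈ B.powerset, ∏ p ∈ s, (z / p : ℝ) = ∏ p ∈ B, (1 + z / p) :=
  (Finset.prod_one_add B).symm

theorem cs_sum_mem (B : Finset ℕ) (z : ℝ) (hz : 0 ≤ z) (p : ℕ) (hp : p ∈ B) :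
    ∑ s ∈ B.powerset, (if p ∈ s then ∏ q ∈ s, (z / q : ℝ) else 0) ≤
      z / p * ∏ q ∈ B, (1 + z / q) := by
  classical
  have hins : B = insert p (B.erase p) := (insert_erase hp).symm
  have hnot : p ∉ B.erase p := notMem_erase p B
  have h1 : ∑ s ∈ B.powerset, (if p ∈ s then ∏ q ∈ s, (z / q : ℝ) else 0) =
      ∑ t ∈ (B.erase p).powerset, (if p ∈ t then ∏ q ∈ t, (z / q : ℝ) else 0) +
      ∑ t ∈ (B.erase p).powerset,
        (if p ∈ insert p t then ∏ q ∈ insert p t, (z / q : ℝ) else 0) := by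
    conv_lhs => rw [hins]
    exact sum_powerset_insert hnot _
  have h2 : ∑ t ∈ (B.erase p).powerset, (if p ∈ t then ∏ q ∈ t, (z / q : ℝ) else 0) = 0 := by
    refine sum_eq_zero (fun t ht => ?_)
    have : p ∉ t := fun h => hnot (mem_powerset.1 ht h)
    rw [if_neg this]
  have h3 : ∑ t ∈ (B.erase p).powerset,
        (if p ∈ insert p t then ∏ q ∈ insert p t, (z / q : ℝ) else 0) =
      z / p * ∏ q ∈ B.erase p, (1 + z / q) := by
    rw [← cs_sum_w, mul_sum]
    refine sum_congr rfl (fun t ht => ?_)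
    have : p ∉ t := fun h => hnot (mem_powerset.1 ht h)
    rw [if_pos (mem_insert_self p t), prod_insert this]
  rw [h1, h2, h3, zero_add]
  have h4 : ∏ q ∈ B, (1 + z / (q : ℝ)) = (1 + z / p) * ∏ q ∈ B.erase p, (1 + z / q) := by
    conv_lhs => rw [hins]
    rw [prod_insert hnot]
  rw [h4]
  have h5 : 0 ≤ ∏ q ∈ B.erase p, (1 + z / (q : ℝ)) := prod_nonneg (fun q _ => by positivity)
  have h6 : 0 ≤ z / (p : ℝ) := by positivity
  have h7 : ∏ q ∈ B.erase p, (1 + z / (q : ℝ)) ≤ (1 + z / p) * ∏ q ∈ B.erase p, (1 + z / q) := by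
    nlinarith
  exact mul_le_mul_of_nonneg_left h7 h6

theorem cs_sum_log (B : Finset ℕ) (z : ℝ) (hz : 0 ≤ z) (hB : ∀ p ∈ B, 1 ≤ p) :
    ∑ s ∈ B.powerset, (∏ q ∈ s, (z / q : ℝ)) * (∑ p ∈ s, Real.log p) ≤
      z * (∏ q ∈ B, (1 + z / q)) * ∑ p ∈ B, Real.log p / p := by
  classical
  have h1 : ∑ s ∈ B.powerset, (∏ q ∈ s, (z / q : ℝ)) * (∑ p ∈ s, Real.log p) =
      ∑ p ∈ B, Real.log p *
        ∑ s ∈ B.powerset, (if p ∈ s then ∏ q ∈ s, (z / q : ℝ) else 0) := by
    simp_rw [mul_sum]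
    rw [sum_comm]
    refine sum_congr rfl (fun s hs => ?_)
    have hsB := mem_powerset.1 hs
    rw [← sum_subset hsB (f := fun p : ℕ => Real.log (p : ℝ) * (if p ∈ s then ∏ q ∈ s, (z / q : ℝ) else 0))
      (fun p _ hp => by rw [if_neg hp, mul_zero])]
    refine sum_congr rfl (fun p hp => ?_)
    rw [if_pos hp, mul_comm]
  rw [h1, mul_sum]
  refine sum_le_sum (fun p hp => ?_)
  have hp1 : (1 : ℝ) ≤ p := by exact_mod_cast hB p hp
  have hlog : 0 ≤ Real.log p := Real.log_nonneg hp1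
  calc Real.log p * ∑ s ∈ B.powerset, (if p ∈ s then ∏ q ∈ s, (z / q : ℝ) else 0)
      ≤ Real.log p * (z / p * ∏ q ∈ B, (1 + z / q)) :=
        mul_le_mul_of_nonneg_left (cs_sum_mem B z hz p hp) hlog
    _ = z * (∏ q ∈ B, (1 + z / (q : ℝ))) * (Real.log p / p) := by ring

/-- Markov: subsets with a small product carry half of the weight -/
theorem cs_markov (B : Finset ℕ) (z T : ℝ) (hz : 0 ≤ z) (hT : 0 < T) (hB : ∀ p ∈ B, 1 ≤ p)
    (hlog : z * ∑ p ∈ B, Real.log p / p ≤ T / 2) :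
    (∏ q ∈ B, (1 + z / (q : ℝ))) / 2 ≤
      ∑ s ∈ B.powerset.filter (fun s : Finset ℕ => ∑ p ∈ s, Real.log (p : ℝ) ≤ T), ∏ q ∈ s, (z / q : ℝ) := by
  classical
  set PI := ∏ q ∈ B, (1 + z / (q : ℝ)) with hPI
  have hPI0 : 0 ≤ PI := prod_nonneg (fun q _ => by positivity)
  have hw : ∀ s : Finset ℕ, 0 ≤ ∏ q ∈ s, (z / q : ℝ) := fun s =>
    prod_nonneg (fun q _ => by positivity)
  have h1 := cs_sum_log B z hz hB
  have h2 : T * ∑ s ∈ B.powerset.filter (fun s : Finset ℕ => ¬ ∑ p ∈ s, Real.log (p : ℝ) ≤ T),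
      ∏ q ∈ s, (z / q : ℝ) ≤
      ∑ s ∈ B.powerset, (∏ q ∈ s, (z / q : ℝ)) * (∑ p ∈ s, Real.log p) := by
    rw [mul_sum]
    calc ∑ s ∈ B.powerset.filter (fun s : Finset ℕ => ¬ ∑ p ∈ s, Real.log (p : ℝ) ≤ T), T * ∏ q ∈ s, (z / q : ℝ)
        ≤ ∑ s ∈ B.powerset.filter (fun s : Finset ℕ => ¬ ∑ p ∈ s, Real.log (p : ℝ) ≤ T),
          (∏ q ∈ s, (z / q : ℝ)) * (∑ p ∈ s, Real.log p) := by
          refine sum_le_sum (fun s hs => ?_)
          rw [mem_filter] at hs
          rw [mul_comm]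
          exact mul_le_mul_of_nonneg_left (not_le.1 hs.2).le (hw s)
      _ ≤ _ := by
          refine sum_le_sum_of_subset_of_nonneg (filter_subset _ _) (fun s hs _ => ?_)
          refine mul_nonneg (hw s) (sum_nonneg (fun p hp => ?_))
          have : (1 : ℝ) ≤ p := by exact_mod_cast hB p (mem_powerset.1 hs hp)
          exact Real.log_nonneg this
  have h3 : T * ∑ s ∈ B.powerset.filter (fun s : Finset ℕ => ¬ ∑ p ∈ s, Real.log (p : ℝ) ≤ T),
      ∏ q ∈ s, (z / q : ℝ) ≤ T * (PI / 2) := by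
    calc _ ≤ _ := h2
      _ ≤ _ := h1
      _ = PI * (z * ∑ p ∈ B, Real.log p / p) := by ring
      _ ≤ PI * (T / 2) := mul_le_mul_of_nonneg_left hlog hPI0
      _ = T * (PI / 2) := by ring
  have h4 := le_of_mul_le_mul_left h3 hT
  have h5 := sum_filter_add_sum_filter_not B.powerset (fun s : Finset ℕ => ∑ p ∈ s, Real.log (p : ℝ) ≤ T)
    (fun s : Finset ℕ => ∏ q ∈ s, (z / (q : ℝ)))
  rw [cs_sum_w] at h5
  linarith

theorem zz_pos : 0 < zz := by unfold zz; positivity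

theorem zz_gt_two : 2 < zz := by
  unfold zz
  calc (2 : ℝ) = 2 ^ (1 : ℝ) := (Real.rpow_one 2).symm
    _ < 2 ^ (4 / 3 : ℝ) := Real.rpow_lt_rpow_of_exponent_lt (by norm_num) (by norm_num)

theorem zz_lt_three : zz < 3 := by
  unfold zz
  have h : ((2 : ℝ) ^ (4 / 3 : ℝ)) ^ 3 < 3 ^ 3 := by
    rw [← Real.rpow_natCast, ← Real.rpow_mul (by norm_num)]
    norm_num
  exact lt_of_pow_lt_pow_left₀ 3 (by norm_num) h


theorem cs_log_prod (s : Finset ℕ) (hs : ∀ p ∈ s, 1 ≤ p) :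
    Real.log ((∏ p ∈ s, p : ℕ) : ℝ) = ∑ p ∈ s, Real.log (p : ℝ) := by
  rw [Nat.cast_prod, Real.log_prod]
  intro p hp
  have := hs p hp
  have h2 : (1 : ℝ) ≤ p := by exact_mod_cast this
  linarith

theorem cs_sigma_inj (G : Finset (Finset ℕ)) (f : Finset ℕ → Finset ℕ) (y : ℕ)
    (hG : ∀ s ∈ G, ∀ p ∈ s, p ≤ y) (hf : ∀ s ∈ G, ∀ q ∈ f s, y < q) :
    ((G.sigma f).image (fun a => insert a.2 a.1)).card = ∑ s ∈ G, (f s).card := by
  classical
  rw [card_image_of_injOn, card_sigma]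
  rintro ⟨s, q⟩ h1 ⟨s', q'⟩ h2 h
  rw [mem_coe, mem_sigma] at h1 h2
  simp only at h1 h2 h
  have hs : ∀ s ∈ G, ∀ q ∈ f s, (insert q s).filter (fun p => p ≤ y) = s := by
    intro s hs q hq
    ext p
    rw [mem_filter, mem_insert]
    constructor
    · rintro ⟨h | h, h'⟩
      · exfalso
        have := hf s hs q hq
        omega
      · exact h
    · intro hp
      exact ⟨Or.inr hp, hG s hs p hp⟩
  have e1 : s = s' := by
    rw [← hs s h1.1 q h1.2, ← hs s' h2.1 q' h2.2, h]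
  subst e1
  have e2 : q = q' := by
    have : q ∈ insert q' s := by rw [← h]; exact mem_insert_self _ _
    rw [mem_insert] at this
    rcases this with h3 | h3
    · exact h3
    · exfalso
      have h4 := hf s h1.1 q h1.2
      have h5 := hG s h1.1 q h3
      omega
  subst e2
  rfl

theorem count_sets (Q : ℕ → Prop) [DecidablePred Q] {β : ℝ} (hβ : 0 < β)
    (hM : ∃ c : ℝ, 0 < c ∧ ∀ y : ℕ, 3 ≤ y → c * (Real.log y) ^ β ≤ ∏ p ∈ OP Q y, (1 + zz / p)) :
    ∃ c Y0 : ℝ, 0 < c ∧ 3 ≤ Y0 ∧ ∀ Y : ℝ, Y0 ≤ Y → ∃ 𝓢 : Finset (Finset ℕ),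
      (∀ S ∈ 𝓢, (∀ p ∈ S, p.Prime ∧ 3 ≤ p ∧ (Q p ∨ p % 4 = 1)) ∧
        ((∏ p ∈ S, p : ℕ) : ℝ) ≤ 2 * Y * zz ^ S.card ∧ ((∏ p ∈ S, p : ℕ) : ℝ) ≤ Y ^ 2) ∧
      c * Y * (Real.log Y) ^ (β - 1) ≤ (𝓢.card : ℝ) := by
  classical
  obtain ⟨c, hc, hM⟩ := hM
  obtain ⟨C, hC⟩ := Pool.Agent.Helper256.KM.mertens_log
  obtain ⟨y0, hy03, hPB⟩ := Pool.Agent.H383.Rich.PB_card ∅
  have hz0 := zz_pos
  have hz2 := zz_gt_two
  have hz3 := zz_lt_three
  have e1 : ∀ᶠ Y : ℝ in Filter.atTop, 2 ≤ Y ^ (1 / 32 : ℝ) :=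
    (tendsto_rpow_atTop (by norm_num)).eventually_ge_atTop 2
  have e2 : ∀ᶠ Y : ℝ in Filter.atTop, max y0 6 ≤ Y ^ (1 / 2 : ℝ) :=
    (tendsto_rpow_atTop (by norm_num)).eventually_ge_atTop _
  have e3 : ∀ᶠ Y : ℝ in Filter.atTop, 48 * |C| + 1 ≤ Real.log Y :=
    Real.tendsto_log_atTop.eventually_ge_atTop _
  obtain ⟨Y0, hY0⟩ := Filter.eventually_atTop.1 (e1.and (e2.and e3))
  refine ⟨(zz / 80) * c * (1 / 32) ^ β, max 3 Y0, by positivity, le_max_left _ _, ?_⟩
  intro Y hY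
  obtain ⟨h1, h2, h3⟩ := hY0 Y (le_trans (le_max_right _ _) hY)
  have hY3 : 3 ≤ Y := le_trans (le_max_left _ _) hY
  have hYpos : 0 < Y := by linarith
  have h2a : y0 ≤ Y ^ (1 / 2 : ℝ) := le_trans (le_max_left _ _) h2
  have h2b : 6 ≤ Y ^ (1 / 2 : ℝ) := le_trans (le_max_right _ _) h2
  have hsq : Y ^ (1 / 2 : ℝ) * Y ^ (1 / 2 : ℝ) = Y := by
    rw [← Real.rpow_add hYpos]; norm_num
  set R := Y ^ (1 / 2 : ℝ) with hR
  set L := Real.log Y with hL
  have hL1 : 1 ≤ L := by have := abs_nonneg C; linarith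
  set y : ℕ := ⌊Y ^ (1 / 16 : ℝ)⌋₊ with hy
  have hu : Y ^ (1 / 32 : ℝ) * Y ^ (1 / 32 : ℝ) = Y ^ (1 / 16 : ℝ) := by
    rw [← Real.rpow_add hYpos]; norm_num
  have hyu : Y ^ (1 / 32 : ℝ) ≤ y := by
    have h := Nat.lt_floor_add_one (Y ^ (1 / 16 : ℝ))
    rw [← hy] at h
    nlinarith
  have hyle : (y : ℝ) ≤ Y ^ (1 / 16 : ℝ) := Nat.floor_le (by positivity)
  have hyR : (y : ℝ) ≤ R := hyle.trans
    (Real.rpow_le_rpow_of_exponent_le (by linarith) (by norm_num))
  have hy3 : 3 ≤ y := by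
    have h4 : (4 : ℕ) ≤ y := by
      rw [hy]
      refine Nat.le_floor ?_
      push_cast
      nlinarith
    omega
  have hy3' : (3 : ℝ) ≤ y := by exact_mod_cast hy3
  have hlogy1 : L / 32 ≤ Real.log y := by
    have h := Real.log_le_log (by positivity) hyu
    rw [Real.log_rpow hYpos] at h
    rw [hL]; linarith
  have hlogy2 : Real.log y ≤ L / 16 := by
    have h := Real.log_le_log (by positivity) hyle
    rw [Real.log_rpow hYpos] at h
    rw [hL]; linarith
  set B := OP Q y with hB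
  have hBm : ∀ p ∈ B, p.Prime ∧ 3 ≤ p ∧ p ≤ y ∧ Q p := by
    intro p hp
    rw [hB, OP, mem_filter, mem_Icc] at hp
    exact ⟨hp.2.1, hp.1.1, hp.1.2, hp.2.2⟩
  have hB1 : ∀ p ∈ B, 1 ≤ p := fun p hp => by have := (hBm p hp).2.1; omega
  -- logarithmic mass
  have hT : zz * ∑ p ∈ B, Real.log p / p ≤ (L / 2) / 2 := by
    have h5 : ∑ p ∈ B, Real.log p / p ≤
        ∑ p ∈ (Finset.Icc 1 y).filter Nat.Prime, Real.log p / p := by
      refine sum_le_sum_of_subset_of_nonneg (fun p hp => ?_) (fun p hp _ => ?_)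
      · have := hBm p hp
        rw [mem_filter, mem_Icc]
        exact ⟨⟨by omega, this.2.2.1⟩, this.1⟩
      · rw [mem_filter, mem_Icc] at hp
        have : (1 : ℝ) ≤ p := by exact_mod_cast hp.1.1
        have := Real.log_nonneg this
        positivity
    have h6 := (abs_le.1 (hC y (by omega))).2
    have h7 := le_abs_self C
    have h8 : ∑ p ∈ B, Real.log p / p ≤ L / 16 + |C| := by linarith
    have h9 : 0 ≤ L / 16 + |C| := by have := abs_nonneg C; linarith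
    calc zz * ∑ p ∈ B, Real.log p / p ≤ zz * (L / 16 + |C|) :=
          mul_le_mul_of_nonneg_left h8 hz0.le
      _ ≤ 3 * (L / 16 + |C|) := mul_le_mul_of_nonneg_right hz3.le h9
      _ ≤ (L / 2) / 2 := by linarith
  have hmk := cs_markov B zz (L / 2) hz0.le (by linarith) hB1 hT
  set G := B.powerset.filter (fun s : Finset ℕ => ∑ p ∈ s, Real.log (p : ℝ) ≤ L / 2) with hG
  set P : Finset ℕ → ℝ := fun s => ((∏ p ∈ s, p : ℕ) : ℝ) with hP
  set x : Finset ℕ → ℝ := fun s => Y * zz ^ (s.card + 1) / P s with hx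
  have hGm : ∀ s ∈ G, ∀ p ∈ s, p ∈ B := by
    intro s hs p hp
    rw [hG, mem_filter, mem_powerset] at hs
    exact hs.1 hp
  have hP1 : ∀ s ∈ G, 1 ≤ P s := by
    intro s hs
    have : 1 ≤ ∏ p ∈ s, p := Nat.succ_le_of_lt (prod_pos (fun p hp => hB1 p (hGm s hs p hp)))
    show (1 : ℝ) ≤ ((∏ p ∈ s, p : ℕ) : ℝ)
    exact_mod_cast this
  have hP2 : ∀ s ∈ G, P s ≤ R := by
    intro s hs
    have h5 := cs_log_prod s (fun p hp => hB1 p (hGm s hs p hp))
    have h6 : ∑ p ∈ s, Real.log (p : ℝ) ≤ L / 2 := by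
      rw [hG, mem_filter] at hs
      exact hs.2
    have h7 : Real.log (P s) ≤ L / 2 := by rw [hP]; simp only; rw [h5]; exact h6
    have h8 : Real.log R = L / 2 := by rw [hR, Real.log_rpow hYpos, hL]; ring
    rw [← h8] at h7
    exact (Real.log_le_log_iff (by have := hP1 s hs; linarith) (by linarith)).1 h7
  have hzP : ∀ s ∈ G, zz ^ s.card ≤ P s := by
    intro s hs
    rw [hP]
    simp only
    rw [Nat.cast_prod, ← prod_const]
    refine prod_le_prod (fun p _ => hz0.le) (fun p hp => ?_)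
    have h5 : 3 ≤ p := (hBm p (hGm s hs p hp)).2.1
    have h6 : (3 : ℝ) ≤ p := by exact_mod_cast h5
    linarith
  have hxP : ∀ s ∈ G, x s * P s = Y * zz ^ (s.card + 1) := by
    intro s hs
    rw [hx]
    simp only
    have := hP1 s hs
    exact div_mul_cancel₀ _ (by linarith)
  have hx1 : ∀ s ∈ G, R ≤ x s := by
    intro s hs
    have h5 := hP1 s hs
    have h6 := hP2 s hs
    rw [hx]
    simp only
    rw [le_div_iff₀ (by linarith)]
    have h7 : 1 ≤ zz ^ (s.card + 1) := one_le_pow₀ (by linarith)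
    calc R * P s ≤ R * R := mul_le_mul_of_nonneg_left h6 (by linarith)
      _ = Y := hsq
      _ = Y * 1 := (mul_one Y).symm
      _ ≤ Y * zz ^ (s.card + 1) := mul_le_mul_of_nonneg_left h7 hYpos.le
  have hx2 : ∀ s ∈ G, x s ≤ 3 * Y := by
    intro s hs
    have h5 := hP1 s hs
    have h6 := hzP s hs
    rw [hx]
    simp only
    rw [div_le_iff₀ (by linarith), pow_succ]
    calc Y * (zz ^ s.card * zz) = (Y * zz) * zz ^ s.card := by ring
      _ ≤ (Y * zz) * P s := mul_le_mul_of_nonneg_left h6 (by positivity)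
      _ ≤ (Y * 3) * P s := by
          refine mul_le_mul_of_nonneg_right ?_ (by linarith)
          exact mul_le_mul_of_nonneg_left hz3.le hYpos.le
      _ = 3 * Y * P s := by ring
  have hlogx : ∀ s ∈ G, Real.log (x s) ≤ 2 * L := by
    intro s hs
    have h5 := hx1 s hs
    have h6 : x s ≤ Y * Y := (hx2 s hs).trans (mul_le_mul_of_nonneg_right hY3 hYpos.le)
    have h7 := Real.log_le_log (by linarith) h6
    rw [Real.log_mul hYpos.ne' hYpos.ne'] at h7
    rw [hL]; linarith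
  have hxw : ∀ s : Finset ℕ, x s = Y * zz * ∏ q ∈ s, (zz / q : ℝ) := by
    intro s
    rw [hx, hP]
    simp only
    rw [prod_div_distrib, prod_const, Nat.cast_prod, pow_succ]
    ring
  have hq : ∀ s ∈ G, ∀ q ∈ Pool.Agent.H383.Rich.PB ∅ (x s),
      q.Prime ∧ q % 4 = 1 ∧ x s < q ∧ (q : ℝ) ≤ 2 * x s := by
    intro s hs q hq
    have h5 := hx1 s hs
    have := Pool.Agent.H383.Rich.PB_mem (by linarith) hq
    exact ⟨this.1, this.2.1, this.2.2.2.1, this.2.2.2.2⟩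
  have hqy : ∀ s ∈ G, ∀ q ∈ Pool.Agent.H383.Rich.PB ∅ (x s), y < q := by
    intro s hs q hq'
    have h5 := hx1 s hs
    have h6 := (hq s hs q hq').2.2.1
    have h7 : (y : ℝ) < q := by linarith
    exact_mod_cast h7
  have hcard := cs_sigma_inj G (fun s => Pool.Agent.H383.Rich.PB ∅ (x s)) y
    (fun s hs p hp => (hBm p (hGm s hs p hp)).2.2.1) hqy
  refine ⟨(G.sigma (fun s => Pool.Agent.H383.Rich.PB ∅ (x s))).image (fun a => insert a.2 a.1),
    ?_, ?_⟩
  · intro S hS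
    rw [mem_image] at hS
    obtain ⟨⟨s, q⟩, hsq', rfl⟩ := hS
    rw [mem_sigma] at hsq'
    obtain ⟨hs, hq'⟩ := hsq'
    simp only at hs hq' ⊢
    have hqq := hq s hs q hq'
    have hqn : q ∉ s := by
      intro hcon
      have h5 := (hBm q (hGm s hs q hcon)).2.2.1
      have h6 := hqy s hs q hq'
      omega
    have hprod : ((∏ p ∈ insert q s, p : ℕ) : ℝ) = q * P s := by
      rw [prod_insert hqn, Nat.cast_mul]
    have hle : (q : ℝ) * P s ≤ 2 * Y * zz ^ (s.card + 1) := by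
      have h5 : (q : ℝ) * P s ≤ (2 * x s) * P s :=
        mul_le_mul_of_nonneg_right hqq.2.2.2 (by have := hP1 s hs; linarith)
      have h6 := hxP s hs
      calc (q : ℝ) * P s ≤ (2 * x s) * P s := h5
        _ = 2 * (x s * P s) := by ring
        _ = 2 * (Y * zz ^ (s.card + 1)) := by rw [h6]
        _ = 2 * Y * zz ^ (s.card + 1) := by ring
    refine ⟨?_, ?_, ?_⟩
    · intro p hp
      rw [mem_insert] at hp
      rcases hp with rfl | hp
      · refine ⟨hqq.1, ?_, Or.inr hqq.2.1⟩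
        have := hqq.1.two_le
        have h5 := hqq.2.1
        omega
      · have h5 := hBm p (hGm s hs p hp)
        exact ⟨h5.1, h5.2.1, Or.inl h5.2.2.2⟩
    · rw [hprod, card_insert_of_notMem hqn]
      exact hle
    · rw [hprod]
      refine hle.trans ?_
      have h5 : zz ^ (s.card + 1) ≤ 3 * R := by
        rw [pow_succ, mul_comm]
        have h6 := (hzP s hs).trans (hP2 s hs)
        have h7 : 0 ≤ zz ^ s.card := by positivity
        exact mul_le_mul hz3.le h6 h7 (by norm_num)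
      calc 2 * Y * zz ^ (s.card + 1) ≤ 2 * Y * (3 * R) :=
            mul_le_mul_of_nonneg_left h5 (by positivity)
        _ = Y * (6 * R) := by ring
        _ ≤ Y * (R * R) := by
            refine mul_le_mul_of_nonneg_left ?_ hYpos.le
            exact mul_le_mul_of_nonneg_right h2b (by linarith)
        _ = Y ^ 2 := by rw [hsq]; ring
  · rw [hcard]
    push_cast
    have h5 : ∀ s ∈ G, Y * zz / (40 * L) * ∏ q ∈ s, (zz / q : ℝ) ≤
        ((Pool.Agent.H383.Rich.PB ∅ (x s)).card : ℝ) := by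
      intro s hs
      have h6 := hx1 s hs
      have h7 := hPB (x s) (h2a.trans h6)
      refine le_trans ?_ h7
      have h8 := hlogx s hs
      have h9 : 0 < Real.log (x s) := Real.log_pos (by linarith)
      have h10 : Y * zz / (40 * L) * ∏ q ∈ s, (zz / q : ℝ) = x s / (40 * L) := by
        rw [hxw s]; ring
      rw [h10, div_le_div_iff₀ (by linarith) h9]
      have h11 : 0 < x s := by linarith
      calc x s * Real.log (x s) ≤ x s * (2 * L) := mul_le_mul_of_nonneg_left h8 h11.le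
        _ = 1 / 20 * x s * (40 * L) := by ring
    have h6 := sum_le_sum h5
    refine le_trans ?_ h6
    rw [← mul_sum]
    have h7 := hM y hy3
    have h8 : 0 ≤ Y * zz / (40 * L) := by positivity
    have hLpos : 0 < L := by linarith
    have h9 : (L / 32) ^ β ≤ (Real.log y) ^ β :=
      Real.rpow_le_rpow (by positivity) hlogy1 hβ.le
    have h10 : (L / 32) ^ β = (1 / 32) ^ β * L ^ β := by
      rw [← Real.mul_rpow (by norm_num) hLpos.le]
      congr 1; ring
    calc zz / 80 * c * (1 / 32) ^ β * Y * L ^ (β - 1)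
        = Y * zz / (40 * L) * ((c * ((1 / 32) ^ β * L ^ β)) / 2) := by
          rw [Real.rpow_sub_one hLpos.ne']
          field_simp
          ring
      _ ≤ Y * zz / (40 * L) * ((c * (Real.log y) ^ β) / 2) := by
          rw [← h10]
          gcongr
      _ ≤ Y * zz / (40 * L) * ((∏ p ∈ B, (1 + zz / p)) / 2) := by
          gcongr
      _ ≤ Y * zz / (40 * L) * ∑ s ∈ G, ∏ q ∈ s, (zz / q : ℝ) := by
          gcongr

end Pool.Agent.H452R2.Om
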