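import Mathlib
import Pool.Agent.H452R2.Om.Defs
import Pool.Agent.Helper256.KM.Mertens
import Pool.Agent.Helper379.Lower2

namespace Pool.Agent.H452R2.Om

open Finset

namespace Mert

lemma zz_pos : 0 < zz := by unfold zz; positivity

lemma log_one_add_ge (x : ℝ) (hx : 0 ≤ x) : x - x ^ 2 / 2 ≤ Real.log (1 + x) := by
  refine le_trans ?_ (Real.le_log_one_add_of_nonneg hx)
  rw [le_div_iff₀ (by linarith)]
  nlinarith [mul_nonneg hx hx, mul_nonneg (mul_nonneg hx hx) hx]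

lemma sq_sum (Q : ℕ → Prop) [DecidablePred Q] (y : ℕ) :
    ∑ p ∈ OP Q y, 1 / ((p:ℝ)) ^ 2 ≤ 2 := by
  refine (sum_le_sum_of_subset_of_nonneg ?_ fun i _ _ => by positivity).trans
    (Pool.Agent.Helper379.Lower1.sum_inv_sq_le y)
  intro p hp
  unfold OP at hp
  rw [mem_filter, mem_Icc] at hp
  exact mem_Icc.mpr ⟨by omega, hp.1.2⟩

lemma prod_lower (Q : ℕ → Prop) [DecidablePred Q] (y : ℕ) :
    Real.exp (zz * ∑ p ∈ OP Q y, 1 / (p:ℝ) - zz ^ 2) ≤ ∏ p ∈ OP Q y, (1 + zz / p) := by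
  have hz := zz_pos
  have h1 : ∏ p ∈ OP Q y, Real.exp (zz * (1 / (p:ℝ)) - zz ^ 2 / 2 * (1 / (p:ℝ) ^ 2)) ≤
      ∏ p ∈ OP Q y, (1 + zz / p) := by
    refine prod_le_prod (fun p _ => (Real.exp_pos _).le) fun p _ => ?_
    have hx : 0 ≤ zz / (p:ℝ) := by positivity
    have h2 := log_one_add_ge _ hx
    rw [← Real.le_log_iff_exp_le (by positivity)]
    refine le_trans (le_of_eq ?_) h2
    ring
  refine le_trans ?_ h1
  rw [← Real.exp_sum, sum_sub_distrib, ← mul_sum, ← mul_sum]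
  refine Real.exp_le_exp.mpr ?_
  have h3 := sq_sum Q y
  have h4 : zz ^ 2 / 2 * ∑ p ∈ OP Q y, 1 / ((p:ℝ)) ^ 2 ≤ zz ^ 2 / 2 * 2 :=
    mul_le_mul_of_nonneg_left h3 (by positivity)
  linarith

lemma log_pos3 (y : ℕ) (hy : 3 ≤ y) : 0 < Real.log y :=
  Real.log_pos (by have : (3:ℝ) ≤ y := by exact_mod_cast hy
                   linarith)

open Pool.Agent.Helper379.Lower1 Pool.Agent.Helper379.Lower2 in
lemma sum_gg_le (y : ℕ) :
    Real.log (y + 1) / 6 ≤ ∏ p ∈ OP (fun p => p % 4 = 1) y,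
      (1 + ((2:ℝ) / p) / (1 - (2:ℝ) / p)) := by
  classical
  refine (sum_gg_ge y).trans ?_
  rw [prod_one_add]
  have hnn : ∀ T ∈ (OP (fun p => p % 4 = 1) y).powerset,
      0 ≤ ∏ p ∈ T, ((2:ℝ) / p) / (1 - (2:ℝ) / p) := by
    intro T hT
    refine prod_nonneg fun p hp => ?_
    have hp' := mem_powerset.mp hT hp
    unfold OP at hp'
    rw [mem_filter, mem_Icc] at hp'
    have h3 : (3:ℝ) ≤ p := by exact_mod_cast hp'.1.1
    have h4 : (2:ℝ) / p ≤ 1 := by rw [div_le_one (by linarith)]; linarith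
    exact div_nonneg (by positivity) (by linarith)
  have hmaps : ∀ l ∈ (Icc 1 y).filter (fun l => Squarefree l ∧ ∀ p, p.Prime → p ∣ l → p % 4 = 1),
      l.primeFactors ∈ (OP (fun p => p % 4 = 1) y).powerset := by
    intro l hl
    rw [mem_filter, mem_Icc] at hl
    rw [mem_powerset]
    intro p hp
    have hpp := Nat.prime_of_mem_primeFactors hp
    have hpd := Nat.dvd_of_mem_primeFactors hp
    have h4 := hl.2.2 p hpp hpd
    have h5 := Nat.le_of_dvd (by omega) hpd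
    have h6 := hpp.two_le
    unfold OP
    rw [mem_filter, mem_Icc]
    exact ⟨⟨by omega, by omega⟩, hpp, h4⟩
  have hinj : ∀ l ∈ (Icc 1 y).filter (fun l => Squarefree l ∧ ∀ p, p.Prime → p ∣ l → p % 4 = 1),
      ∀ l' ∈ (Icc 1 y).filter (fun l => Squarefree l ∧ ∀ p, p.Prime → p ∣ l → p % 4 = 1),
      l.primeFactors = l'.primeFactors → l = l' := by
    intro l hl l' hl' h
    rw [mem_filter] at hl hl'
    rw [← Nat.prod_primeFactors_of_squarefree hl.2.1, ← Nat.prod_primeFactors_of_squarefree hl'.2.1,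
      h]
  have h1 : ∑ l ∈ (Icc 1 y).filter (fun l => Squarefree l ∧ ∀ p, p.Prime → p ∣ l → p % 4 = 1), gg l
      = ∑ T ∈ ((Icc 1 y).filter (fun l => Squarefree l ∧
        ∀ p, p.Prime → p ∣ l → p % 4 = 1)).image Nat.primeFactors,
        ∏ p ∈ T, ((2:ℝ) / p) / (1 - (2:ℝ) / p) := by
    rw [sum_image hinj]
    rfl
  refine le_trans (le_of_eq ?_) (sum_le_sum_of_subset_of_nonneg
    (s := ((Icc 1 y).filter (fun l => Squarefree l ∧
        ∀ p, p.Prime → p ∣ l → p % 4 = 1)).image Nat.primeFactors) ?_ fun T hT _ => hnn T hT)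
  · rw [← h1]
  · intro T hT
    rw [mem_image] at hT
    obtain ⟨l, hl, rfl⟩ := hT
    exact hmaps l hl

lemma prod_upper (y : ℕ) :
    ∏ p ∈ OP (fun p => p % 4 = 1) y, (1 + ((2:ℝ) / p) / (1 - (2:ℝ) / p)) ≤
      Real.exp (2 * ∑ p ∈ OP (fun p => p % 4 = 1) y, 1 / (p:ℝ) + 16) := by
  have h1 : ∏ p ∈ OP (fun p => p % 4 = 1) y, (1 + ((2:ℝ) / p) / (1 - (2:ℝ) / p)) ≤
      ∏ p ∈ OP (fun p => p % 4 = 1) y, Real.exp (2 * (1 / (p:ℝ)) + 8 * (1 / (p:ℝ) ^ 2)) := by
    refine prod_le_prod ?_ ?_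
    · intro p hp
      unfold OP at hp
      rw [mem_filter, mem_Icc] at hp
      have h3 : (3:ℝ) ≤ p := by exact_mod_cast hp.1.1
      have h4 : (2:ℝ) / p ≤ 1 := by rw [div_le_one (by linarith)]; linarith
      have := div_nonneg (a := (2:ℝ) / p) (b := 1 - (2:ℝ) / p) (by positivity) (by linarith)
      linarith
    · intro p hp
      unfold OP at hp
      rw [mem_filter, mem_Icc] at hp
      have h5 : 5 ≤ p := by omega
      have h5' : (5:ℝ) ≤ p := by exact_mod_cast h5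
      set x : ℝ := 1 / p with hx
      have hx0 : 0 ≤ x := by positivity
      have hx1 : x ≤ 1 / 5 := by
        rw [hx]; exact one_div_le_one_div_of_le (by norm_num) h5'
      have h6 : (2:ℝ) / p = 2 * x := by rw [hx]; ring
      have h7 : 1 / (p:ℝ) ^ 2 = x ^ 2 := by rw [hx]; ring
      rw [h6, h7]
      have h8 : 2 * x / (1 - 2 * x) ≤ 2 * x + 8 * x ^ 2 := by
        rw [div_le_iff₀ (by linarith)]
        nlinarith [mul_nonneg hx0 hx0, mul_nonneg (mul_nonneg hx0 hx0) hx0]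
      have h9 := Real.add_one_le_exp (2 * x + 8 * x ^ 2)
      linarith
  refine h1.trans ?_
  rw [← Real.exp_sum, sum_add_distrib, ← mul_sum, ← mul_sum]
  refine Real.exp_le_exp.mpr ?_
  have h3 := sq_sum (fun p => p % 4 = 1) y
  linarith

end Mert

open Mert

theorem mert_all : ∃ c : ℝ, 0 < c ∧ ∀ y : ℕ, 3 ≤ y →
    c * (Real.log y) ^ zz ≤ ∏ p ∈ OP (fun _ => True) y, (1 + zz / p) := by
  obtain ⟨C, hC⟩ := Pool.Agent.Helper256.KM.mertens_inv
  refine ⟨Real.exp (-(zz * (C + 1/2) + zz ^ 2)), Real.exp_pos _, ?_⟩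
  intro y hy
  have hz := zz_pos
  have hly := log_pos3 y hy
  refine le_trans ?_ (prod_lower (fun _ => True) y)
  rw [Real.rpow_def_of_pos hly, ← Real.exp_add]
  refine Real.exp_le_exp.mpr ?_
  have h1 := (abs_le.mp (hC y hy)).1
  have h2 : ∑ p ∈ (Finset.Icc 1 y).filter Nat.Prime, (1 : ℝ) / p ≤
      1 / 2 + ∑ p ∈ OP (fun _ => True) y, 1 / (p:ℝ) := by
    have hsub : (Finset.Icc 1 y).filter Nat.Prime ⊆ insert 2 (OP (fun _ => True) y) := by
      intro p hp
      rw [mem_filter, mem_Icc] at hp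
      rw [mem_insert]
      rcases Nat.lt_or_ge p 3 with h | h
      · left
        have := hp.2.two_le
        omega
      · right
        unfold OP
        rw [mem_filter, mem_Icc]
        exact ⟨⟨h, hp.1.2⟩, hp.2, trivial⟩
    refine (sum_le_sum_of_subset_of_nonneg hsub fun i _ _ => by positivity).trans ?_
    rw [sum_insert]
    · norm_num
    · unfold OP
      rw [mem_filter, mem_Icc]
      omega
  have h3 : Real.log (Real.log y) - C - 1 / 2 ≤ ∑ p ∈ OP (fun _ => True) y, 1 / (p:ℝ) := by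
    linarith
  have h4 := mul_le_mul_of_nonneg_left h3 hz.le
  linarith

theorem mert_one : ∃ c : ℝ, 0 < c ∧ ∀ y : ℕ, 3 ≤ y →
    c * (Real.log y) ^ (zz / 2) ≤ ∏ p ∈ OP (fun p => p % 4 = 1) y, (1 + zz / p) := by
  refine ⟨Real.exp (-(zz * (Real.log 6 / 2) + 8 * zz + zz ^ 2)), Real.exp_pos _, ?_⟩
  intro y hy
  have hz := zz_pos
  have hly := log_pos3 y hy
  refine le_trans ?_ (prod_lower (fun p => p % 4 = 1) y)
  rw [Real.rpow_def_of_pos hly, ← Real.exp_add]
  refine Real.exp_le_exp.mpr ?_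
  have h1 := (sum_gg_le y).trans (prod_upper y)
  have h2 : Real.log y ≤ Real.log (y + 1) :=
    Real.log_le_log (by positivity) (by linarith)
  have h3 : Real.log y / 6 ≤ Real.exp (2 * ∑ p ∈ OP (fun p => p % 4 = 1) y, 1 / (p:ℝ) + 16) := by
    linarith
  have h4 := Real.log_le_log (by positivity) h3
  rw [Real.log_exp, Real.log_div hly.ne' (by norm_num)] at h4
  have h5 : (Real.log (Real.log y) - Real.log 6 - 16) / 2 ≤
      ∑ p ∈ OP (fun p => p % 4 = 1) y, 1 / (p:ℝ) := by linarith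
  have h6 := mul_le_mul_of_nonneg_left h5 hz.le
  linarith

end Pool.Agent.H452R2.Om
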