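import Mathlib

open Filter Topology

namespace Pool.Agent.H452R2.Om

/-- the Taylor coefficients of `(1 - z) ^ (-1/4)` -/
noncomputable def vc (n : ℕ) : ℝ := ∏ i ∈ Finset.range n, (((i:ℝ) + 1/4) / (i + 1))

lemma vc_zero : vc 0 = 1 := by simp [vc]

lemma vc_succ (n : ℕ) : vc (n + 1) = vc n * (((n:ℝ) + 1/4) / (n + 1)) := by
  unfold vc; rw [Finset.prod_range_succ]

lemma vc_pos (n : ℕ) : 0 < vc n := by
  unfold vc
  apply Finset.prod_pos
  intro i _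
  positivity

lemma vc_nonneg (n : ℕ) : 0 ≤ vc n := (vc_pos n).le

lemma vc_anti : Antitone vc := by
  apply antitone_nat_of_succ_le
  intro n
  rw [vc_succ]
  have h1 : ((n:ℝ) + 1/4) / (n + 1) ≤ 1 := by
    rw [div_le_one (by positivity)]; linarith
  have := vc_nonneg n
  nlinarith

lemma vc_le_one (n : ℕ) : vc n ≤ 1 := by
  have := vc_anti (Nat.zero_le n)
  rwa [vc_zero] at this

lemma vc_choose (n : ℕ) : ((vc n : ℝ) : ℂ) = Ring.choose ((1/4:ℂ) + n - 1) n := by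
  have h1 := Ring.factorial_nsmul_multichoose_eq_ascPochhammer (1/4:ℂ) n
  rw [Ring.multichoose_eq, Polynomial.ascPochhammer_smeval_eq_eval] at h1
  have h2 : ∀ n : ℕ, (n.factorial : ℂ) * ((vc n : ℝ) : ℂ) = (ascPochhammer ℂ n).eval (1/4:ℂ) := by
    intro n
    induction n with
    | zero => simp [vc_zero]
    | succ n ih =>
      rw [ascPochhammer_succ_eval, ← ih, vc_succ, Nat.factorial_succ]
      push_cast
      have : ((n:ℂ) + 1) ≠ 0 := by exact_mod_cast (Nat.succ_ne_zero n)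
      field_simp
      ring
  rw [← h2 n, nsmul_eq_mul] at h1
  have h3 : (n.factorial : ℂ) ≠ 0 := by exact_mod_cast n.factorial_ne_zero
  exact (mul_left_cancel₀ h3 h1).symm

lemma vc_hasSum {z : ℂ} (hz : ‖z‖ < 1) : HasSum (fun n : ℕ => ((vc n : ℝ) : ℂ) * z^n) (1 / (1 - z) ^ (1/4:ℂ)) := by
  have h := (Complex.one_div_one_sub_cpow_hasFPowerSeriesOnBall_zero (1/4:ℂ)).hasSum (y := z) (by
    rw [← ENNReal.ofReal_one, Metric.eball_ofReal]
    simpa using hz)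
  simp only [zero_add] at h
  have e : (fun n : ℕ => ((vc n : ℝ) : ℂ) * z^n) =
      fun n => (FormalMultilinearSeries.ofScalars ℂ (fun n : ℕ => Ring.choose ((1/4:ℂ) + n - 1) n) n) fun _ => z := by
    funext n
    rw [FormalMultilinearSeries.ofScalars_apply_eq, vc_choose, smul_eq_mul]
  rw [e]
  exact h

lemma cone {z : ℂ} (hz : ‖z‖ < 1) : |(1 / (1 - z) ^ (1/4:ℂ)).im| ≤ (1/2) * (1 / (1 - z) ^ (1/4:ℂ)).re := by
  have hre : 0 < (1 - z).re := by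
    rw [Complex.sub_re, Complex.one_re]
    have := (Complex.re_le_norm z)
    linarith
  have hne : (1 - z) ≠ 0 := by
    intro h; rw [h] at hre; simp at hre
  have harg : |(1 - z).arg| < Real.pi / 2 := by
    rw [Complex.abs_arg_lt_pi_div_two_iff]; left; exact hre
  set t : ℝ := -((1 - z).arg / 4) with ht
  have ht1 : |t| ≤ 2/5 := by
    rw [ht, abs_neg, abs_div]
    have := Real.pi_lt_d2
    have h4 : |(4:ℝ)| = 4 := by norm_num
    rw [h4]; linarith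
  have e : 1 / (1 - z) ^ (1/4:ℂ) = Complex.exp (((-(Real.log ‖1 - z‖ / 4) : ℝ) : ℂ) + (t:ℂ) * Complex.I) := by
    rw [Complex.cpow_def_of_ne_zero hne, one_div, ← Complex.exp_neg]
    congr 1
    apply Complex.ext
    · simp [Complex.log_re]; ring
    · simp [Complex.log_im, ht]; ring
  rw [e, Complex.exp_re, Complex.exp_im]
  have e1 : (((-(Real.log ‖1 - z‖ / 4) : ℝ) : ℂ) + (t:ℂ) * Complex.I).re = -(Real.log ‖1 - z‖ / 4) := by simp
  have e2 : (((-(Real.log ‖1 - z‖ / 4) : ℝ) : ℂ) + (t:ℂ) * Complex.I).im = t := by simp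
  rw [e1, e2, abs_mul, abs_of_pos (Real.exp_pos _)]
  have h1 : |Real.sin t| ≤ 2/5 := (Real.abs_sin_le_abs).trans ht1
  have h2 : 1 - t^2/2 ≤ Real.cos t := Real.one_sub_sq_div_two_le_cos
  have h3 : t^2 ≤ 4/25 := by
    rw [← sq_abs]; nlinarith [abs_nonneg t]
  have h4 : |Real.sin t| ≤ (1/2) * Real.cos t := by linarith
  have := Real.exp_pos (-(Real.log ‖1 - z‖ / 4))
  nlinarith

/-- the weight -/
noncomputable def v (ρ : ℝ) (n : ℕ) : ℝ := vc n * ρ^n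

lemma v_nonneg {ρ : ℝ} (h0 : 0 ≤ ρ) (n : ℕ) : 0 ≤ v ρ n := mul_nonneg (vc_nonneg n) (pow_nonneg h0 n)

lemma v_anti {ρ : ℝ} (h0 : 0 ≤ ρ) (h1 : ρ ≤ 1) : Antitone (v ρ) := by
  intro a b hab
  unfold v
  exact mul_le_mul (vc_anti hab) (pow_le_pow_of_le_one h0 h1 hab) (pow_nonneg h0 _) (vc_nonneg _)

lemma v_zero (ρ : ℝ) : v ρ 0 = 1 := by simp [v, vc_zero]

/-- the functional -/
noncomputable def L (ρ : ℝ) (f : ℕ → ℝ) : ℝ := ∑' n, v ρ n * f n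

variable {ρ : ℝ}

lemma v_summable (h0 : 0 ≤ ρ) (h1 : ρ < 1) : Summable (v ρ) := by
  apply Summable.of_nonneg_of_le (v_nonneg h0) (fun n => ?_) (summable_geometric_of_lt_one h0 h1)
  unfold v
  have := pow_nonneg h0 n
  nlinarith [vc_le_one n]

lemma L_summable (h0 : 0 ≤ ρ) (h1 : ρ < 1) {f : ℕ → ℝ} {B : ℝ} (hf : ∀ n, |f n| ≤ B) : Summable (fun n => v ρ n * f n) := by
  apply Summable.of_norm_bounded ((v_summable h0 h1).mul_right B)
  intro n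
  rw [Real.norm_eq_abs, abs_mul, abs_of_nonneg (v_nonneg h0 n)]
  exact mul_le_mul_of_nonneg_left (hf n) (v_nonneg h0 n)

lemma L_add (h0 : 0 ≤ ρ) (h1 : ρ < 1) {f g : ℕ → ℝ} {B B' : ℝ} (hf : ∀ n, |f n| ≤ B) (hg : ∀ n, |g n| ≤ B') :
    L ρ (fun n => f n + g n) = L ρ f + L ρ g := by
  unfold L
  rw [← (L_summable h0 h1 hf).tsum_add (L_summable h0 h1 hg)]
  congr 1; funext n; ring

lemma L_smul (c : ℝ) (f : ℕ → ℝ) : L ρ (fun n => c * f n) = c * L ρ f := by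
  unfold L
  rw [← tsum_mul_left]
  congr 1; funext n; ring

lemma L_nonneg (h0 : 0 ≤ ρ) {f : ℕ → ℝ} (hf : ∀ n, 0 ≤ f n) : 0 ≤ L ρ f :=
  tsum_nonneg (fun n => mul_nonneg (v_nonneg h0 n) (hf n))

lemma L_mono (h0 : 0 ≤ ρ) (h1 : ρ < 1) {f g : ℕ → ℝ} {B B' : ℝ} (hf : ∀ n, |f n| ≤ B) (hg : ∀ n, |g n| ≤ B')
    (h : ∀ n, f n ≤ g n) : L ρ f ≤ L ρ g :=
  (L_summable h0 h1 hf).tsum_le_tsum (fun n => mul_le_mul_of_nonneg_left (h n) (v_nonneg h0 n)) (L_summable h0 h1 hg)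

/-- the two transforms -/
lemma V_hasSum (h0 : 0 ≤ ρ) (h1 : ρ < 1) (ξ : ℝ) :
    HasSum (fun n : ℕ => ((v ρ n : ℝ) : ℂ) * Complex.exp (((2 * Real.pi * (n * ξ) : ℝ) : ℂ) * Complex.I))
      (1 / (1 - (ρ * Complex.exp (((2 * Real.pi * ξ : ℝ) : ℂ) * Complex.I))) ^ (1/4:ℂ)) := by
  have hz : ‖(ρ:ℂ) * Complex.exp (((2 * Real.pi * ξ : ℝ) : ℂ) * Complex.I)‖ < 1 := by
    rw [norm_mul, Complex.norm_exp_ofReal_mul_I, mul_one, Complex.norm_real, Real.norm_eq_abs, abs_of_nonneg h0]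
    exact h1
  have h := vc_hasSum hz
  have e : (fun n : ℕ => ((v ρ n : ℝ) : ℂ) * Complex.exp (((2 * Real.pi * (n * ξ) : ℝ) : ℂ) * Complex.I)) =
      fun n : ℕ => ((vc n : ℝ) : ℂ) * ((ρ:ℂ) * Complex.exp (((2 * Real.pi * ξ : ℝ) : ℂ) * Complex.I))^n := by
    funext n
    rw [mul_pow, ← Complex.exp_nat_mul]
    unfold v
    push_cast
    rw [mul_assoc]
    congr 3
    ring
  rw [e]; exact h

lemma LC (h0 : 0 ≤ ρ) (h1 : ρ < 1) (ξ : ℝ) : |L ρ (fun n => Real.sin (2 * Real.pi * (n * ξ)))| ≤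
    (1/2) * L ρ (fun n => Real.cos (2 * Real.pi * (n * ξ))) := by
  have hz : ‖(ρ:ℂ) * Complex.exp (((2 * Real.pi * ξ : ℝ) : ℂ) * Complex.I)‖ < 1 := by
    rw [norm_mul, Complex.norm_exp_ofReal_mul_I, mul_one, Complex.norm_real, Real.norm_eq_abs, abs_of_nonneg h0]
    exact h1
  have h := V_hasSum h0 h1 ξ
  have hc := cone hz
  have hr := Complex.hasSum_re h
  have hi := Complex.hasSum_im h
  have e1 : L ρ (fun n => Real.cos (2 * Real.pi * (n * ξ))) =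
      (1 / (1 - (ρ * Complex.exp (((2 * Real.pi * ξ : ℝ) : ℂ) * Complex.I))) ^ (1/4:ℂ)).re := by
    rw [← hr.tsum_eq]
    unfold L
    congr 1; funext n
    rw [Complex.re_ofReal_mul, Complex.exp_ofReal_mul_I_re]
  have e2 : L ρ (fun n => Real.sin (2 * Real.pi * (n * ξ))) =
      (1 / (1 - (ρ * Complex.exp (((2 * Real.pi * ξ : ℝ) : ℂ) * Complex.I))) ^ (1/4:ℂ)).im := by
    rw [← hi.tsum_eq]
    unfold L
    congr 1; funext n
    rw [Complex.im_ofReal_mul, Complex.exp_ofReal_mul_I_im]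
  rw [e1, e2]
  exact hc

/-- the total mass -/
lemma L_one (h0 : 0 ≤ ρ) (h1 : ρ < 1) : L ρ (fun _ => 1) = (1 - ρ) ^ (-(1/4):ℝ) := by
  have h := V_hasSum h0 h1 0
  have hr := Complex.hasSum_re h
  have e1 : L ρ (fun _ => 1) = (1 / (1 - (ρ * Complex.exp (((2 * Real.pi * 0 : ℝ) : ℂ) * Complex.I))) ^ (1/4:ℂ)).re := by
    rw [← hr.tsum_eq]
    unfold L
    congr 1; funext n
    simp
  rw [e1]
  have h3 : (0:ℝ) ≤ 1 - ρ := by linarith
  have e2 : (1 / (1 - (ρ * Complex.exp (((2 * Real.pi * 0 : ℝ) : ℂ) * Complex.I))) ^ (1/4:ℂ)) = (((1 - ρ) ^ (-(1/4):ℝ) : ℝ) : ℂ) := by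
    rw [Real.rpow_neg h3, Complex.ofReal_inv, Complex.ofReal_cpow h3, one_div]
    simp
  rw [e2, Complex.ofReal_re]

end Pool.Agent.H452R2.Om
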