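import Mathlib
import Pool.Agent.H452R2.Om.O1

open Filter Topology

namespace Pool.Agent.H452R2.Om

variable {ρ : ℝ}

/-- the Riesz product -/
noncomputable def Pr (lam : ℕ → ℝ) (S : Finset ℕ) (n : ℕ) : ℝ := ∏ j ∈ S, (1 + Real.cos (2 * Real.pi * (n * lam j)))

lemma Pr_nonneg (lam : ℕ → ℝ) (S : Finset ℕ) (n : ℕ) : 0 ≤ Pr lam S n := by
  unfold Pr
  apply Finset.prod_nonneg
  intro j _
  have := Real.neg_one_le_cos (2 * Real.pi * (n * lam j))
  linarith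

lemma Pr_le (lam : ℕ → ℝ) (S : Finset ℕ) (n : ℕ) : Pr lam S n ≤ 2 ^ S.card := by
  unfold Pr
  rw [← Finset.prod_const]
  apply Finset.prod_le_prod
  · intro j _
    have := Real.neg_one_le_cos (2 * Real.pi * (n * lam j))
    linarith
  · intro j _
    have := Real.cos_le_one (2 * Real.pi * (n * lam j))
    linarith

lemma Pr_insert (lam : ℕ → ℝ) {S : Finset ℕ} {m : ℕ} (hm : m ∉ S) (n : ℕ) :
    Pr lam (insert m S) n = (1 + Real.cos (2 * Real.pi * (n * lam m))) * Pr lam S n := by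
  unfold Pr; rw [Finset.prod_insert hm]

lemma Pr_mul_bdd (lam : ℕ → ℝ) (S : Finset ℕ) {g : ℕ → ℝ} (hg : ∀ n, |g n| ≤ 1) (n : ℕ) : |Pr lam S n * g n| ≤ 2 ^ S.card := by
  rw [abs_mul, abs_of_nonneg (Pr_nonneg lam S n)]
  have h1 := Pr_le lam S n
  have h2 := Pr_nonneg lam S n
  have h3 := hg n
  have h4 := abs_nonneg (g n)
  nlinarith

/-- the two transforms of the Riesz product -/
noncomputable def Cs (ρ : ℝ) (lam : ℕ → ℝ) (S : Finset ℕ) (ξ : ℝ) : ℝ := L ρ (fun n => Pr lam S n * Real.cos (2 * Real.pi * (n * ξ)))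
noncomputable def Ss (ρ : ℝ) (lam : ℕ → ℝ) (S : Finset ℕ) (ξ : ℝ) : ℝ := L ρ (fun n => Pr lam S n * Real.sin (2 * Real.pi * (n * ξ)))

lemma Cs_insert (h0 : 0 ≤ ρ) (h1 : ρ < 1) (lam : ℕ → ℝ) {S : Finset ℕ} {m : ℕ} (hm : m ∉ S) (ξ : ℝ) :
    Cs ρ lam (insert m S) ξ = Cs ρ lam S ξ + (1/2) * Cs ρ lam S (ξ + lam m) + (1/2) * Cs ρ lam S (ξ - lam m) := by
  have b := fun ξ : ℝ => Pr_mul_bdd lam S (g := fun n : ℕ => Real.cos (2 * Real.pi * (n * ξ))) (fun n => Real.abs_cos_le_one _)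
  have hb2 : ∀ (ξ : ℝ) (n : ℕ), |(1/2) * (Pr lam S n * Real.cos (2 * Real.pi * (n * ξ)))| ≤ (1/2) * 2 ^ S.card := by
    intro ξ n
    rw [abs_mul, abs_of_pos (by norm_num : (0:ℝ) < 1/2)]
    exact mul_le_mul_of_nonneg_left (b ξ n) (by norm_num)
  have e : (fun n : ℕ => Pr lam (insert m S) n * Real.cos (2 * Real.pi * (n * ξ))) =
      fun n : ℕ => (Pr lam S n * Real.cos (2 * Real.pi * (n * ξ)) + (1/2) * (Pr lam S n * Real.cos (2 * Real.pi * (n * (ξ + lam m))))) +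
        (1/2) * (Pr lam S n * Real.cos (2 * Real.pi * (n * (ξ - lam m)))) := by
    funext n
    rw [Pr_insert lam hm]
    have e1 : 2 * Real.pi * (n * (ξ + lam m)) = 2 * Real.pi * (n * ξ) + 2 * Real.pi * (n * lam m) := by ring
    have e2 : 2 * Real.pi * (n * (ξ - lam m)) = 2 * Real.pi * (n * ξ) - 2 * Real.pi * (n * lam m) := by ring
    rw [e1, e2, Real.cos_add, Real.cos_sub]
    ring
  unfold Cs
  rw [e, L_add (B := 2 ^ S.card + (1/2) * 2 ^ S.card) (B' := (1/2) * 2 ^ S.card) h0 h1 ?_ (hb2 _),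
    L_add h0 h1 (b _) (hb2 _), L_smul, L_smul]
  intro n
  refine (abs_add_le _ _).trans (add_le_add (b _ n) (hb2 _ n))

lemma Ss_insert (h0 : 0 ≤ ρ) (h1 : ρ < 1) (lam : ℕ → ℝ) {S : Finset ℕ} {m : ℕ} (hm : m ∉ S) (ξ : ℝ) :
    Ss ρ lam (insert m S) ξ = Ss ρ lam S ξ + (1/2) * Ss ρ lam S (ξ + lam m) + (1/2) * Ss ρ lam S (ξ - lam m) := by
  have b := fun ξ : ℝ => Pr_mul_bdd lam S (g := fun n : ℕ => Real.sin (2 * Real.pi * (n * ξ))) (fun n => Real.abs_sin_le_one _)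
  have hb2 : ∀ (ξ : ℝ) (n : ℕ), |(1/2) * (Pr lam S n * Real.sin (2 * Real.pi * (n * ξ)))| ≤ (1/2) * 2 ^ S.card := by
    intro ξ n
    rw [abs_mul, abs_of_pos (by norm_num : (0:ℝ) < 1/2)]
    exact mul_le_mul_of_nonneg_left (b ξ n) (by norm_num)
  have e : (fun n : ℕ => Pr lam (insert m S) n * Real.sin (2 * Real.pi * (n * ξ))) =
      fun n : ℕ => (Pr lam S n * Real.sin (2 * Real.pi * (n * ξ)) + (1/2) * (Pr lam S n * Real.sin (2 * Real.pi * (n * (ξ + lam m))))) +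
        (1/2) * (Pr lam S n * Real.sin (2 * Real.pi * (n * (ξ - lam m)))) := by
    funext n
    rw [Pr_insert lam hm]
    have e1 : 2 * Real.pi * (n * (ξ + lam m)) = 2 * Real.pi * (n * ξ) + 2 * Real.pi * (n * lam m) := by ring
    have e2 : 2 * Real.pi * (n * (ξ - lam m)) = 2 * Real.pi * (n * ξ) - 2 * Real.pi * (n * lam m) := by ring
    rw [e1, e2, Real.sin_add, Real.sin_sub]
    ring
  unfold Ss
  rw [e, L_add (B := 2 ^ S.card + (1/2) * 2 ^ S.card) (B' := (1/2) * 2 ^ S.card) h0 h1 ?_ (hb2 _),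
    L_add h0 h1 (b _) (hb2 _), L_smul, L_smul]
  intro n
  refine (abs_add_le _ _).trans (add_le_add (b _ n) (hb2 _ n))

/-- the cone condition for all Riesz products -/
theorem cone_all (h0 : 0 ≤ ρ) (h1 : ρ < 1) (lam : ℕ → ℝ) (S : Finset ℕ) : ∀ ξ : ℝ, |Ss ρ lam S ξ| ≤ (1/2) * Cs ρ lam S ξ := by
  classical
  induction S using Finset.induction_on with
  | empty =>
    intro ξ
    have := LC h0 h1 ξ
    unfold Ss Cs Pr
    simpa using this
  | insert m S hm ih =>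
    intro ξ
    rw [Ss_insert h0 h1 lam hm, Cs_insert h0 h1 lam hm]
    have a1 := abs_le.mp (ih ξ)
    have a2 := abs_le.mp (ih (ξ + lam m))
    have a3 := abs_le.mp (ih (ξ - lam m))
    rw [abs_le]
    constructor <;> linarith [a1.1, a1.2, a2.1, a2.2, a3.1, a3.2]

lemma Cs_nonneg (h0 : 0 ≤ ρ) (h1 : ρ < 1) (lam : ℕ → ℝ) (S : Finset ℕ) (ξ : ℝ) : 0 ≤ Cs ρ lam S ξ := by
  have h := cone_all h0 h1 lam S ξ
  have := abs_nonneg (Ss ρ lam S ξ)
  linarith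

/-- the mass of the Riesz product -/
noncomputable def Ds (ρ : ℝ) (lam : ℕ → ℝ) (S : Finset ℕ) : ℝ := L ρ (Pr lam S)

lemma Ds_eq (lam : ℕ → ℝ) (S : Finset ℕ) : Ds ρ lam S = Cs ρ lam S 0 := by
  unfold Ds Cs
  congr 1; funext n; simp

lemma Ds_insert (h0 : 0 ≤ ρ) (h1 : ρ < 1) (lam : ℕ → ℝ) {S : Finset ℕ} {m : ℕ} (hm : m ∉ S) :
    Ds ρ lam (insert m S) = Ds ρ lam S + Cs ρ lam S (lam m) := by
  rw [Ds_eq, Cs_insert h0 h1 lam hm, Ds_eq]
  have e : Cs ρ lam S (0 - lam m) = Cs ρ lam S (0 + lam m) := by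
    unfold Cs
    congr 1; funext n
    congr 1
    rw [← Real.cos_neg]; congr 1; ring
  rw [e, zero_add]; ring

lemma Ds_ge (h0 : 0 ≤ ρ) (h1 : ρ < 1) (lam : ℕ → ℝ) (S : Finset ℕ) : (1 - ρ) ^ (-(1/4):ℝ) ≤ Ds ρ lam S := by
  classical
  induction S using Finset.induction_on with
  | empty =>
    rw [← L_one h0 h1]
    unfold Ds Pr
    simp
  | insert m S hm ih =>
    rw [Ds_insert h0 h1 lam hm]
    have := Cs_nonneg h0 h1 lam S (lam m)
    linarith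

/-- the tests -/
noncomputable def Ns (ρ : ℝ) (lam : ℕ → ℝ) (S : Finset ℕ) (φ ξ : ℝ) : ℝ :=
  L ρ (fun n => Pr lam S n * Real.cos (2 * Real.pi * (n * ξ) - φ))

lemma Ns_eq (h0 : 0 ≤ ρ) (h1 : ρ < 1) (lam : ℕ → ℝ) (S : Finset ℕ) (φ ξ : ℝ) :
    Ns ρ lam S φ ξ = Real.cos φ * Cs ρ lam S ξ + Real.sin φ * Ss ρ lam S ξ := by
  have b := fun n => Pr_mul_bdd lam S (g := fun n : ℕ => Real.cos (2 * Real.pi * (n * ξ))) (fun n => Real.abs_cos_le_one _) n
  have b' := fun n => Pr_mul_bdd lam S (g := fun n : ℕ => Real.sin (2 * Real.pi * (n * ξ))) (fun n => Real.abs_sin_le_one _) n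
  unfold Ns Cs Ss
  rw [← L_smul, ← L_smul, ← L_add (B := |Real.cos φ| * 2 ^ S.card) (B' := |Real.sin φ| * 2 ^ S.card) h0 h1]
  · congr 1; funext n
    rw [Real.cos_sub]; ring
  · intro n
    rw [abs_mul]; exact mul_le_mul_of_nonneg_left (b n) (abs_nonneg _)
  · intro n
    rw [abs_mul]; exact mul_le_mul_of_nonneg_left (b' n) (abs_nonneg _)

variable {φ : ℝ}

lemma Ns_ge (h0 : 0 ≤ ρ) (h1 : ρ < 1) (lam : ℕ → ℝ) (S : Finset ℕ) (hφ : |Real.sin φ| ≤ Real.cos φ) (ξ : ℝ) :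
    (1/2) * Real.cos φ * Cs ρ lam S ξ ≤ Ns ρ lam S φ ξ := by
  rw [Ns_eq h0 h1]
  have h := cone_all h0 h1 lam S ξ
  have h2 := Cs_nonneg h0 h1 lam S ξ
  have h3 : |Real.sin φ * Ss ρ lam S ξ| ≤ Real.cos φ * ((1/2) * Cs ρ lam S ξ) := by
    rw [abs_mul]
    exact mul_le_mul hφ h (abs_nonneg _) ((abs_nonneg _).trans hφ)
  have := (abs_le.mp h3).1
  linarith

lemma Ns_nonneg (h0 : 0 ≤ ρ) (h1 : ρ < 1) (lam : ℕ → ℝ) (S : Finset ℕ) (hφ : |Real.sin φ| ≤ Real.cos φ) (ξ : ℝ) :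
    0 ≤ Ns ρ lam S φ ξ := by
  have h := Ns_ge h0 h1 lam S hφ ξ
  have h2 := Cs_nonneg h0 h1 lam S ξ
  have h3 : 0 ≤ Real.cos φ := (abs_nonneg _).trans hφ
  have : 0 ≤ (1/2) * Real.cos φ * Cs ρ lam S ξ := by positivity
  linarith

/-- the main positivity: the frequencies of the Riesz product have a large test -/
theorem Ns_main (h0 : 0 ≤ ρ) (h1 : ρ < 1) (lam : ℕ → ℝ) {S : Finset ℕ} (hφ : |Real.sin φ| ≤ Real.cos φ) {m : ℕ} (hm : m ∈ S) :
    (1/2) * Real.cos φ * Ds ρ lam S ≤ Ns ρ lam S φ (lam m) := by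
  classical
  obtain ⟨S', hmS, rfl⟩ : ∃ S', m ∉ S' ∧ insert m S' = S := ⟨S.erase m, Finset.notMem_erase m S, Finset.insert_erase hm⟩
  rw [Ds_insert h0 h1 lam hmS]
  have hb1 : ∀ n : ℕ, |Pr lam S' n * Real.cos (2 * Real.pi * (n * lam m) - φ)| ≤ 2 ^ S'.card := fun n =>
    Pr_mul_bdd lam S' (g := fun n : ℕ => Real.cos (2 * Real.pi * (n * lam m) - φ)) (fun n => Real.abs_cos_le_one _) n
  have hb2 : ∀ n : ℕ, |(1/2) * (Pr lam S' n * Real.cos φ)| ≤ (1/2) * 2 ^ S'.card := by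
    intro n
    rw [abs_mul, abs_of_pos (by norm_num : (0:ℝ) < 1/2)]
    exact mul_le_mul_of_nonneg_left (Pr_mul_bdd lam S' (g := fun n : ℕ => Real.cos φ) (fun n => Real.abs_cos_le_one _) n) (by norm_num)
  have hb3 : ∀ n : ℕ, |(1/2) * (Pr lam S' n * Real.cos (2 * Real.pi * (n * (2 * lam m)) - φ))| ≤ (1/2) * 2 ^ S'.card := by
    intro n
    rw [abs_mul, abs_of_pos (by norm_num : (0:ℝ) < 1/2)]
    exact mul_le_mul_of_nonneg_left (Pr_mul_bdd lam S' (g := fun n : ℕ => Real.cos (2 * Real.pi * (n * (2 * lam m)) - φ))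
      (fun n => Real.abs_cos_le_one _) n) (by norm_num)
  have e : (fun n : ℕ => Pr lam (insert m S') n * Real.cos (2 * Real.pi * (n * lam m) - φ)) =
      fun n : ℕ => (Pr lam S' n * Real.cos (2 * Real.pi * (n * lam m) - φ) + (1/2) * (Pr lam S' n * Real.cos φ)) +
        (1/2) * (Pr lam S' n * Real.cos (2 * Real.pi * (n * (2 * lam m)) - φ)) := by
    funext n
    rw [Pr_insert lam hmS]
    have key : Real.cos (2 * Real.pi * (n * lam m)) * Real.cos (2 * Real.pi * (n * lam m) - φ) =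
        (1/2) * Real.cos φ + (1/2) * Real.cos (2 * Real.pi * (n * (2 * lam m)) - φ) := by
      have e1 : 2 * Real.pi * (n * (2 * lam m)) - φ = 2 * Real.pi * (n * lam m) + (2 * Real.pi * (n * lam m) - φ) := by ring
      have e3 : Real.cos φ = Real.cos (2 * Real.pi * (n * lam m) - (2 * Real.pi * (n * lam m) - φ)) := by
        congr 1; ring
      rw [e1, Real.cos_add, e3, Real.cos_sub (2 * Real.pi * (n * lam m)) (2 * Real.pi * (n * lam m) - φ)]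
      ring
    linear_combination (Pr lam S' n) * key
  have s1 : L ρ (fun n => (Pr lam S' n * Real.cos (2 * Real.pi * (n * lam m) - φ) + (1/2) * (Pr lam S' n * Real.cos φ)) +
        (1/2) * (Pr lam S' n * Real.cos (2 * Real.pi * (n * (2 * lam m)) - φ))) =
      L ρ (fun n => Pr lam S' n * Real.cos (2 * Real.pi * (n * lam m) - φ) + (1/2) * (Pr lam S' n * Real.cos φ)) +
      L ρ (fun n => (1/2) * (Pr lam S' n * Real.cos (2 * Real.pi * (n * (2 * lam m)) - φ))) :=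
    L_add (B := 2 ^ S'.card + (1/2) * 2 ^ S'.card) (B' := (1/2) * 2 ^ S'.card) h0 h1
      (fun n => (abs_add_le _ _).trans (add_le_add (hb1 n) (hb2 n))) hb3
  have s2 : L ρ (fun n => Pr lam S' n * Real.cos (2 * Real.pi * (n * lam m) - φ) + (1/2) * (Pr lam S' n * Real.cos φ)) =
      L ρ (fun n => Pr lam S' n * Real.cos (2 * Real.pi * (n * lam m) - φ)) + L ρ (fun n => (1/2) * (Pr lam S' n * Real.cos φ)) :=
    L_add h0 h1 hb1 hb2
  have s3 : L ρ (fun n => (1/2) * (Pr lam S' n * Real.cos φ)) = (1/2) * (Real.cos φ * Ds ρ lam S') := by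
    rw [L_smul]
    congr 1
    unfold Ds
    rw [← L_smul]
    congr 1; funext n; ring
  have s4 : L ρ (fun n => (1/2) * (Pr lam S' n * Real.cos (2 * Real.pi * (n * (2 * lam m)) - φ))) =
      (1/2) * Ns ρ lam S' φ (2 * lam m) := by
    rw [L_smul]; rfl
  have e2 : Ns ρ lam (insert m S') φ (lam m) = Ns ρ lam S' φ (lam m) + (1/2) * (Real.cos φ * Ds ρ lam S') +
      (1/2) * Ns ρ lam S' φ (2 * lam m) := by
    have : Ns ρ lam (insert m S') φ (lam m) = L ρ (fun n : ℕ => Pr lam (insert m S') n * Real.cos (2 * Real.pi * (n * lam m) - φ)) := rfl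
    rw [this, e, s1, s2, s3, s4]; rfl
  rw [e2]
  have a1 := Ns_ge h0 h1 lam S' hφ (lam m)
  have a2 := Ns_nonneg h0 h1 lam S' hφ (2 * lam m)
  linarith

end Pool.Agent.H452R2.Om
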