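import Mathlib
import Pool.Agent.H452R2.Om.O2
import Pool.Agent.H383.Gen

open Filter Topology
open Pool.Agent.H383

namespace Pool.Agent.H452R2.Om

variable {ρ : ℝ}

/-- finite Abel summation -/
lemma abel_fin {v g : ℕ → ℝ} (hv : Antitone v) (hv0 : ∀ n, 0 ≤ v n) {β γ : ℝ}
    (hG : ∀ N : ℕ, ∑ n ∈ Finset.range N, g n ≤ β * N + γ) (N : ℕ) :
    ∑ n ∈ Finset.range N, v n * g n ≤ β * ∑ n ∈ Finset.range N, v n + γ * v 0 := by
  suffices h : ∀ N : ℕ, 0 ≤ β * ∑ n ∈ Finset.range N, v n + γ * v 0 - ∑ n ∈ Finset.range N, v n * g n -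
      v N * (β * N + γ - ∑ n ∈ Finset.range N, g n) by
    have h1 := h N
    have h2 := mul_nonneg (hv0 N) (sub_nonneg.mpr (hG N))
    linarith
  intro N
  induction N with
  | zero => simp; linarith
  | succ N ih =>
    have h1 := hG (N+1)
    have h2 : 0 ≤ (v N - v (N+1)) * (β * ((N+1 : ℕ):ℝ) + γ - ∑ n ∈ Finset.range (N+1), g n) :=
      mul_nonneg (sub_nonneg.mpr (hv (Nat.le_succ N))) (by linarith)
    rw [Finset.sum_range_succ _ N] at h2
    rw [Finset.sum_range_succ, Finset.sum_range_succ, Finset.sum_range_succ]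
    push_cast at h2 ⊢
    have e : β * (∑ n ∈ Finset.range N, v n + v N) + γ * v 0 - (∑ n ∈ Finset.range N, v n * g n + v N * g N) -
        v (N + 1) * (β * (N + 1) + γ - (∑ n ∈ Finset.range N, g n + g N)) =
        (β * ∑ n ∈ Finset.range N, v n + γ * v 0 - ∑ n ∈ Finset.range N, v n * g n -
          v N * (β * N + γ - ∑ n ∈ Finset.range N, g n)) +
        (v N - v (N+1)) * (β * (N+1) + γ - (∑ n ∈ Finset.range N, g n + g N)) := by ring
    rw [e]
    linarith

lemma v_sum_le (h0 : 0 ≤ ρ) (h1 : ρ < 1) (N : ℕ) : ∑ n ∈ Finset.range N, v ρ n ≤ L ρ (fun _ => 1) := by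
  unfold L
  simp only [mul_one]
  exact (v_summable h0 h1).sum_le_tsum _ (fun n _ => v_nonneg h0 n)

lemma L_abel (h0 : 0 ≤ ρ) (h1 : ρ < 1) {g : ℕ → ℝ} (hg : ∀ n, 0 ≤ g n) {β γ : ℝ} (hβ : 0 ≤ β)
    (hG : ∀ N : ℕ, ∑ n ∈ Finset.range N, g n ≤ β * N + γ) : L ρ g ≤ β * L ρ (fun _ => 1) + γ := by
  unfold L
  apply Real.tsum_le_of_sum_range_le
  · intro n; exact mul_nonneg (v_nonneg h0 n) (hg n)
  · intro N
    have h2 := abel_fin (v_anti h0 h1.le) (v_nonneg h0) hG N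
    rw [v_zero, mul_one] at h2
    have h3 := v_sum_le h0 h1 N
    unfold L at h3
    have h4 := mul_le_mul_of_nonneg_left h3 hβ
    linarith

lemma expo_bounds {x : ℝ} (hx : 0 < x) (hx1 : x ≤ 1) : x / 2 ≤ 1 - Real.exp (-x) ∧ 1 - Real.exp (-x) ≤ x := by
  constructor
  · have h1 := Real.add_one_le_exp x
    have h2 : Real.exp (-x) ≤ 1 / (1 + x) := by
      rw [Real.exp_neg, one_div]
      apply inv_anti₀ (by linarith) (by linarith)
    have h3 : 1 - 1 / (1 + x) = x / (1 + x) := by field_simp; ring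
    have h4 : x / 2 ≤ x / (1 + x) := by
      apply div_le_div_of_nonneg_left hx.le (by linarith) (by linarith)
    linarith
  · have := Real.add_one_le_exp (-x)
    linarith

/-- the mass of the weight -/
lemma L1_le {T : ℝ} (hT : 1 ≤ T) : L (Real.exp (-(1/T))) (fun _ => 1) ≤ 2 * T ^ (1/4:ℝ) := by
  have hT0 : 0 < T := by linarith
  have hx : 0 < 1/T := by positivity
  have hx1 : 1/T ≤ 1 := by rw [div_le_one hT0]; exact hT
  obtain ⟨h1, h2⟩ := expo_bounds hx hx1
  rw [L_one (Real.exp_pos _).le (by rw [Real.exp_lt_one_iff]; linarith)]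
  calc (1 - Real.exp (-(1/T))) ^ (-(1/4):ℝ) ≤ (1/T/2) ^ (-(1/4):ℝ) :=
        Real.rpow_le_rpow_of_nonpos (by positivity) h1 (by norm_num)
    _ = (2 * T) ^ (1/4:ℝ) := by
        rw [show 1/T/2 = (2*T)⁻¹ by field_simp, Real.inv_rpow (by positivity), Real.rpow_neg (by positivity), inv_inv]
    _ = 2 ^ (1/4:ℝ) * T ^ (1/4:ℝ) := Real.mul_rpow (by norm_num) hT0.le
    _ ≤ 2 * T ^ (1/4:ℝ) := by
        apply mul_le_mul_of_nonneg_right _ (by positivity)
        calc (2:ℝ) ^ (1/4:ℝ) ≤ 2 ^ (1:ℝ) := Real.rpow_le_rpow_of_exponent_le (by norm_num) (by norm_num)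
          _ = 2 := Real.rpow_one 2

lemma L1_ge {T : ℝ} (hT : 1 ≤ T) : T ^ (1/4:ℝ) ≤ (1 - Real.exp (-(1/T))) ^ (-(1/4):ℝ) := by
  have hT0 : 0 < T := by linarith
  have hx : 0 < 1/T := by positivity
  have hx1 : 1/T ≤ 1 := by rw [div_le_one hT0]; exact hT
  obtain ⟨h1, h2⟩ := expo_bounds hx hx1
  calc T ^ (1/4:ℝ) = (1/T) ^ (-(1/4):ℝ) := by
        rw [one_div T, Real.inv_rpow (by positivity), Real.rpow_neg (by positivity), inv_inv]
    _ ≤ _ := Real.rpow_le_rpow_of_nonpos (by linarith) h2 (by norm_num)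

lemma vc_sum_le {N : ℕ} (hN : 1 ≤ N) : ∑ n ∈ Finset.range N, vc n ≤ 6 * (N:ℝ) ^ (1/4:ℝ) := by
  have hN1 : (1:ℝ) ≤ N := by exact_mod_cast hN
  have hN0 : (0:ℝ) < N := by linarith
  set ρ := Real.exp (-(1/(N:ℝ))) with hρ
  have h0 : 0 ≤ ρ := (Real.exp_pos _).le
  have h1 : ρ < 1 := by rw [hρ, Real.exp_lt_one_iff]; have : 0 < 1/(N:ℝ) := by positivity
                        linarith
  have h2 : ∑ n ∈ Finset.range N, vc n ≤ 3 * ∑ n ∈ Finset.range N, v ρ n := by
    rw [Finset.mul_sum]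
    apply Finset.sum_le_sum
    intro n hn
    rw [Finset.mem_range] at hn
    have hn' : (n:ℝ) ≤ N := by exact_mod_cast hn.le
    unfold v
    have h3 : 1/3 ≤ ρ^n := by
      rw [hρ, ← Real.exp_nat_mul]
      have h4 : -1 ≤ (n:ℝ) * -(1/(N:ℝ)) := by
        have : (n:ℝ) * (1/N) ≤ 1 := by
          rw [mul_one_div, div_le_one hN0]; exact hn'
        linarith
      have h5 : Real.exp (-1) ≤ Real.exp ((n:ℝ) * -(1/(N:ℝ))) := Real.exp_le_exp.mpr h4
      have h6 : 1/3 ≤ Real.exp (-1) := by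
        rw [Real.exp_neg, one_div]
        apply inv_anti₀ (Real.exp_pos 1)
        have := Real.exp_one_lt_d9
        linarith
      linarith
    have := vc_nonneg n
    nlinarith
  have h3 := v_sum_le h0 h1 N
  have h4 := L1_le hN1
  linarith

lemma L_summable1 (h0 : 0 ≤ ρ) (h1 : ρ < 1) {f : ℕ → ℝ} {B : ℝ} (hf : ∀ n : ℕ, |f n| ≤ B * (n + 1)) :
    Summable (fun n => v ρ n * f n) := by
  have hB : 0 ≤ B := by
    have := hf 0
    have h2 := abs_nonneg (f 0)
    simp at this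
    linarith
  have hs : Summable (fun n : ℕ => B * ((n:ℝ) * ρ^n + ρ^n)) := by
    apply Summable.mul_left
    apply Summable.add
    · have := summable_pow_mul_geometric_of_norm_lt_one 1 (r := ρ) (by rw [Real.norm_eq_abs, abs_of_nonneg h0]; exact h1)
      simpa using this
    · exact summable_geometric_of_lt_one h0 h1
  apply Summable.of_norm_bounded hs
  intro n
  rw [Real.norm_eq_abs, abs_mul, abs_of_nonneg (v_nonneg h0 n)]
  have h2 : v ρ n ≤ ρ^n := by
    unfold v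
    have := pow_nonneg h0 n
    nlinarith [vc_le_one n]
  calc v ρ n * |f n| ≤ ρ^n * (B * (n + 1)) := mul_le_mul h2 (hf n) (abs_nonneg _) (pow_nonneg h0 n)
    _ = _ := by ring

/-- the exponentially small tail -/
lemma L_tail {T Z : ℝ} (hT : 1 ≤ T) (hZ : 0 ≤ Z) :
    L (Real.exp (-(1/T))) (fun n : ℕ => if Z < n then ((n:ℝ) + 1) else 0) ≤ 32 * T^2 * Real.exp (-(Z/(2*T))) := by
  have hT0 : 0 < T := by linarith
  set ρ := Real.exp (-(1/T)) with hρ
  set σ := Real.exp (-(1/(2*T))) with hσ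
  have hσ0 : 0 < σ := Real.exp_pos _
  have hx : 0 < 1/(2*T) := by positivity
  have hx1 : 1/(2*T) ≤ 1 := by rw [div_le_one (by positivity)]; linarith
  obtain ⟨b1, b2⟩ := expo_bounds hx hx1
  rw [← hσ] at b1 b2
  have hσ1 : σ < 1 := by linarith
  have hs1 : Summable (fun n : ℕ => (n:ℝ) * σ^n) := by
    have := summable_pow_mul_geometric_of_norm_lt_one 1 (r := σ) (by rw [Real.norm_eq_abs, abs_of_pos hσ0]; exact hσ1)
    simpa using this
  have hs2 : Summable (fun n : ℕ => σ^n) := summable_geometric_of_lt_one hσ0.le hσ1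
  have hs : Summable (fun n : ℕ => Real.exp (-(Z/(2*T))) * ((n:ℝ) * σ^n + σ^n)) := (hs1.add hs2).mul_left _
  have hterm : ∀ n : ℕ, v ρ n * (if Z < n then ((n:ℝ) + 1) else 0) ≤ Real.exp (-(Z/(2*T))) * ((n:ℝ) * σ^n + σ^n) := by
    intro n
    split_ifs with h
    · have h2 : v ρ n ≤ Real.exp (-(Z/(2*T))) * σ^n := by
        have h3 : v ρ n ≤ ρ^n := by
          unfold v
          have := pow_nonneg (Real.exp_pos (-(1/T))).le n
          nlinarith [vc_le_one n]
        refine h3.trans ?_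
        rw [hρ, hσ, ← Real.exp_nat_mul, ← Real.exp_nat_mul, ← Real.exp_add]
        apply Real.exp_le_exp.mpr
        have e1 : (n:ℝ) * -(1/T) = -(n/(2*T)) + (n:ℝ) * -(1/(2*T)) := by field_simp; ring
        rw [e1]
        have e2 : Z/(2*T) ≤ n/(2*T) := by
          apply div_le_div_of_nonneg_right h.le (by positivity)
        linarith
      have hn : (0:ℝ) ≤ n := Nat.cast_nonneg n
      calc v ρ n * ((n:ℝ) + 1) ≤ (Real.exp (-(Z/(2*T))) * σ^n) * ((n:ℝ) + 1) := mul_le_mul_of_nonneg_right h2 (by linarith)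
        _ = _ := by ring
    · rw [mul_zero]
      positivity
  unfold L
  have hs0 : Summable (fun n : ℕ => v ρ n * (if Z < n then ((n:ℝ) + 1) else 0)) := by
    apply Summable.of_nonneg_of_le _ hterm hs
    intro n
    apply mul_nonneg (v_nonneg (Real.exp_pos _).le n)
    split_ifs
    · positivity
    · exact le_rfl
  refine (hs0.tsum_le_tsum hterm hs).trans ?_
  rw [tsum_mul_left, hs1.tsum_add hs2, tsum_coe_mul_geometric_of_norm_lt_one (by rw [Real.norm_eq_abs, abs_of_pos hσ0]; exact hσ1),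
    tsum_geometric_of_lt_one hσ0.le hσ1]
  have hd : 1/(4*T) ≤ 1 - σ := by
    have : 1/(2*T)/2 = 1/(4*T) := by field_simp; norm_num
    linarith
  have hd0 : 0 < 1 - σ := by linarith
  have hd2 : (1 - σ)⁻¹ ≤ 4 * T := by
    rw [inv_le_comm₀ hd0 (by positivity)]
    rw [one_div] at hd
    exact hd
  have h5 : σ / (1 - σ)^2 ≤ 16 * T^2 := by
    have : σ / (1 - σ)^2 ≤ ((1 - σ)⁻¹)^2 := by
      rw [div_eq_mul_inv, inv_pow]
      have : 0 < ((1 - σ)^2)⁻¹ := by positivity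
      nlinarith
    refine this.trans ?_
    have h6 : 0 ≤ (1 - σ)⁻¹ := by positivity
    nlinarith
  have h6 : (1 - σ)⁻¹ ≤ 16 * T^2 := by nlinarith
  have h7 := Real.exp_pos (-(Z/(2*T)))
  nlinarith

end Pool.Agent.H452R2.Om
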