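import Mathlib
import Pool.Agent.H452R2.Om.O3

open Filter Topology
open Pool.Agent.H383

namespace Pool.Agent.H452R2.Om

variable {ρ : ℝ}

lemma L_add1 (h0 : 0 ≤ ρ) (h1 : ρ < 1) {f g : ℕ → ℝ} {B B' : ℝ} (hf : ∀ n : ℕ, |f n| ≤ B * (n + 1)) (hg : ∀ n : ℕ, |g n| ≤ B' * (n + 1)) :
    L ρ (fun n => f n + g n) = L ρ f + L ρ g := by
  unfold L
  rw [← (L_summable1 h0 h1 hf).tsum_add (L_summable1 h0 h1 hg)]
  congr 1; funext n; ring

lemma L_mono1 (h0 : 0 ≤ ρ) (h1 : ρ < 1) {f g : ℕ → ℝ} {B B' : ℝ} (hf : ∀ n : ℕ, |f n| ≤ B * (n + 1)) (hg : ∀ n : ℕ, |g n| ≤ B' * (n + 1))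
    (h : ∀ n, f n ≤ g n) : L ρ f ≤ L ρ g :=
  (L_summable1 h0 h1 hf).tsum_le_tsum (fun n => mul_le_mul_of_nonneg_left (h n) (v_nonneg h0 n)) (L_summable1 h0 h1 hg)

/-- the model polynomial tested against a Riesz product -/
lemma L_U (h0 : 0 ≤ ρ) (h1 : ρ < 1) (a : ℕ → ℝ) (φ α : ℝ) (S : Finset ℕ) (M : ℕ) :
    L ρ (fun n => Pr (fun m => α * √(m:ℝ)) S n * Gen.U a φ (n * α) M) =
      ∑ m ∈ Finset.Icc 1 (M^2), a m * Ns ρ (fun m => α * √(m:ℝ)) S φ (α * √(m:ℝ)) := by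
  unfold Ns L
  simp only [← tsum_mul_left]
  rw [← Summable.tsum_finsetSum]
  · congr 1; funext n
    unfold Gen.U
    rw [Finset.mul_sum, Finset.mul_sum]
    apply Finset.sum_congr rfl
    intro m _
    have : 2 * Real.pi * ((n:ℝ) * (α * √(m:ℝ))) - φ = 2 * Real.pi * ((n:ℝ) * α * √(m:ℝ)) - φ := by ring
    rw [this]; ring
  · intro m _
    apply Summable.mul_left
    exact L_summable h0 h1 (B := 2 ^ S.card) (fun n => Pr_mul_bdd _ S
      (g := fun n : ℕ => Real.cos (2 * Real.pi * ((n:ℝ) * (α * √(m:ℝ))) - φ)) (fun n => Real.abs_cos_le_one _) n)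

lemma err_tendsto {A₀ A₁ C c1 ε D2 : ℝ} (hc1 : 0 < c1) (hε : 0 < ε) :
    Tendsto (fun T : ℝ => 96 * A₁ * T ^ (-(ε/8)) + A₁ * T ^ (-(1/8):ℝ) + 32 * A₀ * (T ^ (3:ℝ) * Real.exp (-(T^ε/2))) +
      2 * C * T ^ (-(c1/2)) + C * D2 * T ^ (-(1/8):ℝ)) atTop (𝓝 0) := by
  have h1 : ∀ y : ℝ, 0 < y → Tendsto (fun T : ℝ => T ^ (-y)) atTop (𝓝 0) := fun y hy => tendsto_rpow_neg_atTop hy
  have t1 := (h1 (ε/8) (by positivity)).const_mul (96 * A₁)
  have t2 := (h1 (1/8) (by norm_num)).const_mul A₁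
  have t4 := (h1 (c1/2) (by positivity)).const_mul (2 * C)
  have t5 := (h1 (1/8) (by norm_num)).const_mul (C * D2)
  have t3 : Tendsto (fun T : ℝ => T ^ (3:ℝ) * Real.exp (-(T^ε/2))) atTop (𝓝 0) := by
    have g1 : Tendsto (fun x : ℝ => x ^ (3/ε) * Real.exp (-(1/2) * x)) atTop (𝓝 0) :=
      tendsto_rpow_mul_exp_neg_mul_atTop_nhds_zero (3/ε) (1/2) (by norm_num)
    have g2 := g1.comp (tendsto_rpow_atTop hε)
    refine g2.congr' ?_
    filter_upwards [eventually_gt_atTop 0] with T hT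
    simp only [Function.comp_apply]
    rw [← Real.rpow_mul hT.le]
    congr 2
    · field_simp
    · ring
  have t3' := t3.const_mul (32 * A₀)
  have := (((t1.add t2).add t3').add t4).add t5
  simpa using this

/-- the main inequality: large values from a Riesz product with a one-sided weight -/
theorem main_ineq {e a : ℕ → ℝ} (ha : ∀ m, 0 ≤ a m) {φ α : ℝ} (hφ : |Real.sin φ| ≤ Real.cos φ)
    {A₀ : ℝ} (hA0 : 0 < A₀) (hA : ∀ n : ℕ, |e n| ≤ A₀ * (n + 1)) {c C : ℝ} {D : ℕ} (hc : 0 < c) (hC : 0 < C)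
    (hQ : ∀ M : ℕ, 1 ≤ M → ∀ N : ℕ, ∑ n ∈ Finset.range N, |e n - Gen.U a φ (n * α) M| ≤ C * ((M:ℝ) ^ (-c) * N + (M:ℝ) ^ D))
    {ε : ℝ} (hε : 0 < ε) (hε1 : ε ≤ 1) : ∃ κ : ℝ, 0 < κ ∧ ∃ T0 : ℝ, 1 ≤ T0 ∧ ∀ T : ℝ, T0 ≤ T → ∀ S : Finset ℕ,
      (∀ m ∈ S, 1 ≤ m ∧ (m:ℝ) ≤ T ^ κ) → (S.card : ℝ) ≤ κ * Real.log T → ∀ B : ℝ, 0 ≤ B →
      B + 1 ≤ (1/2) * Real.cos φ * ∑ m ∈ S, a m → ∃ n : ℕ, T ^ (1 - ε) ≤ n ∧ (n:ℝ) ≤ T ^ (1 + ε) ∧ B ≤ e n := by
  classical
  have hcos : 0 ≤ Real.cos φ := (abs_nonneg _).trans hφ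
  -- mean absolute value
  set A₁ : ℝ := C + a 1 with hA1
  have hA10 : 0 < A₁ := by have := ha 1; rw [hA1]; linarith
  have hmean : ∀ N : ℕ, ∑ n ∈ Finset.range N, |e n| ≤ A₁ * N + A₁ := by
    intro N
    have h1 := hQ 1 le_rfl N
    have h2 : ∀ n : ℕ, |Gen.U a φ (n * α) 1| ≤ a 1 := by
      intro n
      unfold Gen.U
      simp only [one_pow, Finset.Icc_self, Finset.sum_singleton]
      rw [abs_mul, abs_of_nonneg (ha 1)]
      have := Real.abs_cos_le_one (2 * Real.pi * ((n:ℝ) * α * √((1:ℕ):ℝ)) - φ)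
      have := ha 1
      nlinarith
    have h3 : ∑ n ∈ Finset.range N, |e n| ≤ ∑ n ∈ Finset.range N, (|e n - Gen.U a φ (n * α) 1| + a 1) := by
      apply Finset.sum_le_sum
      intro n _
      have h4 : |e n| ≤ |e n - Gen.U a φ (n * α) 1| + |Gen.U a φ (n * α) 1| := by
        have := abs_add_le (e n - Gen.U a φ (n * α) 1) (Gen.U a φ (n * α) 1)
        rwa [sub_add_cancel] at this
      have := h2 n
      linarith
    rw [Finset.sum_add_distrib, Finset.sum_const, Finset.card_range, nsmul_eq_mul] at h3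
    simp only [Nat.cast_one, Real.one_rpow, one_mul, one_pow] at h1
    have := ha 1
    rw [hA1]
    nlinarith
  set κ₁ : ℝ := 1 / (16 * (D + 1)) with hκ₁
  have hκ₁0 : 0 < κ₁ := by positivity
  have hDκ : (D:ℝ) * κ₁ ≤ 1/16 := by
    rw [hκ₁, mul_one_div, div_le_iff₀ (by positivity)]
    nlinarith
  set c1 : ℝ := c * κ₁ with hc1
  have hc10 : 0 < c1 := by positivity
  set κ : ℝ := min (min (c1/2) κ₁) (min (1/16) (ε/8)) with hκ
  have hκ0 : 0 < κ := by positivity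
  have hκa : κ ≤ c1/2 := (min_le_left _ _).trans (min_le_left _ _)
  have hκb : κ ≤ κ₁ := (min_le_left _ _).trans (min_le_right _ _)
  have hκc : κ ≤ 1/16 := (min_le_right _ _).trans (min_le_left _ _)
  have hκd : κ ≤ ε/8 := (min_le_right _ _).trans (min_le_right _ _)
  have hev := (err_tendsto (A₀ := A₀) (A₁ := A₁) (C := C) (D2 := 2^D) hc10 hε).eventually (gt_mem_nhds one_pos)
  rw [eventually_atTop] at hev
  obtain ⟨T1, hT1⟩ := hev
  refine ⟨κ, hκ0, max T1 1, le_max_right _ _, ?_⟩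
  intro T hT S hS hcard B hB hF
  have hTE := hT1 T ((le_max_left _ _).trans hT)
  have hT1' : 1 ≤ T := (le_max_right _ _).trans hT
  have hT0 : 0 < T := by linarith
  by_contra hcon
  push Not at hcon
  set ρ := Real.exp (-(1/T)) with hρ
  have h0 : 0 ≤ ρ := (Real.exp_pos _).le
  have h1 : ρ < 1 := by
    rw [hρ, Real.exp_lt_one_iff]
    have : 0 < 1/T := by positivity
    linarith
  set lam : ℕ → ℝ := fun m => α * √(m:ℝ) with hlam
  set M : ℕ := ⌈T ^ κ₁⌉₊ with hM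
  have hTκ1 : 1 ≤ T ^ κ₁ := Real.one_le_rpow hT1' hκ₁0.le
  have hMge : T ^ κ₁ ≤ M := Nat.le_ceil _
  have hM1 : 1 ≤ M := by
    have : (1:ℝ) ≤ M := hTκ1.trans hMge
    exact_mod_cast this
  have hMle : (M:ℝ) ≤ 2 * T ^ κ₁ := by
    have := Nat.ceil_lt_add_one (show 0 ≤ T ^ κ₁ by positivity)
    rw [← hM] at this
    linarith
  have hSM : S ⊆ Finset.Icc 1 (M^2) := by
    intro m hm
    obtain ⟨m1, m2⟩ := hS m hm
    rw [Finset.mem_Icc]
    refine ⟨m1, ?_⟩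
    have h3 : (m:ℝ) ≤ M := by
      refine m2.trans (le_trans ?_ hMge)
      exact Real.rpow_le_rpow_of_exponent_le hT1' hκb
    have h4 : m ≤ M := by exact_mod_cast h3
    nlinarith
  have h2K : (2:ℝ) ^ S.card ≤ T ^ κ := by
    rw [← Real.rpow_natCast, Real.rpow_def_of_pos (by norm_num), Real.rpow_def_of_pos hT0]
    apply Real.exp_le_exp.mpr
    have hl2 : Real.log 2 ≤ 1 := by have := Real.log_two_lt_d9; linarith
    have hl2' : 0 ≤ Real.log 2 := Real.log_nonneg (by norm_num)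
    have hlT : 0 ≤ Real.log T := Real.log_nonneg hT1'
    have h3 : (0:ℝ) ≤ S.card := Nat.cast_nonneg _
    nlinarith
  set K2 : ℝ := (2:ℝ) ^ S.card with hK2
  have hK20 : 0 < K2 := by positivity
  set P : ℕ → ℝ := Pr lam S with hP
  have hP0 : ∀ n, 0 ≤ P n := Pr_nonneg lam S
  have hP2 : ∀ n, P n ≤ K2 := Pr_le lam S
  set U : ℕ → ℝ := fun n => Gen.U a φ (n * α) M with hU
  set AM : ℝ := ∑ m ∈ Finset.Icc 1 (M^2), a m with hAM
  have hAM0 : 0 ≤ AM := Finset.sum_nonneg (fun m _ => ha m)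
  have hUb : ∀ n, |U n| ≤ AM := by
    intro n
    simp only [hU]
    unfold Gen.U
    refine (Finset.abs_sum_le_sum_abs _ _).trans ?_
    apply Finset.sum_le_sum
    intro m _
    rw [abs_mul, abs_of_nonneg (ha m)]
    have := Real.abs_cos_le_one (2 * Real.pi * ((n:ℝ) * α * √(m:ℝ)) - φ)
    have := ha m
    nlinarith
  -- (1) the main term
  have hmain : (B + 1) * Ds ρ lam S ≤ L ρ (fun n => P n * U n) := by
    have e1 := L_U h0 h1 a φ α S M
    have e2 : L ρ (fun n => P n * U n) = ∑ m ∈ Finset.Icc 1 (M^2), a m * Ns ρ lam S φ (lam m) := e1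
    rw [e2]
    have hD0 : 0 ≤ Ds ρ lam S := L_nonneg h0 hP0
    calc (B + 1) * Ds ρ lam S ≤ ((1/2) * Real.cos φ * ∑ m ∈ S, a m) * Ds ρ lam S := mul_le_mul_of_nonneg_right hF hD0
      _ = ∑ m ∈ S, a m * ((1/2) * Real.cos φ * Ds ρ lam S) := by
          rw [Finset.mul_sum, Finset.sum_mul]
          apply Finset.sum_congr rfl
          intro m _; ring
      _ ≤ ∑ m ∈ S, a m * Ns ρ lam S φ (lam m) := by
          apply Finset.sum_le_sum
          intro m hm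
          exact mul_le_mul_of_nonneg_left (Ns_main h0 h1 lam hφ hm) (ha m)
      _ ≤ _ := by
          apply Finset.sum_le_sum_of_subset_of_nonneg hSM
          intro m _ _
          exact mul_nonneg (ha m) (Ns_nonneg h0 h1 lam S hφ _)
  -- (2) the approximation error
  have hd : ∀ n : ℕ, |e n - U n| ≤ (A₀ + AM) * (n + 1) := by
    intro n
    have h3 := hA n
    have h4 := hUb n
    have hn : (0:ℝ) ≤ n := Nat.cast_nonneg n
    calc |e n - U n| ≤ |e n| + |U n| := abs_sub _ _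
      _ ≤ A₀ * (n+1) + AM * (n + 1) := by nlinarith
      _ = _ := by ring
  have herr1 : L ρ (fun n => P n * (U n - e n)) ≤ K2 * (C * (M:ℝ) ^ (-c) * L ρ (fun _ => 1) + C * (M:ℝ)^D) := by
    have h3 : L ρ (fun n => P n * (U n - e n)) ≤ L ρ (fun n => K2 * |e n - U n|) := by
      apply L_mono1 h0 h1 (B := K2 * (A₀ + AM)) (B' := K2 * (A₀ + AM))
      · intro n
        rw [abs_mul, abs_of_nonneg (hP0 n), abs_sub_comm, mul_assoc]
        exact mul_le_mul (hP2 n) (hd n) (abs_nonneg _) hK20.le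
      · intro n
        rw [abs_mul, abs_of_pos hK20, abs_abs, mul_assoc]
        exact mul_le_mul_of_nonneg_left (hd n) hK20.le
      · intro n
        calc P n * (U n - e n) ≤ P n * |e n - U n| := by
              apply mul_le_mul_of_nonneg_left _ (hP0 n)
              rw [abs_sub_comm]; exact le_abs_self _
          _ ≤ _ := mul_le_mul_of_nonneg_right (hP2 n) (abs_nonneg _)
    refine h3.trans ?_
    rw [L_smul]
    apply mul_le_mul_of_nonneg_left _ hK20.le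
    apply L_abel h0 h1 (fun n => abs_nonneg _) (by positivity)
    intro N
    have := hQ M hM1 N
    calc _ ≤ _ := this
      _ = _ := by ring
  -- (3) the upper bound
  have hup : L ρ (fun n => P n * e n) ≤ B * Ds ρ lam S + K2 * L ρ (fun n : ℕ => if (n:ℝ) < T ^ (1 - ε) then |e n| else 0) +
      (K2 * A₀) * L ρ (fun n : ℕ => if T ^ (1 + ε) < n then ((n:ℝ) + 1) else 0) := by
    have hf1 : ∀ n : ℕ, |B * P n| ≤ (B * K2) * (n + 1) := by
      intro n
      rw [abs_mul, abs_of_nonneg hB, abs_of_nonneg (hP0 n)]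
      have h3 := mul_le_mul_of_nonneg_left (hP2 n) hB
      have hn : (0:ℝ) ≤ n := Nat.cast_nonneg n
      have h4 : 0 ≤ B * K2 := by positivity
      nlinarith
    have hf2 : ∀ n : ℕ, |K2 * (if (n:ℝ) < T ^ (1 - ε) then |e n| else 0)| ≤ (K2 * A₀) * (n + 1) := by
      intro n
      rw [abs_mul, abs_of_pos hK20, mul_assoc]
      apply mul_le_mul_of_nonneg_left _ hK20.le
      split_ifs
      · rw [abs_abs]; exact hA n
      · rw [abs_zero]; positivity
    have hf3 : ∀ n : ℕ, |(K2 * A₀) * (if T ^ (1 + ε) < n then ((n:ℝ) + 1) else 0)| ≤ (K2 * A₀) * (n + 1) := by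
      intro n
      rw [abs_mul, abs_of_pos (by positivity)]
      apply mul_le_mul_of_nonneg_left _ (by positivity)
      split_ifs
      · rw [abs_of_nonneg (by positivity)]
      · rw [abs_zero]; positivity
    have e1 : L ρ (fun n : ℕ => (B * P n + K2 * (if (n:ℝ) < T ^ (1 - ε) then |e n| else 0)) +
        (K2 * A₀) * (if T ^ (1 + ε) < n then ((n:ℝ) + 1) else 0)) =
        B * Ds ρ lam S + K2 * L ρ (fun n : ℕ => if (n:ℝ) < T ^ (1 - ε) then |e n| else 0) +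
        (K2 * A₀) * L ρ (fun n : ℕ => if T ^ (1 + ε) < n then ((n:ℝ) + 1) else 0) := by
      rw [L_add1 (B := B * K2 + K2 * A₀) (B' := K2 * A₀) h0 h1 _ hf3, L_add1 h0 h1 hf1 hf2, L_smul, L_smul, L_smul]
      · rfl
      · intro n
        refine (abs_add_le _ _).trans ?_
        rw [add_mul]
        exact add_le_add (hf1 n) (hf2 n)
    rw [← e1]
    apply L_mono1 h0 h1 (B := K2 * A₀) (B' := B * K2 + K2 * A₀ + K2 * A₀)
    · intro n
      rw [abs_mul, abs_of_nonneg (hP0 n), mul_assoc]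
      exact mul_le_mul (hP2 n) (hA n) (abs_nonneg _) hK20.le
    · intro n
      refine (abs_add_le _ _).trans ?_
      rw [add_mul]
      apply add_le_add _ (hf3 n)
      refine (abs_add_le _ _).trans ?_
      rw [add_mul]
      exact add_le_add (hf1 n) (hf2 n)
    · intro n
      have hn : (0:ℝ) ≤ n := Nat.cast_nonneg n
      have hz1 : 0 ≤ B * P n := mul_nonneg hB (hP0 n)
      by_cases c1' : (n:ℝ) < T ^ (1 - ε)
      · rw [if_pos c1']
        have h5 : P n * e n ≤ K2 * |e n| := by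
          calc P n * e n ≤ P n * |e n| := mul_le_mul_of_nonneg_left (le_abs_self _) (hP0 n)
            _ ≤ _ := mul_le_mul_of_nonneg_right (hP2 n) (abs_nonneg _)
        have h6 : 0 ≤ (K2 * A₀) * (if T ^ (1 + ε) < (n:ℝ) then ((n:ℝ) + 1) else 0) := by
          apply mul_nonneg (by positivity)
          split_ifs
          · positivity
          · exact le_rfl
        linarith
      · rw [if_neg c1']
        push Not at c1'
        by_cases c2 : T ^ (1 + ε) < (n:ℝ)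
        · rw [if_pos c2]
          have h5 : P n * e n ≤ (K2 * A₀) * (n + 1) := by
            calc P n * e n ≤ P n * |e n| := mul_le_mul_of_nonneg_left (le_abs_self _) (hP0 n)
              _ ≤ K2 * (A₀ * (n + 1)) := mul_le_mul (hP2 n) (hA n) (abs_nonneg _) hK20.le
              _ = _ := by ring
          linarith
        · rw [if_neg c2]
          push Not at c2
          have h5 := hcon n c1' c2
          have h6 : P n * e n ≤ B * P n := by
            rw [mul_comm]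
            exact mul_le_mul_of_nonneg_right h5.le (hP0 n)
          linarith
  -- the initial segment
  have hini : L ρ (fun n : ℕ => if (n:ℝ) < T ^ (1 - ε) then |e n| else 0) ≤ A₁ * (12 * (T ^ (1 - ε)) ^ (1/4:ℝ)) + A₁ := by
    set N₁ : ℕ := ⌈T ^ (1 - ε)⌉₊ with hN₁
    have hTε : 1 ≤ T ^ (1 - ε) := Real.one_le_rpow hT1' (by linarith)
    have hN₁1 : 1 ≤ N₁ := by
      have : (1:ℝ) ≤ N₁ := hTε.trans (Nat.le_ceil _)
      exact_mod_cast this
    have hN₁2 : (N₁:ℝ) ≤ 2 * T ^ (1 - ε) := by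
      have := Nat.ceil_lt_add_one (show 0 ≤ T ^ (1 - ε) by positivity)
      rw [← hN₁] at this
      linarith
    have e1 : L ρ (fun n : ℕ => if (n:ℝ) < T ^ (1 - ε) then |e n| else 0) =
        ∑ n ∈ Finset.range N₁, v ρ n * (if (n:ℝ) < T ^ (1 - ε) then |e n| else 0) := by
      unfold L
      apply tsum_eq_sum
      intro n hn
      rw [Finset.mem_range, not_lt] at hn
      have : ¬ ((n:ℝ) < T ^ (1 - ε)) := by
        push Not
        exact Nat.ceil_le.mp hn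
      simp only []
      rw [if_neg this, mul_zero]
    rw [e1]
    have e2 : ∑ n ∈ Finset.range N₁, v ρ n * (if (n:ℝ) < T ^ (1 - ε) then |e n| else 0) ≤ ∑ n ∈ Finset.range N₁, v ρ n * |e n| := by
      apply Finset.sum_le_sum
      intro n _
      apply mul_le_mul_of_nonneg_left _ (v_nonneg h0 n)
      split_ifs
      · exact le_rfl
      · exact abs_nonneg _
    refine e2.trans ?_
    have e3 := abel_fin (v_anti h0 h1.le) (v_nonneg h0) hmean N₁
    rw [v_zero, mul_one] at e3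
    refine e3.trans ?_
    have e4 : ∑ n ∈ Finset.range N₁, v ρ n ≤ ∑ n ∈ Finset.range N₁, vc n := by
      apply Finset.sum_le_sum
      intro n _
      unfold v
      have h5 : ρ^n ≤ 1 := pow_le_one₀ h0 h1.le
      have := vc_nonneg n
      nlinarith
    have e5 := vc_sum_le hN₁1
    have e6 : (N₁:ℝ) ^ (1/4:ℝ) ≤ 2 * (T ^ (1 - ε)) ^ (1/4:ℝ) := by
      calc (N₁:ℝ) ^ (1/4:ℝ) ≤ (2 * T ^ (1 - ε)) ^ (1/4:ℝ) := Real.rpow_le_rpow (Nat.cast_nonneg _) hN₁2 (by norm_num)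
        _ = 2 ^ (1/4:ℝ) * (T ^ (1 - ε)) ^ (1/4:ℝ) := Real.mul_rpow (by norm_num) (by positivity)
        _ ≤ 2 * (T ^ (1 - ε)) ^ (1/4:ℝ) := by
            apply mul_le_mul_of_nonneg_right _ (by positivity)
            calc (2:ℝ) ^ (1/4:ℝ) ≤ 2 ^ (1:ℝ) := Real.rpow_le_rpow_of_exponent_le (by norm_num) (by norm_num)
              _ = 2 := Real.rpow_one 2
    have e7 : ∑ n ∈ Finset.range N₁, v ρ n ≤ 12 * (T ^ (1 - ε)) ^ (1/4:ℝ) := by linarith
    have := mul_le_mul_of_nonneg_left e7 hA10.le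
    linarith
  have htail := L_tail (T := T) (Z := T ^ (1 + ε)) hT1' (by positivity)
  rw [← hρ] at htail
  -- combine
  have hPd : ∀ n : ℕ, |P n * (U n - e n)| ≤ (K2 * (A₀ + AM)) * (n + 1) := by
    intro n
    rw [abs_mul, abs_of_nonneg (hP0 n), abs_sub_comm, mul_assoc]
    exact mul_le_mul (hP2 n) (hd n) (abs_nonneg _) hK20.le
  have hPe : ∀ n : ℕ, |P n * e n| ≤ (K2 * A₀) * (n + 1) := by
    intro n
    rw [abs_mul, abs_of_nonneg (hP0 n), mul_assoc]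
    exact mul_le_mul (hP2 n) (hA n) (abs_nonneg _) hK20.le
  have hsplit : L ρ (fun n => P n * U n) = L ρ (fun n => P n * e n) + L ρ (fun n => P n * (U n - e n)) := by
    rw [← L_add1 h0 h1 hPe hPd]
    congr 1; funext n; ring
  have hDge : T ^ (1/4:ℝ) ≤ Ds ρ lam S := (L1_ge hT1').trans (Ds_ge h0 h1 lam S)
  have hL1 := L1_le hT1'
  rw [← hρ] at hL1
  have hkey : Ds ρ lam S ≤ K2 * (A₁ * (12 * (T ^ (1 - ε)) ^ (1/4:ℝ)) + A₁) +
      (K2 * A₀) * (32 * T^2 * Real.exp (-(T ^ (1 + ε)/(2*T)))) +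
      K2 * (C * (M:ℝ) ^ (-c) * (2 * T ^ (1/4:ℝ)) + C * (M:ℝ)^D) := by
    have g1 := mul_le_mul_of_nonneg_left hini hK20.le
    have g2 := mul_le_mul_of_nonneg_left htail (show 0 ≤ K2 * A₀ by positivity)
    have g3 : K2 * (C * (M:ℝ) ^ (-c) * L ρ (fun _ => 1) + C * (M:ℝ)^D) ≤ K2 * (C * (M:ℝ) ^ (-c) * (2 * T ^ (1/4:ℝ)) + C * (M:ℝ)^D) := by
      gcongr
    linarith
  -- sizes
  have q1 : K2 * (A₁ * (12 * (T ^ (1 - ε)) ^ (1/4:ℝ)) + A₁) ≤ T ^ (1/4:ℝ) * (96 * A₁ * T ^ (-(ε/8)) + A₁ * T ^ (-(1/8):ℝ)) := by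
    have r1 : K2 * (A₁ * (12 * (T ^ (1 - ε)) ^ (1/4:ℝ))) ≤ T ^ (1/4:ℝ) * (96 * A₁ * T ^ (-(ε/8))) := by
      rw [← Real.rpow_mul hT0.le]
      calc K2 * (A₁ * (12 * T ^ ((1 - ε) * (1/4)))) ≤ T ^ κ * (A₁ * (12 * T ^ ((1 - ε) * (1/4)))) :=
            mul_le_mul_of_nonneg_right h2K (by positivity)
        _ = 12 * A₁ * (T ^ κ * T ^ ((1 - ε) * (1/4))) := by ring
        _ = 12 * A₁ * T ^ (κ + (1 - ε) * (1/4)) := by rw [Real.rpow_add hT0]
        _ ≤ 12 * A₁ * T ^ (1/4 + -(ε/8)) := by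
            apply mul_le_mul_of_nonneg_left _ (by positivity)
            apply Real.rpow_le_rpow_of_exponent_le hT1'
            linarith
        _ = 12 * A₁ * (T ^ (1/4:ℝ) * T ^ (-(ε/8))) := by rw [Real.rpow_add hT0]
        _ ≤ _ := by
            have : 0 ≤ A₁ * (T ^ (1/4:ℝ) * T ^ (-(ε/8))) := by positivity
            linarith
    have r2 : K2 * A₁ ≤ T ^ (1/4:ℝ) * (A₁ * T ^ (-(1/8):ℝ)) := by
      calc K2 * A₁ ≤ T ^ κ * A₁ := mul_le_mul_of_nonneg_right h2K hA10.le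
        _ ≤ T ^ (1/4 + -(1/8):ℝ) * A₁ := by
            apply mul_le_mul_of_nonneg_right _ hA10.le
            apply Real.rpow_le_rpow_of_exponent_le hT1'
            linarith
        _ = _ := by rw [Real.rpow_add hT0]; ring
    linarith
  have q2 : (K2 * A₀) * (32 * T^2 * Real.exp (-(T ^ (1 + ε)/(2*T)))) ≤ T ^ (1/4:ℝ) * (32 * A₀ * (T ^ (3:ℝ) * Real.exp (-(T^ε/2)))) := by
    have e1 : T ^ (1 + ε)/(2*T) = T^ε/2 := by
      rw [Real.rpow_add hT0, Real.rpow_one]; field_simp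
    rw [e1]
    have e2 : K2 * T^2 ≤ T ^ (1/4:ℝ) * T ^ (3:ℝ) := by
      calc K2 * T^2 ≤ T ^ κ * T^2 := mul_le_mul_of_nonneg_right h2K (by positivity)
        _ = T ^ (κ + 2) := by rw [Real.rpow_add hT0, Real.rpow_two]
        _ ≤ T ^ (1/4 + 3:ℝ) := by
            apply Real.rpow_le_rpow_of_exponent_le hT1'
            linarith
        _ = _ := by rw [Real.rpow_add hT0]
    calc _ = (K2 * T^2) * (32 * A₀ * Real.exp (-(T^ε/2))) := by ring
      _ ≤ (T ^ (1/4:ℝ) * T ^ (3:ℝ)) * (32 * A₀ * Real.exp (-(T^ε/2))) := mul_le_mul_of_nonneg_right e2 (by positivity)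
      _ = _ := by ring
  have q3 : K2 * (C * (M:ℝ) ^ (-c) * (2 * T ^ (1/4:ℝ)) + C * (M:ℝ)^D) ≤
      T ^ (1/4:ℝ) * (2 * C * T ^ (-(c1/2)) + C * 2^D * T ^ (-(1/8):ℝ)) := by
    have r1 : (M:ℝ) ^ (-c) ≤ T ^ (-c1) := by
      calc (M:ℝ) ^ (-c) ≤ (T ^ κ₁) ^ (-c) := Real.rpow_le_rpow_of_nonpos (by positivity) hMge (by linarith)
        _ = _ := by rw [← Real.rpow_mul hT0.le]; congr 1; rw [hc1]; ring
    have r2 : (M:ℝ)^D ≤ 2^D * T ^ (1/16:ℝ) := by
      calc (M:ℝ)^D ≤ (2 * T ^ κ₁)^D := pow_le_pow_left₀ (Nat.cast_nonneg _) hMle D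
        _ = 2^D * T ^ (κ₁ * D) := by
            rw [mul_pow, ← Real.rpow_natCast (T ^ κ₁) D, ← Real.rpow_mul hT0.le]
        _ ≤ _ := by
            apply mul_le_mul_of_nonneg_left _ (by positivity)
            apply Real.rpow_le_rpow_of_exponent_le hT1'
            linarith
    have r3 : K2 * (C * (M:ℝ) ^ (-c) * (2 * T ^ (1/4:ℝ))) ≤ T ^ (1/4:ℝ) * (2 * C * T ^ (-(c1/2))) := by
      calc K2 * (C * (M:ℝ) ^ (-c) * (2 * T ^ (1/4:ℝ))) ≤ T ^ κ * (C * T ^ (-c1) * (2 * T ^ (1/4:ℝ))) := by gcongr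
        _ = T ^ (1/4:ℝ) * (2 * C * (T ^ κ * T ^ (-c1))) := by ring
        _ = T ^ (1/4:ℝ) * (2 * C * T ^ (κ + -c1)) := by rw [Real.rpow_add hT0]
        _ ≤ _ := by
            apply mul_le_mul_of_nonneg_left _ (by positivity)
            apply mul_le_mul_of_nonneg_left _ (by positivity)
            apply Real.rpow_le_rpow_of_exponent_le hT1'
            linarith
    have r4 : K2 * (C * (M:ℝ)^D) ≤ T ^ (1/4:ℝ) * (C * 2^D * T ^ (-(1/8):ℝ)) := by
      calc K2 * (C * (M:ℝ)^D) ≤ T ^ κ * (C * (2^D * T ^ (1/16:ℝ))) := by gcongr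
        _ = C * 2^D * (T ^ κ * T ^ (1/16:ℝ)) := by ring
        _ = C * 2^D * T ^ (κ + 1/16) := by rw [Real.rpow_add hT0]
        _ ≤ C * 2^D * T ^ (1/4 + -(1/8):ℝ) := by
            apply mul_le_mul_of_nonneg_left _ (by positivity)
            apply Real.rpow_le_rpow_of_exponent_le hT1'
            linarith
        _ = _ := by rw [Real.rpow_add hT0]; ring
    linarith
  have hT4 : 0 < T ^ (1/4:ℝ) := by positivity
  have hfin : T ^ (1/4:ℝ) ≤ T ^ (1/4:ℝ) * (96 * A₁ * T ^ (-(ε/8)) + A₁ * T ^ (-(1/8):ℝ) + 32 * A₀ * (T ^ (3:ℝ) * Real.exp (-(T^ε/2))) +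
      2 * C * T ^ (-(c1/2)) + C * 2^D * T ^ (-(1/8):ℝ)) := by
    calc T ^ (1/4:ℝ) ≤ _ := hDge
      _ ≤ _ := hkey
      _ ≤ _ := add_le_add (add_le_add q1 q2) q3
      _ = _ := by ring
  have hfin2 : T ^ (1/4:ℝ) * (96 * A₁ * T ^ (-(ε/8)) + A₁ * T ^ (-(1/8):ℝ) + 32 * A₀ * (T ^ (3:ℝ) * Real.exp (-(T^ε/2))) +
      2 * C * T ^ (-(c1/2)) + C * 2^D * T ^ (-(1/8):ℝ)) < T ^ (1/4:ℝ) * 1 := mul_lt_mul_of_pos_left hTE hT4
  linarith

end Pool.Agent.H452R2.Om
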