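import Mathlib
import Pool.Agent.H452R2.Win.V5

open MeasureTheory Set Filter Topology
open Pool.Agent.H383
open Pool.Agent.H383.Gauss Pool.Agent.H383.AP
open Pool.Agent.H452R2.Win

namespace Pool.Agent.H452R2.Om

variable {E : ℝ → ℝ} {a : ℕ → ℝ} {φ : ℝ} {w : ℝ → ℂ}

/-- the low part with an explicit constant -/
lemma WS_low_q (ha : Gen.Bd a) (φ : ℝ) (hw : GW.Wt w) (κ : ℝ) : ∃ K : ℝ, 0 < K ∧ ∀ M : ℕ, 1 ≤ M → ∀ R δ : ℝ, 0 < δ →
    |∑ m ∈ Finset.Icc 1 (M^2), GW.wt a φ w (R + κ * δ) δ m - Gen.U a φ R M| ≤ (K * (M:ℝ)^2) * δ := by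
  have hpi := Real.pi_pos
  obtain ⟨Cl, hCl, hl⟩ := hw.lip
  obtain ⟨Cb, hCb, hb⟩ := ha
  refine ⟨Cb * (Cl + 2 * Real.pi * |κ|), by positivity, ?_⟩
  intro M hM R δ hδ
  unfold Gen.U
  rw [← Finset.sum_sub_distrib]
  refine (Finset.abs_sum_le_sum_abs _ _).trans ?_
  have hterm : ∀ m ∈ Finset.Icc 1 (M^2), |GW.wt a φ w (R + κ * δ) δ m - a m * Real.cos (2 * Real.pi * (R * √(m:ℝ)) - φ)| ≤
      Cb * (Cl + 2 * Real.pi * |κ|) * δ := by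
    intro m hm
    rw [Finset.mem_Icc] at hm
    have hm0 : (0:ℝ) < m := by exact_mod_cast hm.1
    have hm1 : (1:ℝ) ≤ m := by exact_mod_cast hm.1
    have hs : 0 < √(m:ℝ) := Real.sqrt_pos.mpr hm0
    have hs1 : 1 ≤ √(m:ℝ) := by rw [Real.one_le_sqrt]; exact hm1
    unfold GW.wt
    rw [← mul_sub, abs_mul]
    set θ' : ℝ := 2 * Real.pi * ((R + κ * δ) * √(m:ℝ)) - φ with hθ'
    set θ : ℝ := 2 * Real.pi * (R * √(m:ℝ)) - φ with hθ
    have h1 : (Complex.exp ((θ' : ℂ) * Complex.I) * w (√(m:ℝ) * δ)).re - Real.cos θ =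
        (Complex.exp ((θ' : ℂ) * Complex.I) * (w (√(m:ℝ) * δ) - 1)).re + (Real.cos θ' - Real.cos θ) := by
      rw [mul_sub, Complex.sub_re, mul_one, Complex.exp_ofReal_mul_I_re]; ring
    rw [h1]
    have h2 : |(Complex.exp ((θ' : ℂ) * Complex.I) * (w (√(m:ℝ) * δ) - 1)).re| ≤ Cl * (√(m:ℝ) * δ) := by
      refine (Complex.abs_re_le_norm _).trans ?_
      rw [norm_mul, Complex.norm_exp_ofReal_mul_I, one_mul]
      exact hl _ (by positivity)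
    have h5 : |Real.cos θ' - Real.cos θ| ≤ 2 * Real.pi * |κ| * (√(m:ℝ) * δ) := by
      refine (Real.abs_cos_sub_cos_le θ' θ).trans ?_
      have e : θ' - θ = (2 * Real.pi * √(m:ℝ) * δ) * κ := by rw [hθ', hθ]; ring
      rw [e, abs_mul, abs_of_pos (by positivity : 0 < 2 * Real.pi * √(m:ℝ) * δ)]
      apply le_of_eq; ring
    have h6 : |(Complex.exp ((θ' : ℂ) * Complex.I) * (w (√(m:ℝ) * δ) - 1)).re + (Real.cos θ' - Real.cos θ)| ≤
        (Cl + 2 * Real.pi * |κ|) * √(m:ℝ) * δ := by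
      calc _ ≤ _ + _ := abs_add_le _ _
        _ ≤ Cl * (√(m:ℝ) * δ) + 2 * Real.pi * |κ| * (√(m:ℝ) * δ) := add_le_add h2 h5
        _ = _ := by ring
    have h7 : |a m| * √(m:ℝ) ≤ Cb := by
      have h8 := hb m hm.1
      calc |a m| * √(m:ℝ) ≤ (Cb * (√(m:ℝ)) ^ (-(37/25):ℝ)) * √(m:ℝ) := mul_le_mul_of_nonneg_right h8 hs.le
        _ = Cb * (√(m:ℝ)) ^ (-(12/25):ℝ) := by
            rw [mul_assoc]; congr 1
            nth_rewrite 2 [← Real.rpow_one (√(m:ℝ))]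
            rw [← Real.rpow_add hs]; norm_num
        _ ≤ Cb * 1 := by
            apply mul_le_mul_of_nonneg_left _ hCb.le
            exact Real.rpow_le_one_of_one_le_of_nonpos hs1 (by norm_num)
        _ = Cb := mul_one _
    calc _ ≤ |a m| * ((Cl + 2 * Real.pi * |κ|) * √(m:ℝ) * δ) := mul_le_mul_of_nonneg_left h6 (abs_nonneg _)
      _ = (|a m| * √(m:ℝ)) * ((Cl + 2 * Real.pi * |κ|) * δ) := by ring
      _ ≤ Cb * ((Cl + 2 * Real.pi * |κ|) * δ) := mul_le_mul_of_nonneg_right h7 (by positivity)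
      _ = _ := by ring
  refine (Finset.sum_le_sum hterm).trans ?_
  rw [Finset.sum_const, Nat.card_Icc, nsmul_eq_mul]
  push_cast
  apply le_of_eq
  ring

lemma q5_sq (x y z t : ℝ) : (x + y + z + t)^2 ≤ 4 * (x^2 + y^2 + z^2 + t^2) := by
  have h : 4 * (x^2 + y^2 + z^2 + t^2) - (x + y + z + t)^2 =
    (x - y)^2 + (x - z)^2 + (x - t)^2 + (y - z)^2 + (y - t)^2 + (z - t)^2 := by ring
  have : 0 ≤ (x - y)^2 + (x - z)^2 + (x - t)^2 + (y - z)^2 + (y - t)^2 + (z - t)^2 := by positivity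
  linarith

lemma G_sq {G L M4 N1 Nω Ct Cv C0 K Nh Nf Nw : ℝ} (hL : 0 ≤ L) (q1 : (K * Nh)^2 = L^2 * (M4 * N1)) (q0 : Nf^2 ≤ Nω) (q00 : Nw^2 = Nω)
    (hG : G = K * Nh + 2 * Ct * Nf + Cv * Nw + C0 * Nf) :
    G^2 ≤ 4 * (L^2 * (M4 * N1) + (4 * Ct^2 + Cv^2 + C0^2) * Nω) := by
  rw [hG]
  refine (q5_sq _ _ _ _).trans ?_
  rw [q1]
  have e2 : (2 * Ct * Nf)^2 ≤ 4 * Ct^2 * Nω := by
    have : (2 * Ct * Nf)^2 = 4 * Ct^2 * Nf^2 := by ring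
    rw [this]
    exact mul_le_mul_of_nonneg_left q0 (by positivity)
  have e3 : (Cv * Nw)^2 = Cv^2 * Nω := by rw [mul_pow, q00]
  have e4 : (C0 * Nf)^2 ≤ C0^2 * Nω := by
    rw [mul_pow]; exact mul_le_mul_of_nonneg_left q0 (by positivity)
  linarith

lemma fin_cc {N T A W CC l1 c1 p q r G2 f g : ℝ} (hN : 0 ≤ N) (hT : 0 ≤ T) (hA : 0 ≤ A) (hW : 0 ≤ W) (hl1 : 0 ≤ l1) (hc1 : 0 ≤ c1)
    (hp : 0 ≤ p) (hq : 0 ≤ q) (hr : 0 ≤ r) (hf : f ≤ W) (hg : g ≤ W) (hG : G2 ≤ 4 * (l1 * A + p * W))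
    (hCC : CC = 24 * l1 + 24 * p + q + r + c1) :
    N * (6 * G2 + q * f + c1 * T + r * g) ≤ CC * N * (T + A + W) := by
  rw [mul_comm CC N, mul_assoc]
  apply mul_le_mul_of_nonneg_left _ hN
  have w1 : c1 * T ≤ CC * T := mul_le_mul_of_nonneg_right (by linarith) hT
  have w2 : 24 * l1 * A ≤ CC * A := mul_le_mul_of_nonneg_right (by linarith) hA
  have w3 : (24 * p + q + r) * W ≤ CC * W := mul_le_mul_of_nonneg_right (by linarith) hW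
  have w4 : q * f ≤ q * W := mul_le_mul_of_nonneg_left hf hq
  have w5 : r * g ≤ r * W := mul_le_mul_of_nonneg_left hg hr
  linarith

/-- approximation in mean square by the model polynomials along perturbed progressions, uniform over short windows -/
theorem ap_quant (ha : Bdw a) (ha0 : a 0 = 0) (hw : GW.Wt w) {κ₁ κ₂ : ℝ} (hS : SandW E a φ w κ₁ κ₂)
    {α : ℝ} (hα : 0 < α) {ε : ℝ} (hε : 0 < ε) : ∃ ω : ℝ, 0 < ω ∧ ω ≤ 1/200 ∧ ∃ C : ℝ, 0 < C ∧ ∃ N0 : ℕ,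
    ∀ M : ℕ, 1 ≤ M → ∀ N : ℕ, N0 ≤ N → 2 * ((M:ℝ)+1) ≤ min 1 α * N → ∀ X : ℝ, 4 ≤ X → X ^ (1/2 + ε) ≤ N →
    ∀ Rn : ℕ → ℝ, (∀ n : ℕ, n < N → |Rn n - (X + n * α)| ≤ (X + N) ^ (-(51/100):ℝ)) →
    ∑ n ∈ Finset.range N, (E (Rn n) - Gen.U a φ (X + n * α) M)^2 ≤ C * N * (Tw ω M + (M:ℝ)^4 * (N:ℝ) ^ (-1:ℝ) + (N:ℝ) ^ (-ω)) := by
  set ε1 := min ε (1/2) with hε1
  have hε10 : 0 < ε1 := by positivity
  set ω := ε1 / 100 with hωd
  have hω : 0 < ω := by positivity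
  have hε12 : ε1 ≤ 1/2 := min_le_right _ _
  have hω200 : ω ≤ 1/200 := by rw [hωd]; linarith
  have hω1 : ω ≤ 1/100 := by linarith
  have hε1ω : ε1 = 100 * ω := by rw [hωd]; ring
  obtain ⟨Ca, hCa, haC⟩ := ha (ω/2) (by positivity)
  obtain ⟨Cw, hCw, hwd⟩ := hw.dec
  obtain ⟨C1, hC1, N1, hD⟩ := mid_ms hω hω1 hα (show 0 < Ca * (Cw + 1) by positivity)
  obtain ⟨C2, hC2, hH⟩ := high_ms hω hω1 hα (show 0 < Ca * (Cw + 1) by positivity)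
  obtain ⟨C5, hC5, herr⟩ := err_avg hα hω hω200
  obtain ⟨Ct, hCt, htail⟩ := GW.WS_tail (a := a) (φ := φ) ha.Bd ha0 hw
  obtain ⟨C0, hC0, hS⟩ := hS (ω/2) (by positivity)
  obtain ⟨L₁, hL₁, hlow₁⟩ := WS_low_q ha.Bd φ hw κ₁
  obtain ⟨L₂, hL₂, hlow₂⟩ := WS_low_q ha.Bd φ hw κ₂
  set c := min 1 α with hc
  have hc0 : 0 < c := by positivity
  have hc1 : c ≤ 1 := min_le_left _ _
  have hcα : c ≤ α := min_le_right _ _
  set av : ℝ := 1 + α with hav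
  have hav1 : 1 ≤ av := by linarith
  set C6 : ℝ := 3 * (3 + 2/ω) * (16 * (c/2) ^ (-2 + 4 * ω)) with hC6
  have hC60 : 0 < C6 := by positivity
  set CC : ℝ := 24 * (L₁ + L₂)^2 + 96 * Ct^2 + 24 * (C0 * av)^2 + 24 * C0^2 + 6 * C0^2 * C5 + 12 * C2 * C6 + 12 * C1 with hCC
  refine ⟨ω, hω, hω200, CC, by positivity, ?_⟩
  obtain ⟨N3, hN3⟩ : ∃ N3 : ℕ, ∀ N : ℕ, N3 ≤ N → 2 * (N:ℝ) ^ (-(41 * ω)) ≤ 1 := by
    have h1 := tend_nat_rpow (y := 41 * ω) (by positivity) 2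
    have h2 := h1.eventually (gt_mem_nhds (by norm_num : (0:ℝ) < 1))
    rw [eventually_atTop] at h2
    obtain ⟨N3, hN3⟩ := h2
    exact ⟨N3, fun N hN => (hN3 N hN).le⟩
  refine ⟨max N1 (max 4 N3), ?_⟩
  intro M hM N hN hcN X hX hXN Rn hRn
  set K₁ : ℝ := L₁ * (M:ℝ)^2 with hK₁d
  set K₂ : ℝ := L₂ * (M:ℝ)^2 with hK₂d
  have hMpos : (0:ℝ) < M := by exact_mod_cast hM
  have hK₁ : 0 < K₁ := by positivity
  have hK₂ : 0 < K₂ := by positivity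
  have hNN1 : N1 ≤ N := by omega
  have hNN3 : N3 ≤ N := by omega
  have hN4 : 4 ≤ N := by omega
  have hN4' : (4:ℝ) ≤ N := by exact_mod_cast hN4
  have hN0 : (0:ℝ) < N := by linarith
  have hN1' : (1:ℝ) ≤ N := by linarith
  have hN1n : 1 ≤ N := by omega
  set G : ℝ := (K₁ + K₂) * (N:ℝ) ^ (-(1/2):ℝ) + 2 * Ct * (N:ℝ) ^ (-(1/5):ℝ) +
    C0 * av * (N:ℝ) ^ (-(ω/2)) + C0 * (N:ℝ) ^ (-(1/5):ℝ) with hG
  have hM' : (1:ℝ) ≤ M := by exact_mod_cast hM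
  have hX1 : 1 ≤ X := by linarith
  have hX0 : 0 < X := by linarith
  set Z : ℝ := X + N with hZ
  have hZN : (N:ℝ) ≤ Z := by linarith
  have hZ0 : 0 < Z := by linarith
  have hZ1 : 1 ≤ Z := by linarith
  set δ : ℝ := Z ^ (-(1/2 + ω)) with hδ
  have hδ0 : 0 < δ := by positivity
  have hδN : δ ≤ (N:ℝ) ^ (-(1/2):ℝ) := by
    calc δ ≤ (N:ℝ) ^ (-(1/2 + ω)) := Real.rpow_le_rpow_of_nonpos hN0 hZN (by linarith)
      _ ≤ (N:ℝ) ^ (-(1/2):ℝ) := Real.rpow_le_rpow_of_exponent_le hN1' (by linarith)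
  have hδ1 : δ ≤ 1/2 := by
    have h2 : (N:ℝ) ^ (-(1/2):ℝ) ≤ (4:ℝ) ^ (-(1/2):ℝ) := Real.rpow_le_rpow_of_nonpos (by norm_num) hN4' (by norm_num)
    have h3 : (4:ℝ) ^ (-(1/2):ℝ) = 1/2 := by
      rw [Real.rpow_neg (by norm_num), ← Real.sqrt_eq_rpow, show (4:ℝ) = 2^2 by norm_num, Real.sqrt_sq (by norm_num)]
      norm_num
    linarith
  -- size of Z
  have hZg : Z ≤ 2 * (N:ℝ) ^ (2 / (1 + 200 * ω)) := by
    have h1 : X ≤ (N:ℝ) ^ (2 / (1 + 200 * ω)) := by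
      have h2 : X ^ (1/2 + ε1) ≤ N := by
        refine le_trans ?_ hXN
        apply Real.rpow_le_rpow_of_exponent_le hX1
        have : ε1 ≤ ε := min_le_left _ _
        linarith
      have h3 : (X ^ (1/2 + ε1)) ^ (2 / (1 + 200 * ω)) ≤ (N:ℝ) ^ (2 / (1 + 200 * ω)) :=
        Real.rpow_le_rpow (by positivity) h2 (by positivity)
      rw [← Real.rpow_mul hX0.le] at h3
      have h4 : (1/2 + ε1) * (2 / (1 + 200 * ω)) = 1 := by
        rw [hε1ω]; field_simp; ring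
      rw [h4, Real.rpow_one] at h3
      exact h3
    have h5 : (N:ℝ) ≤ (N:ℝ) ^ (2 / (1 + 200 * ω)) := by
      calc (N:ℝ) = (N:ℝ) ^ (1:ℝ) := (Real.rpow_one _).symm
        _ ≤ _ := by
            apply Real.rpow_le_rpow_of_exponent_le hN1'
            rw [le_div_iff₀ (by positivity)]; linarith
    linarith
  -- the key inequality
  have hF : δ ^ (-1:ℝ) ≤ 2 * (N:ℝ) ^ (1 - 99 * ω) := by
    have e1 : δ ^ (-1:ℝ) = Z ^ (1/2 + ω) := by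
      rw [hδ, ← Real.rpow_mul hZ0.le]; congr 1; ring
    rw [e1]
    calc Z ^ (1/2 + ω) ≤ (2 * (N:ℝ) ^ (2 / (1 + 200 * ω))) ^ (1/2 + ω) :=
          Real.rpow_le_rpow hZ0.le hZg (by positivity)
      _ = 2 ^ (1/2 + ω) * (N:ℝ) ^ (2 / (1 + 200 * ω) * (1/2 + ω)) := by
          rw [Real.mul_rpow (by norm_num) (by positivity), ← Real.rpow_mul hN0.le]
      _ ≤ 2 * (N:ℝ) ^ (1 - 99 * ω) := by
          apply mul_le_mul _ _ (by positivity) (by norm_num)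
          · calc (2:ℝ) ^ (1/2 + ω) ≤ 2 ^ (1:ℝ) := Real.rpow_le_rpow_of_exponent_le (by norm_num) (by linarith)
              _ = 2 := Real.rpow_one 2
          · apply Real.rpow_le_rpow_of_exponent_le hN1'
            rw [div_mul_eq_mul_div, div_le_iff₀ (by positivity)]
            nlinarith
  have hδq : δ ^ (-(1/2 + 8 * ω)) ≤ (N:ℝ) ^ (1/2:ℝ) := by
    have e1 : δ ^ (-(1/2 + 8 * ω)) = (δ ^ (-1:ℝ)) ^ (1/2 + 8 * ω) := by
      rw [← Real.rpow_mul hδ0.le]; congr 1; ring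
    rw [e1]
    calc (δ ^ (-1:ℝ)) ^ (1/2 + 8 * ω) ≤ (2 * (N:ℝ) ^ (1 - 99 * ω)) ^ (1/2 + 8 * ω) :=
          Real.rpow_le_rpow (by positivity) hF (by positivity)
      _ = 2 ^ (1/2 + 8 * ω) * (N:ℝ) ^ ((1 - 99 * ω) * (1/2 + 8 * ω)) := by
          rw [Real.mul_rpow (by norm_num) (by positivity), ← Real.rpow_mul hN0.le]
      _ ≤ 2 * (N:ℝ) ^ (-(41 * ω) + 1/2) := by
          apply mul_le_mul _ _ (by positivity) (by norm_num)
          · calc (2:ℝ) ^ (1/2 + 8 * ω) ≤ 2 ^ (1:ℝ) := Real.rpow_le_rpow_of_exponent_le (by norm_num) (by linarith)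
              _ = 2 := Real.rpow_one 2
          · apply Real.rpow_le_rpow_of_exponent_le hN1'
            nlinarith [sq_nonneg ω]
      _ = (2 * (N:ℝ) ^ (-(41 * ω))) * (N:ℝ) ^ (1/2:ℝ) := by
          rw [Real.rpow_add hN0]; ring
      _ ≤ 1 * (N:ℝ) ^ (1/2:ℝ) := mul_le_mul_of_nonneg_right (hN3 N hNN3) (by positivity)
      _ = _ := one_mul _
  -- cutoffs
  set Y1 : ℕ := ⌊c * N / 2⌋₊ with hY1
  have hY1up : (Y1:ℝ) ≤ c * N / 2 := Nat.floor_le (by positivity)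
  have hY1low : c * N / 4 ≤ Y1 := by
    have := Nat.lt_floor_add_one (c * N / 2)
    rw [← hY1] at this
    linarith
  have hY1low' : c/2 * N ≤ 2 * Y1 := by linarith
  have hY12 : 2 * (Y1:ℝ) ≤ α * N := by nlinarith
  have hMY : M ≤ Y1 := by
    have h1 := Nat.lt_floor_add_one (c * N / 2)
    rw [← hY1] at h1
    have : (M:ℝ) < Y1 + 1 := by linarith
    have h2 : M < Y1 + 1 := by exact_mod_cast this
    omega
  have hY1one : 1 ≤ Y1 := by omega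
  set Y : ℕ := ⌈Z⌉₊ with hY
  have hYZ : Z ≤ Y := Nat.le_ceil Z
  have hY1Y : Y1 ≤ Y := by
    have h1 : c * N / 2 ≤ N := by nlinarith
    have : (Y1:ℝ) ≤ Y := by linarith
    exact_mod_cast this
  have hYone : 1 ≤ Y := by omega
  have hYup : (Y:ℝ) ≤ 2 * Z := by
    have := Nat.ceil_lt_add_one hZ0.le
    linarith
  have hτ : Ct * δ ^ (-(3/2):ℝ) * (Y:ℝ) ^ (-(24/25):ℝ) ≤ Ct * (N:ℝ) ^ (-(1/5):ℝ) := by
    have e1 : δ ^ (-(3/2):ℝ) = Z ^ (3/4 + 3/2 * ω) := by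
      rw [hδ, ← Real.rpow_mul hZ0.le]; congr 1; ring
    have e2 : (Y:ℝ) ^ (-(24/25):ℝ) ≤ Z ^ (-(24/25):ℝ) :=
      Real.rpow_le_rpow_of_nonpos hZ0 hYZ (by norm_num)
    calc Ct * δ ^ (-(3/2):ℝ) * (Y:ℝ) ^ (-(24/25):ℝ) ≤ Ct * Z ^ (3/4 + 3/2 * ω) * Z ^ (-(24/25):ℝ) := by
          rw [e1]; exact mul_le_mul_of_nonneg_left e2 (by positivity)
      _ = Ct * (Z ^ (3/4 + 3/2 * ω) * Z ^ (-(24/25):ℝ)) := by ring
      _ = Ct * Z ^ (3/4 + 3/2 * ω + -(24/25)) := by rw [← Real.rpow_add hZ0]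
      _ ≤ Ct * Z ^ (-(1/5):ℝ) := by
          apply mul_le_mul_of_nonneg_left _ hCt.le
          exact Real.rpow_le_rpow_of_exponent_le hZ1 (by linarith)
      _ ≤ _ := by
          apply mul_le_mul_of_nonneg_left _ hCt.le
          exact Real.rpow_le_rpow_of_nonpos hN0 hZN (by norm_num)
  have hδ25 : δ ^ (2/5:ℝ) ≤ (N:ℝ) ^ (-(1/5):ℝ) := by
    calc δ ^ (2/5:ℝ) ≤ ((N:ℝ) ^ (-(1/2):ℝ)) ^ (2/5:ℝ) := Real.rpow_le_rpow hδ0.le hδN (by norm_num)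
      _ = _ := by rw [← Real.rpow_mul hN0.le]; norm_num
  -- coefficients
  have hbb : ∀ X' : ℝ, ∀ m : ℕ, 1 ≤ m → ‖Gen.ac a φ X' m * w (√(m:ℝ) * δ)‖ ≤ Ca * (Cw + 1) * Win.hw ω δ (√(m:ℝ)) := by
    intro X' m hm
    have hm0 : (0:ℝ) < m := by exact_mod_cast hm
    have hs : 0 < √(m:ℝ) := Real.sqrt_pos.mpr hm0
    rw [norm_mul, Gen.norm_ac]
    unfold Win.hw
    have h2 := haC m hm
    have h5 : ‖w (√(m:ℝ) * δ)‖ ≤ (Cw + 1) * min 1 ((δ * √(m:ℝ)) ^ (-(3/2):ℝ)) := by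
      have h3 := hw.one (√(m:ℝ) * δ) (by positivity)
      have h4 := hwd (√(m:ℝ) * δ) (by positivity)
      set y := √(m:ℝ) * δ with hy
      have hy0 : 0 < y := by positivity
      rw [show δ * √(m:ℝ) = y by rw [hy]; ring]
      rcases min_choice (1:ℝ) (y ^ (-(3/2):ℝ)) with hc | hc
      · rw [hc]; linarith
      · rw [hc]
        have : 0 ≤ y ^ (-(3/2):ℝ) := by positivity
        linarith
    have h6 : (m:ℝ) ^ (-(3/4) + ω/2) = (√(m:ℝ)) ^ (-(3/2) + ω) := by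
      rw [Real.sqrt_eq_rpow, ← Real.rpow_mul hm0.le]; congr 1; ring
    rw [h6] at h2
    calc |a m| * ‖w (√(m:ℝ) * δ)‖ ≤ (Ca * (√(m:ℝ)) ^ (-(3/2) + ω)) * ((Cw + 1) * min 1 ((δ * √(m:ℝ)) ^ (-(3/2):ℝ))) :=
          mul_le_mul h2 h5 (norm_nonneg _) (by positivity)
      _ = _ := by ring
  have hconv : ∀ (X' : ℝ) (s : Finset ℕ) (n : ℕ), (∑ m ∈ s, GW.wt a φ w (X' + n * α) δ m)^2 ≤
      ‖∑ m ∈ s, (Gen.ac a φ X' m * w (√(m:ℝ) * δ)) *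
        Complex.exp (((2 * Real.pi * (n * (α * √(m:ℝ))) : ℝ) : ℂ) * Complex.I)‖^2 := by
    intro X' s n
    have h2 : ∑ m ∈ s, GW.wt a φ w (X' + n * α) δ m = (∑ m ∈ s, (Gen.ac a φ X' m * w (√(m:ℝ) * δ)) *
      Complex.exp (((2 * Real.pi * (n * (α * √(m:ℝ))) : ℝ) : ℂ) * Complex.I)).re := by
      rw [Complex.re_sum]
      apply Finset.sum_congr rfl
      intro m _
      unfold GW.wt
      rw [← Complex.re_ofReal_mul]
      congr 1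
      have h3 := Gen.ac_shift a φ X' α m n
      unfold chr at h3
      have h4 : Gen.ac a φ X' m * w (√(m:ℝ) * δ) * Complex.exp (((2 * Real.pi * (n * (α * √(m:ℝ))) : ℝ) : ℂ) * Complex.I) =
          Gen.ac a φ (X' + n * α) m * w (√(m:ℝ) * δ) := by rw [h3]; ring
      rw [h4]
      unfold Gen.ac
      ring
    rw [h2, ← sq_abs]
    exact pow_le_pow_left₀ (abs_nonneg _) (Complex.abs_re_le_norm _) 2
  -- the middle range
  set mid : ℝ → ℕ → ℝ := fun X' n => ∑ m ∈ Finset.Ioc (M^2) (Y1^2), GW.wt a φ w (X' + n * α) δ m with hmid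
  have hmidb : ∀ X' : ℝ, ∑ n ∈ Finset.range N, (mid X' n)^2 ≤ C1 * N * Tw ω M := by
    intro X'
    have h1 := hD N δ (fun m => Gen.ac a φ X' m * w (√(m:ℝ) * δ)) M Y1 hNN1 hδ0 (by linarith) hδq hM hY12 (hbb X')
    refine le_trans ?_ h1
    apply Finset.sum_le_sum
    intro n _
    exact hconv X' _ n
  -- the high range
  set hi : ℝ → ℕ → ℝ := fun X' n => ∑ m ∈ Finset.Ioc (Y1^2) (Y^2), GW.wt a φ w (X' + n * α) δ m with hhi
  have hhib : ∀ X' : ℝ, ∑ n ∈ Finset.range N, (hi X' n)^2 ≤ C2 * N * (C6 * (N:ℝ) ^ (-(193 * ω))) := by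
    intro X'
    have h1 := hH N δ (fun m => Gen.ac a φ X' m * w (√(m:ℝ) * δ)) Y1 Y hN1n hδ0 hY1one hYone (hbb X')
    have h2 : ∑ n ∈ Finset.range N, (hi X' n)^2 ≤ C2 * N * ((1 + 1/(N*δ)) * (1 + Real.log Y) * (δ ^ (-2:ℝ) * (Y1:ℝ) ^ (-2 + 4 * ω))) := by
      refine le_trans ?_ h1
      apply Finset.sum_le_sum
      intro n _
      exact hconv X' _ n
    refine h2.trans ?_
    apply mul_le_mul_of_nonneg_left _ (by positivity)
    have g1 : 1 + 1/(N*δ) ≤ 3 := by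
      have e1 : 1/(N*δ) = (N:ℝ) ^ (-1:ℝ) * δ ^ (-1:ℝ) := by
        rw [Real.rpow_neg_one, Real.rpow_neg_one]; field_simp
      have e2 : (N:ℝ) ^ (-1:ℝ) * δ ^ (-1:ℝ) ≤ 2 := by
        calc (N:ℝ) ^ (-1:ℝ) * δ ^ (-1:ℝ) ≤ (N:ℝ) ^ (-1:ℝ) * (2 * (N:ℝ) ^ (1 - 99 * ω)) := by gcongr
          _ = 2 * ((N:ℝ) ^ (-1:ℝ) * (N:ℝ) ^ (1 - 99 * ω)) := by ring
          _ = 2 * (N:ℝ) ^ (-1 + (1 - 99 * ω)) := by rw [← Real.rpow_add hN0]
          _ ≤ 2 * 1 := by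
              apply mul_le_mul_of_nonneg_left _ (by norm_num)
              exact Real.rpow_le_one_of_one_le_of_nonpos hN1' (by linarith)
          _ = 2 := by norm_num
      rw [e1]; linarith
    have g2 : 1 + Real.log Y ≤ (3 + 2/ω) * (N:ℝ) ^ ω := by
      have hYN : (Y:ℝ) ≤ 4 * (N:ℝ)^2 := by
        have : (N:ℝ) ^ (2 / (1 + 200 * ω)) ≤ (N:ℝ)^2 := by
          rw [← Real.rpow_two]
          apply Real.rpow_le_rpow_of_exponent_le hN1'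
          rw [div_le_iff₀ (by positivity)]; nlinarith
        linarith
      have hYpos : (0:ℝ) < Y := by exact_mod_cast hYone
      have h3 : Real.log Y ≤ Real.log (4 * (N:ℝ)^2) := Real.log_le_log hYpos hYN
      have h4 : Real.log (4 * (N:ℝ)^2) = Real.log 4 + 2 * Real.log N := by
        rw [Real.log_mul (by norm_num) (by positivity), Real.log_pow]; push_cast; ring
      have h5 : Real.log 4 ≤ 2 := by
        have : Real.log 4 = 2 * Real.log 2 := by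
          rw [show (4:ℝ) = 2^2 by norm_num, Real.log_pow]; push_cast; ring
        have := Real.log_two_lt_d9
        linarith
      have h6 := Real.log_le_rpow_div hN0.le hω
      have h7 : 1 ≤ (N:ℝ) ^ ω := Real.one_le_rpow hN1' hω.le
      have h8 : 2 * ((N:ℝ) ^ ω / ω) = 2/ω * (N:ℝ) ^ ω := by ring
      calc 1 + Real.log Y ≤ 3 + 2 * ((N:ℝ) ^ ω / ω) := by linarith
        _ = 3 + 2/ω * (N:ℝ) ^ ω := by rw [h8]
        _ ≤ _ := by linarith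
    have g3 : δ ^ (-2:ℝ) * (Y1:ℝ) ^ (-2 + 4 * ω) ≤ 4 * (c/2) ^ (-2 + 4 * ω) * (4 * (N:ℝ) ^ (-(194 * ω))) := by
      have e1 : δ ^ (-2:ℝ) ≤ 4 * (N:ℝ) ^ (2 - 198 * ω) := by
        have e3 : δ ^ (-2:ℝ) = (δ ^ (-1:ℝ))^2 := by
          rw [← Real.rpow_natCast, ← Real.rpow_mul hδ0.le]; norm_num
        rw [e3]
        calc (δ ^ (-1:ℝ))^2 ≤ (2 * (N:ℝ) ^ (1 - 99 * ω))^2 := pow_le_pow_left₀ (by positivity) hF 2
          _ = 4 * ((N:ℝ) ^ (1 - 99 * ω))^2 := by ring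
          _ = _ := by
              rw [← Real.rpow_natCast, ← Real.rpow_mul hN0.le]; congr 2; push_cast; ring
      have e2 : (Y1:ℝ) ^ (-2 + 4 * ω) ≤ 4 * ((c/2) ^ (-2 + 4 * ω) * (N:ℝ) ^ (-2 + 4 * ω)) := by
        have h3 : c/2 * N / 2 ≤ Y1 := by linarith
        calc (Y1:ℝ) ^ (-2 + 4 * ω) ≤ (c/2 * N / 2) ^ (-2 + 4 * ω) :=
              Real.rpow_le_rpow_of_nonpos (by positivity) h3 (by linarith)
          _ = (1/2:ℝ) ^ (-2 + 4 * ω) * ((c/2) ^ (-2 + 4 * ω) * (N:ℝ) ^ (-2 + 4 * ω)) := by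
              rw [← Real.mul_rpow (by positivity) hN0.le, ← Real.mul_rpow (by norm_num) (by positivity)]
              congr 1; ring
          _ ≤ 4 * ((c/2) ^ (-2 + 4 * ω) * (N:ℝ) ^ (-2 + 4 * ω)) := by
              apply mul_le_mul_of_nonneg_right _ (by positivity)
              calc (1/2:ℝ) ^ (-2 + 4 * ω) ≤ (1/2:ℝ) ^ (-2:ℝ) :=
                    Real.rpow_le_rpow_of_exponent_ge (by norm_num) (by norm_num) (by linarith)
                _ = 4 := by rw [Real.rpow_neg (by norm_num)]; norm_num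
      calc δ ^ (-2:ℝ) * (Y1:ℝ) ^ (-2 + 4 * ω) ≤ (4 * (N:ℝ) ^ (2 - 198 * ω)) * (4 * ((c/2) ^ (-2 + 4 * ω) * (N:ℝ) ^ (-2 + 4 * ω))) := by
            gcongr
        _ = 4 * (c/2) ^ (-2 + 4 * ω) * (4 * ((N:ℝ) ^ (2 - 198 * ω) * (N:ℝ) ^ (-2 + 4 * ω))) := by ring
        _ = _ := by
            rw [← Real.rpow_add hN0]
            congr 3; ring
    have hlog0 : 0 ≤ 1 + Real.log Y := by
      have : (1:ℝ) ≤ Y := by exact_mod_cast hYone
      have := Real.log_nonneg this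
      linarith
    calc (1 + 1/(N*δ)) * (1 + Real.log Y) * (δ ^ (-2:ℝ) * (Y1:ℝ) ^ (-2 + 4 * ω))
        ≤ 3 * ((3 + 2/ω) * (N:ℝ) ^ ω) * (4 * (c/2) ^ (-2 + 4 * ω) * (4 * (N:ℝ) ^ (-(194 * ω)))) := by
          gcongr
      _ = C6 * ((N:ℝ) ^ ω * (N:ℝ) ^ (-(194 * ω))) := by rw [hC6]; ring
      _ = C6 * (N:ℝ) ^ (-(193 * ω)) := by rw [← Real.rpow_add hN0]; congr 2; ring
  -- pointwise bound
  have hpt : ∀ n ∈ Finset.range N, (E (Rn n) - Gen.U a φ (X + n * α) M)^2 ≤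
      6 * (G^2 + C0^2 * ((X + n * α) ^ (-(24/25):ℝ) * (X + N) ^ (13/25 + 2 * ω)) +
        (mid (X + κ₁ * δ) n)^2 + (mid (X + κ₂ * δ) n)^2 + (hi (X + κ₁ * δ) n)^2 + (hi (X + κ₂ * δ) n)^2) := by
    intro n hn
    rw [Finset.mem_range] at hn
    have hn' : (n:ℝ) ≤ N := by exact_mod_cast hn.le
    have hpert := hRn n hn
    set R : ℝ := X + n * α with hR
    have hn0 : (0:ℝ) ≤ n := Nat.cast_nonneg n
    have hR2 : 4 ≤ R := by rw [hR]; nlinarith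
    have hR0 : 0 < R := by linarith
    have hpert2 : |Rn n - R| ≤ δ := by
      refine hpert.trans ?_
      rw [hδ]
      exact Real.rpow_le_rpow_of_exponent_le hZ1 (by linarith)
    obtain ⟨h1, h2⟩ := hS R (Rn n) δ hR2 hδ0 hδ1 hpert2
    -- decomposition of WS
    have hdec : ∀ (κ K : ℝ), |∑ m ∈ Finset.Icc 1 (M^2), GW.wt a φ w (R + κ * δ) δ m - Gen.U a φ R M| ≤ K * δ →
        |GW.WS a φ w (R + κ * δ) δ - Gen.U a φ R M| ≤
        K * δ + |mid (X + κ * δ) n| + |hi (X + κ * δ) n| + Ct * δ ^ (-(3/2):ℝ) * (Y:ℝ) ^ (-(24/25):ℝ) := by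
      intro κ K hK
      have t1 := htail δ hδ0 (R + κ * δ) Y hYone
      have e3 : X + κ * δ + n * α = R + κ * δ := by rw [hR]; ring
      have hsplit : ∑ m ∈ Finset.Icc 1 (Y^2), GW.wt a φ w (R + κ * δ) δ m =
          ∑ m ∈ Finset.Icc 1 (M^2), GW.wt a φ w (R + κ * δ) δ m + mid (X + κ * δ) n + hi (X + κ * δ) n := by
        simp only [hmid, hhi]
        rw [e3]
        have i1 : M^2 ≤ Y1^2 := Nat.pow_le_pow_left hMY 2
        have i2 : Y1^2 ≤ Y^2 := Nat.pow_le_pow_left hY1Y 2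
        have e1 : Finset.Icc 1 (Y^2) = Finset.Ioc 0 (Y^2) := by
          ext m; simp only [Finset.mem_Icc, Finset.mem_Ioc]; omega
        have e2 : Finset.Icc 1 (M^2) = Finset.Ioc 0 (M^2) := by
          ext m; simp only [Finset.mem_Icc, Finset.mem_Ioc]; omega
        rw [e1, e2, Finset.sum_Ioc_consecutive _ (Nat.zero_le _) i1,
          Finset.sum_Ioc_consecutive _ (Nat.zero_le _) i2]
      rw [hsplit] at t1
      set L := ∑ m ∈ Finset.Icc 1 (M^2), GW.wt a φ w (R + κ * δ) δ m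
      have e : GW.WS a φ w (R + κ * δ) δ - Gen.U a φ R M =
          (GW.WS a φ w (R + κ * δ) δ - (L + mid (X + κ * δ) n + hi (X + κ * δ) n)) + (L - Gen.U a φ R M) +
            mid (X + κ * δ) n + hi (X + κ * δ) n := by ring
      rw [e]
      calc _ ≤ |(GW.WS a φ w (R + κ * δ) δ - (L + mid (X + κ * δ) n + hi (X + κ * δ) n)) + (L - Gen.U a φ R M) +
            mid (X + κ * δ) n| + |hi (X + κ * δ) n| := abs_add_le _ _
        _ ≤ |(GW.WS a φ w (R + κ * δ) δ - (L + mid (X + κ * δ) n + hi (X + κ * δ) n)) + (L - Gen.U a φ R M)| +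
            |mid (X + κ * δ) n| + |hi (X + κ * δ) n| := by
            gcongr; exact abs_add_le _ _
        _ ≤ |GW.WS a φ w (R + κ * δ) δ - (L + mid (X + κ * δ) n + hi (X + κ * δ) n)| + |L - Gen.U a φ R M| +
            |mid (X + κ * δ) n| + |hi (X + κ * δ) n| := by
            gcongr; exact abs_add_le _ _
        _ ≤ _ := by linarith
    have d1 := hdec κ₁ K₁ (hlow₁ M hM R δ hδ0)
    have d2 := hdec κ₂ K₂ (hlow₂ M hM R δ hδ0)
    have d1' := abs_le.mp d1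
    have d2' := abs_le.mp d2
    have hm1 := abs_nonneg (mid (X + κ₁ * δ) n)
    have hm2 := abs_nonneg (mid (X + κ₂ * δ) n)
    have hm3 := abs_nonneg (hi (X + κ₁ * δ) n)
    have hm4 := abs_nonneg (hi (X + κ₂ * δ) n)
    have hKδ : 0 < K₁ * δ := by positivity
    have hKδ2 : 0 < K₂ * δ := by positivity
    have hτ0 : 0 ≤ Ct * δ ^ (-(3/2):ℝ) * (Y:ℝ) ^ (-(24/25):ℝ) := by positivity
    -- the error
    have hRZ : R ≤ av * Z := by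
      rw [hR, hav, hZ]
      have : (n:ℝ) * α ≤ N * α := mul_le_mul_of_nonneg_right hn' hα.le
      nlinarith
    have her1 : C0 * (δ * R ^ (1/2 + ω/2)) ≤ C0 * av * (N:ℝ) ^ (-(ω/2)) := by
      have g2 : R ^ (1/2 + ω/2) ≤ av * Z ^ (1/2 + ω/2) := by
        calc R ^ (1/2 + ω/2) ≤ (av * Z) ^ (1/2 + ω/2) := Real.rpow_le_rpow hR0.le hRZ (by positivity)
          _ = av ^ (1/2 + ω/2) * Z ^ (1/2 + ω/2) := Real.mul_rpow (by linarith) hZ0.le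
          _ ≤ av * Z ^ (1/2 + ω/2) := by
              apply mul_le_mul_of_nonneg_right _ (by positivity)
              calc av ^ (1/2 + ω/2) ≤ av ^ (1:ℝ) := Real.rpow_le_rpow_of_exponent_le hav1 (by linarith)
                _ = av := Real.rpow_one _
      calc C0 * (δ * R ^ (1/2 + ω/2)) ≤ C0 * (δ * (av * Z ^ (1/2 + ω/2))) := by gcongr
        _ = C0 * av * (Z ^ (-(1/2 + ω)) * Z ^ (1/2 + ω/2)) := by rw [hδ]; ring
        _ = C0 * av * Z ^ (-(ω/2)) := by rw [← Real.rpow_add hZ0]; congr 2; ring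
        _ ≤ _ := by
            apply mul_le_mul_of_nonneg_left _ (by positivity)
            exact Real.rpow_le_rpow_of_nonpos hN0 hZN (by linarith)
    set er2 : ℝ := C0 * (R ^ (-(12/25):ℝ) * δ ^ (-(13/25):ℝ)) with her2
    have her20 : 0 ≤ er2 := by positivity
    have her2sq : er2^2 ≤ C0^2 * (R ^ (-(24/25):ℝ) * (X + N) ^ (13/25 + 2 * ω)) := by
      rw [her2, mul_pow, mul_pow]
      have i1 : (R ^ (-(12/25):ℝ))^2 = R ^ (-(24/25):ℝ) := by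
        rw [← Real.rpow_natCast, ← Real.rpow_mul hR0.le]; norm_num
      have i2 : (δ ^ (-(13/25):ℝ))^2 ≤ Z ^ (13/25 + 2 * ω) := by
        rw [hδ, ← Real.rpow_natCast, ← Real.rpow_mul (by positivity), ← Real.rpow_mul hZ0.le]
        apply Real.rpow_le_rpow_of_exponent_le hZ1
        push_cast; nlinarith
      rw [i1]
      gcongr
    have her3 : C0 * δ ^ (2/5:ℝ) ≤ C0 * (N:ℝ) ^ (-(1/5):ℝ) := mul_le_mul_of_nonneg_left hδ25 hC0.le
    have hG0 : (K₁ + K₂) * δ + 2 * (Ct * δ ^ (-(3/2):ℝ) * (Y:ℝ) ^ (-(24/25):ℝ)) + C0 * (δ * R ^ (1/2 + ω/2)) +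
        C0 * δ ^ (2/5:ℝ) ≤ G := by
      rw [hG]
      have : (K₁ + K₂) * δ ≤ (K₁ + K₂) * (N:ℝ) ^ (-(1/2):ℝ) := mul_le_mul_of_nonneg_left hδN (by positivity)
      linarith
    have hera : C0 * erw (ω/2) R δ = C0 * (δ * R ^ (1/2 + ω/2)) + er2 + C0 * δ ^ (2/5:ℝ) := by rw [erw, her2]; ring
    rw [hera] at h1 h2
    have hp1 : 0 ≤ C0 * (δ * R ^ (1/2 + ω/2)) := by positivity
    have hp2 : 0 ≤ C0 * δ ^ (2/5:ℝ) := by positivity
    have htot : |E (Rn n) - Gen.U a φ R M| ≤ G + er2 + |mid (X + κ₁ * δ) n| + |mid (X + κ₂ * δ) n| +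
        |hi (X + κ₁ * δ) n| + |hi (X + κ₂ * δ) n| := by
      rw [abs_le]
      constructor
      · linarith
      · linarith
    calc (E (Rn n) - Gen.U a φ R M)^2 = |E (Rn n) - Gen.U a φ R M|^2 := (sq_abs _).symm
      _ ≤ (G + er2 + |mid (X + κ₁ * δ) n| + |mid (X + κ₂ * δ) n| +
        |hi (X + κ₁ * δ) n| + |hi (X + κ₂ * δ) n|)^2 := pow_le_pow_left₀ (abs_nonneg _) htot 2
      _ ≤ 6 * (G^2 + er2^2 + |mid (X + κ₁ * δ) n|^2 + |mid (X + κ₂ * δ) n|^2 +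
        |hi (X + κ₁ * δ) n|^2 + |hi (X + κ₂ * δ) n|^2) := seven_sq _ _ _ _ _ _
      _ ≤ _ := by rw [sq_abs, sq_abs, sq_abs, sq_abs]; linarith
  -- summing
  have hs1 := hmidb (X + κ₁ * δ)
  have hs2 := hmidb (X + κ₂ * δ)
  have hs3 := hhib (X + κ₁ * δ)
  have hs4 := hhib (X + κ₂ * δ)
  have hs5 := herr X hX1 N hN1n
  have hG2 : G^2 ≤ 4 * ((L₁ + L₂)^2 * ((M:ℝ)^4 * (N:ℝ) ^ (-1:ℝ)) + (4 * Ct^2 + (C0 * av)^2 + C0^2) * (N:ℝ) ^ (-ω)) := by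
    have q1 : ((K₁ + K₂) * (N:ℝ) ^ (-(1/2):ℝ))^2 = (L₁ + L₂)^2 * ((M:ℝ)^4 * (N:ℝ) ^ (-1:ℝ)) := by
      rw [mul_pow, hK₁d, hK₂d]
      have : ((N:ℝ) ^ (-(1/2):ℝ))^2 = (N:ℝ) ^ (-1:ℝ) := by
        rw [← Real.rpow_natCast, ← Real.rpow_mul hN0.le]; norm_num
      rw [this]; ring
    have q0 : ((N:ℝ) ^ (-(1/5):ℝ))^2 ≤ (N:ℝ) ^ (-ω) := by
      rw [← Real.rpow_natCast, ← Real.rpow_mul hN0.le]
      apply Real.rpow_le_rpow_of_exponent_le hN1'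
      push_cast; linarith
    have q00 : ((N:ℝ) ^ (-(ω/2)))^2 = (N:ℝ) ^ (-ω) := by
      rw [← Real.rpow_natCast, ← Real.rpow_mul hN0.le]; congr 1; push_cast; ring
    exact G_sq (by positivity) q1 q0 q00 hG
  have q6 : (N:ℝ) ^ (-(1/5):ℝ) ≤ (N:ℝ) ^ (-ω) := Real.rpow_le_rpow_of_exponent_le hN1' (by linarith)
  have q7 : (N:ℝ) ^ (-(193 * ω)) ≤ (N:ℝ) ^ (-ω) := Real.rpow_le_rpow_of_exponent_le hN1' (by linarith)
  have hTw0 := Tw_nonneg ω M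
  have hNω : 0 ≤ (N:ℝ) ^ (-ω) := by positivity
  have hMN : 0 ≤ (M:ℝ)^4 * (N:ℝ) ^ (-1:ℝ) := by positivity
  have fin1 : ∑ n ∈ Finset.range N, (E (Rn n) - Gen.U a φ (X + n * α) M)^2 ≤
      N * (6 * G^2 + (6 * C0^2 * C5) * (N:ℝ) ^ (-(1/5):ℝ) + (12 * C1) * Tw ω M + (12 * C2 * C6) * (N:ℝ) ^ (-(193 * ω))) := by
    calc _ ≤ ∑ n ∈ Finset.range N, 6 * (G^2 + C0^2 * ((X + n * α) ^ (-(24/25):ℝ) * (X + N) ^ (13/25 + 2 * ω)) +
        (mid (X + κ₁ * δ) n)^2 + (mid (X + κ₂ * δ) n)^2 + (hi (X + κ₁ * δ) n)^2 + (hi (X + κ₂ * δ) n)^2) := Finset.sum_le_sum hpt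
      _ = 6 * (N * G^2 + C0^2 * ∑ n ∈ Finset.range N, (X + n * α) ^ (-(24/25):ℝ) * (X + N) ^ (13/25 + 2 * ω) +
        ∑ n ∈ Finset.range N, (mid (X + κ₁ * δ) n)^2 + ∑ n ∈ Finset.range N, (mid (X + κ₂ * δ) n)^2 +
        ∑ n ∈ Finset.range N, (hi (X + κ₁ * δ) n)^2 + ∑ n ∈ Finset.range N, (hi (X + κ₂ * δ) n)^2) := by
          rw [← Finset.mul_sum]
          congr 1
          simp only [Finset.sum_add_distrib]
          rw [Finset.sum_const, Finset.card_range, nsmul_eq_mul, ← Finset.mul_sum]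
      _ ≤ 6 * (N * G^2 + C0^2 * (C5 * (N * (N:ℝ) ^ (-(1/5):ℝ))) +
          C1 * N * Tw ω M + C1 * N * Tw ω M + C2 * N * (C6 * (N:ℝ) ^ (-(193 * ω))) + C2 * N * (C6 * (N:ℝ) ^ (-(193 * ω)))) := by
          have : C0^2 * ∑ n ∈ Finset.range N, (X + n * α) ^ (-(24/25):ℝ) * (X + N) ^ (13/25 + 2 * ω) ≤
              C0^2 * (C5 * (N * (N:ℝ) ^ (-(1/5):ℝ))) := mul_le_mul_of_nonneg_left hs5 (by positivity)
          linarith
      _ = _ := by ring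
  have hl1 : 0 ≤ (L₁ + L₂)^2 := by positivity
  have hc1 : 0 ≤ 12 * C1 := by positivity
  have hp : 0 ≤ 4 * Ct^2 + (C0 * av)^2 + C0^2 := by positivity
  have hq : 0 ≤ 6 * C0^2 * C5 := by positivity
  have hr : 0 ≤ 12 * C2 * C6 := by positivity
  refine fin1.trans ?_
  exact fin_cc hN0.le hTw0 hMN hNω hl1 hc1 hp hq hr q6 q7 hG2 (by rw [hCC]; ring)

end Pool.Agent.H452R2.Om
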