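import Mathlib
import Pool.Agent.H452R2.Om.O4

open MeasureTheory Set Filter Topology
open Pool.Agent.H383
open Pool.Agent.H383.Gauss Pool.Agent.H383.AP
open Pool.Agent.H452R2.Win

namespace Pool.Agent.H452R2.Om

variable {E : ℝ → ℝ} {a : ℕ → ℝ} {φ : ℝ} {w : ℝ → ℂ}

lemma tel_step {ω : ℝ} (hω : 0 < ω) {q : ℝ} (hq : 1 ≤ q) : (q + 1) ^ (-(1 + ω)) ≤ (1/ω) * (q ^ (-ω) - (q + 1) ^ (-ω)) := by
  have hq0 : 0 < q := by linarith
  have hq1 : 0 < q + 1 := by linarith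
  have h1 : q ^ (-ω) ≥ (q + 1) ^ (-ω) * (1 + ω / (q + 1)) := by
    have e1 : q = (q + 1) * (1 - 1/(q+1)) := by field_simp; ring
    have hb : 0 < 1 - 1/(q+1) := by
      have : 1/(q+1) < 1 := by rw [div_lt_one hq1]; linarith
      linarith
    have e2 : q ^ (-ω) = (q + 1) ^ (-ω) * (1 - 1/(q+1)) ^ (-ω) := by
      nth_rewrite 1 [e1]
      rw [Real.mul_rpow hq1.le hb.le]
    rw [e2]
    apply mul_le_mul_of_nonneg_left _ (by positivity)
    have h2 : (1 - 1/(q+1)) ≤ Real.exp (-(1/(q+1))) := by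
      have := Real.add_one_le_exp (-(1/(q+1)))
      linarith
    calc 1 + ω / (q + 1) ≤ Real.exp (ω / (q+1)) := by
          have := Real.add_one_le_exp (ω / (q+1))
          linarith
      _ = (Real.exp (-(1/(q+1)))) ^ (-ω) := by
          rw [← Real.exp_mul]; congr 1; field_simp
      _ ≤ _ := Real.rpow_le_rpow_of_nonpos hb h2 (by linarith)
  have h3 : (q + 1) ^ (-(1 + ω)) = (q + 1) ^ (-ω) * (1 / (q + 1)) := by
    rw [show -(1 + ω) = -ω + -1 by ring, Real.rpow_add hq1, Real.rpow_neg_one, one_div]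
  rw [h3]
  have h4 : (1/ω) * (q ^ (-ω) - (q + 1) ^ (-ω)) ≥ (1/ω) * ((q + 1) ^ (-ω) * (ω / (q + 1))) := by
    apply mul_le_mul_of_nonneg_left _ (by positivity)
    linarith
  have h5 : (1/ω) * ((q + 1) ^ (-ω) * (ω / (q + 1))) = (q + 1) ^ (-ω) * (1 / (q + 1)) := by field_simp
  linarith

lemma Tw_le {ω : ℝ} (hω : 0 < ω) {M : ℕ} (hM : 1 ≤ M) : Tw ω M ≤ (1 + 1/ω) * (M:ℝ) ^ (-ω) := by
  have hM1 : (1:ℝ) ≤ M := by exact_mod_cast hM
  have hM0 : (0:ℝ) < M := by linarith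
  have key : ∀ N : ℕ, ∑ q ∈ Finset.range (N+1), ((M + q : ℕ):ℝ) ^ (-(1 + ω)) + (1/ω) * ((M + N : ℕ):ℝ) ^ (-ω) ≤
      (M:ℝ) ^ (-(1 + ω)) + (1/ω) * (M:ℝ) ^ (-ω) := by
    intro N
    induction N with
    | zero => simp
    | succ N ih =>
      rw [Finset.sum_range_succ]
      have hs := tel_step hω (q := ((M + N : ℕ):ℝ)) (by exact_mod_cast (by omega : 1 ≤ M + N))
      have e2 : ((M + (N + 1) : ℕ):ℝ) = ((M + N : ℕ):ℝ) + 1 := by push_cast; ring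
      rw [e2]
      linarith
  unfold Tw
  apply Real.tsum_le_of_sum_range_le
  · intro q; positivity
  · intro N
    have h1 := key N
    have h2 : ∑ q ∈ Finset.range N, ((M + q : ℕ):ℝ) ^ (-(1 + ω)) ≤ ∑ q ∈ Finset.range (N+1), ((M + q : ℕ):ℝ) ^ (-(1 + ω)) := by
      rw [Finset.sum_range_succ]
      have : 0 ≤ ((M + N : ℕ):ℝ) ^ (-(1 + ω)) := by positivity
      linarith
    have h3 := Real.rpow_le_rpow_of_exponent_le hM1 (show -(1 + ω) ≤ -ω by linarith)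
    have h4 : 0 ≤ (1/ω) * ((M + N : ℕ):ℝ) ^ (-ω) := by positivity
    have h5 : (1 + 1/ω) * (M:ℝ) ^ (-ω) = (M:ℝ) ^ (-ω) + (1/ω) * (M:ℝ) ^ (-ω) := by ring
    rw [h5]
    linarith

/-- dyadic summation -/
lemma dyad {d : ℕ → ℝ} (hd : ∀ n, 0 ≤ d n) {x C5 C4 : ℝ} (hx : 0 ≤ x) (hC5 : 0 ≤ C5) {Na : ℕ} (hNa : 3 ≤ Na)
    (hsmall : ∀ N : ℕ, N < Na → ∑ n ∈ Finset.range N, d n ≤ C4)
    (hwin : ∀ N' : ℕ, Na ≤ 2 * N' → ∑ n ∈ Finset.range N', d (N' + n) ≤ C5 * x * N') (N : ℕ) :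
    ∑ n ∈ Finset.range N, d n ≤ 2 * C5 * x * N + C4 := by
  induction N using Nat.strong_induction_on with
  | _ N ih =>
    rcases lt_or_ge N Na with h | h
    · have h1 := hsmall N h
      have : 0 ≤ 2 * C5 * x * N := by positivity
      linarith
    · set N' := (N + 1) / 2 with hN'
      have hlt : N' < N := by omega
      have h2 : N ≤ 2 * N' := by omega
      have h3 : 2 * N' ≤ N + 1 := by omega
      have h4 := ih N' hlt
      have h5 := hwin N' (by omega)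
      have h6 : ∑ n ∈ Finset.range N, d n ≤ ∑ n ∈ Finset.range (N' + N'), d n := by
        apply Finset.sum_le_sum_of_subset_of_nonneg
        · intro i hi
          rw [Finset.mem_range] at hi ⊢; omega
        · intro i _ _; exact hd i
      rw [Finset.sum_range_add] at h6
      have h7 : (3:ℝ) * N' ≤ 2 * N := by
        have : 3 * N' ≤ 2 * N := by omega
        exact_mod_cast this
      have h8 : 0 ≤ C5 * x := by positivity
      have h9 : C5 * x * (3 * N') ≤ C5 * x * (2 * N) := mul_le_mul_of_nonneg_left h7 h8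
      linarith

theorem ap_l1 (ha : Bdw a) (ha0 : a 0 = 0) (hw : GW.Wt w) {κ₁ κ₂ : ℝ} (hS : SandW E a φ w κ₁ κ₂)
    {α : ℝ} (hα : 0 < α) {Rn : ℕ → ℝ} (hRn : ∃ C₁ : ℝ, ∀ n : ℕ, |Rn n - n * α| ≤ C₁ / (n + 1))
    {A₀ : ℝ} (hA0 : 0 < A₀) (hA : ∀ n : ℕ, |E (Rn n)| ≤ A₀ * (n + 1)) :
    ∃ c C : ℝ, ∃ D : ℕ, 0 < c ∧ 0 < C ∧ ∀ M : ℕ, 1 ≤ M → ∀ N : ℕ,
      ∑ n ∈ Finset.range N, |E (Rn n) - Gen.U a φ (n * α) M| ≤ C * ((M:ℝ) ^ (-c) * N + (M:ℝ) ^ D) := by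
  obtain ⟨C₁, hRn⟩ := hRn
  obtain ⟨ω, hω, hω200, Cq, hCq, N0, hq⟩ := ap_quant ha ha0 hw hS hα (ε := 1/4) (by norm_num)
  obtain ⟨Cb, hCb, hb⟩ := ha.Bd
  set c := min 1 α with hc
  have hc0 : 0 < c := by positivity
  -- thresholds
  obtain ⟨B1, hB1⟩ := exists_nat_ge (4 / c)
  obtain ⟨B2, hB2⟩ := exists_nat_ge (4 / α)
  obtain ⟨B3, hB3⟩ := exists_nat_ge (α^3)
  obtain ⟨B4, hB4⟩ : ∃ B4 : ℕ, ∀ N : ℕ, B4 ≤ N → |C₁| * (α + 1) ^ (51/100:ℝ) * (N:ℝ) ^ (-(49/100):ℝ) ≤ 1 := by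
    have h1 := tend_nat_rpow (y := 49/100) (by norm_num) (|C₁| * (α + 1) ^ (51/100:ℝ))
    have h2 := h1.eventually (gt_mem_nhds (by norm_num : (0:ℝ) < 1))
    rw [eventually_atTop] at h2
    obtain ⟨N4, hN4⟩ := h2
    exact ⟨N4, fun N hN => (hN4 N hN).le⟩
  set B : ℕ := N0 + B1 + B2 + B3 + B4 + 1 with hB
  set Cw : ℝ := Cq * (3 + 1/ω) with hCw
  have hCw0 : 0 < Cw := by positivity
  set C5 : ℝ := √Cw with hC5
  have hC50 : 0 ≤ C5 := Real.sqrt_nonneg _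
  refine ⟨ω/2, 2 * C5 + (2 * B + 3)^2 * (A₀ + Cb), 10, by positivity, by positivity, ?_⟩
  intro M hM N
  have hM1 : (1:ℝ) ≤ M := by exact_mod_cast hM
  have hM0 : (0:ℝ) < M := by linarith
  set Na : ℕ := (2 * B + 3) * M^5 with hNa
  have hM5 : 1 ≤ M^5 := Nat.one_le_pow _ _ hM
  have hNa3 : 3 ≤ Na := by rw [hNa]; nlinarith
  have hU : ∀ R : ℝ, |Gen.U a φ R M| ≤ Cb * (M:ℝ)^2 := by
    intro R
    unfold Gen.U
    refine (Finset.abs_sum_le_sum_abs _ _).trans ?_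
    have h1 : ∀ m ∈ Finset.Icc 1 (M^2), |a m * Real.cos (2 * Real.pi * (R * √(m:ℝ)) - φ)| ≤ Cb := by
      intro m hm
      rw [Finset.mem_Icc] at hm
      rw [abs_mul]
      have h2 := hb m hm.1
      have hs1 : 1 ≤ √(m:ℝ) := by rw [Real.one_le_sqrt]; exact_mod_cast hm.1
      have h3 : (√(m:ℝ)) ^ (-(37/25):ℝ) ≤ 1 := Real.rpow_le_one_of_one_le_of_nonpos hs1 (by norm_num)
      have h4 := Real.abs_cos_le_one (2 * Real.pi * (R * √(m:ℝ)) - φ)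
      have h5 : |a m| ≤ Cb := by nlinarith
      have := abs_nonneg (a m)
      nlinarith [abs_nonneg (Real.cos (2 * Real.pi * (R * √(m:ℝ)) - φ))]
    refine (Finset.sum_le_sum h1).trans ?_
    rw [Finset.sum_const, Nat.card_Icc, nsmul_eq_mul]
    simp only [Nat.add_sub_cancel]
    push_cast
    apply le_of_eq; ring
  have hfin := dyad (d := fun n => |E (Rn n) - Gen.U a φ (n * α) M|) (fun n => abs_nonneg _) (x := (M:ℝ) ^ (-(ω/2)))
    (C5 := C5) (C4 := ((2 * B + 3)^2 * (A₀ + Cb)) * (M:ℝ)^10) (by positivity) hC50 hNa3 ?_ ?_ N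
  · refine hfin.trans ?_
    have h1 : 0 ≤ (M:ℝ) ^ (-(ω/2)) * N := by positivity
    have h2 : 0 ≤ (M:ℝ)^10 := by positivity
    have h3 : 0 ≤ ((2 * B + 3)^2 * (A₀ + Cb) : ℝ) * ((M:ℝ) ^ (-(ω/2)) * N) := by positivity
    have h4 : 0 ≤ 2 * C5 * (M:ℝ)^10 := by positivity
    nlinarith
  · -- small N
    intro K hK
    have hK' : (K:ℝ) ≤ (2 * B + 3) * (M:ℝ)^5 := by
      have : (K:ℝ) ≤ Na := by exact_mod_cast hK.le
      rw [hNa] at this; push_cast at this; exact this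
    have h1 : ∀ n ∈ Finset.range K, |E (Rn n) - Gen.U a φ (n * α) M| ≤ A₀ * ((2 * B + 3) * (M:ℝ)^5) + Cb * (M:ℝ)^2 := by
      intro n hn
      rw [Finset.mem_range] at hn
      have h2 := hA n
      have h3 := hU (n * α)
      have h4 : (n:ℝ) + 1 ≤ K := by exact_mod_cast hn
      have h5 : |E (Rn n) - Gen.U a φ (n * α) M| ≤ |E (Rn n)| + |Gen.U a φ (n * α) M| := abs_sub _ _
      have h6 : A₀ * ((n:ℝ) + 1) ≤ A₀ * ((2 * B + 3) * (M:ℝ)^5) := mul_le_mul_of_nonneg_left (by linarith) hA0.le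
      linarith
    refine (Finset.sum_le_sum h1).trans ?_
    rw [Finset.sum_const, Finset.card_range, nsmul_eq_mul]
    have h2 : (M:ℝ)^2 ≤ (2 * B + 3) * (M:ℝ)^5 := by
      have h3 : (M:ℝ)^2 ≤ (M:ℝ)^5 := pow_le_pow_right₀ hM1 (by norm_num)
      have h4 : (0:ℝ) ≤ B := Nat.cast_nonneg _
      have h5 : 0 < (M:ℝ)^5 := by positivity
      nlinarith
    have h0 : 0 ≤ A₀ * ((2 * B + 3) * (M:ℝ)^5) + Cb * (M:ℝ)^2 := by positivity
    calc (K:ℝ) * (A₀ * ((2 * B + 3) * (M:ℝ)^5) + Cb * (M:ℝ)^2) ≤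
          ((2 * B + 3) * (M:ℝ)^5) * (A₀ * ((2 * B + 3) * (M:ℝ)^5) + Cb * (M:ℝ)^2) := mul_le_mul_of_nonneg_right hK' h0
      _ ≤ ((2 * B + 3) * (M:ℝ)^5) * (A₀ * ((2 * B + 3) * (M:ℝ)^5) + Cb * ((2 * B + 3) * (M:ℝ)^5)) := by
          gcongr
      _ = _ := by ring
  · -- windows
    intro N' hN'
    have hBM : B * M^5 ≤ N' := by
      have h1 : 2 * (B * M^5) ≤ 2 * N' := by
        have h2 : 2 * (B * M^5) ≤ Na := by rw [hNa]; nlinarith
        omega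
      omega
    have hBN : B ≤ N' := by
      have : B * 1 ≤ B * M^5 := Nat.mul_le_mul_left _ hM5
      omega
    have hM5N : M^5 ≤ N' := by
      have h1 : 1 * M^5 ≤ B * M^5 := Nat.mul_le_mul_right _ (by omega)
      omega
    have hN'0 : (0:ℝ) < N' := by exact_mod_cast (by omega : 0 < N')
    have hN'1 : (1:ℝ) ≤ N' := by exact_mod_cast (by omega : 1 ≤ N')
    have hM5N' : (M:ℝ)^5 ≤ N' := by exact_mod_cast hM5N
    have hMN : (M:ℝ) ≤ N' := by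
      have : (M:ℝ)^1 ≤ (M:ℝ)^5 := pow_le_pow_right₀ hM1 (by norm_num)
      rw [pow_one] at this
      linarith
    have hcN : 2 * ((M:ℝ) + 1) ≤ min 1 α * N' := by
      rw [← hc]
      have h1 : (B1:ℝ) * M ≤ N' := by
        have h2 : B1 * M ≤ B * M^5 := Nat.mul_le_mul (by omega) (by
          calc M = M^1 := (pow_one M).symm
            _ ≤ M^5 := Nat.pow_le_pow_right hM (by norm_num))
        exact_mod_cast h2.trans hBM
      have h3 : 4 / c * M ≤ N' := (mul_le_mul_of_nonneg_right hB1 hM0.le).trans h1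
      have h4 : c * (4 / c * M) ≤ c * N' := mul_le_mul_of_nonneg_left h3 hc0.le
      have h5 : c * (4 / c * M) = 4 * M := by field_simp
      linarith
    have hX4 : 4 ≤ (N':ℝ) * α := by
      have h1 : (B2:ℝ) ≤ N' := by exact_mod_cast (by omega : B2 ≤ N')
      have h2 : 4 / α ≤ N' := hB2.trans h1
      rwa [div_le_iff₀ hα] at h2
    have hXN : ((N':ℝ) * α) ^ (1/2 + 1/4:ℝ) ≤ N' := by
      have h1 : α^3 ≤ N' := hB3.trans (by exact_mod_cast (by omega : B3 ≤ N'))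
      have h2 : α ^ (3/4:ℝ) ≤ (N':ℝ) ^ (1/4:ℝ) := by
        calc α ^ (3/4:ℝ) = (α^3) ^ (1/4:ℝ) := by
              rw [← Real.rpow_natCast, ← Real.rpow_mul hα.le]; norm_num
          _ ≤ _ := Real.rpow_le_rpow (by positivity) h1 (by norm_num)
      rw [show (1/2 + 1/4:ℝ) = 3/4 by norm_num, Real.mul_rpow hN'0.le hα.le]
      calc (N':ℝ) ^ (3/4:ℝ) * α ^ (3/4:ℝ) ≤ (N':ℝ) ^ (3/4:ℝ) * (N':ℝ) ^ (1/4:ℝ) := mul_le_mul_of_nonneg_left h2 (by positivity)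
        _ = N' := by rw [← Real.rpow_add hN'0]; norm_num
    have hpert : ∀ n : ℕ, n < N' → |Rn (N' + n) - ((N':ℝ) * α + n * α)| ≤ ((N':ℝ) * α + N') ^ (-(51/100):ℝ) := by
      intro n hn
      have h1 := hRn (N' + n)
      have e : ((N' + n : ℕ):ℝ) * α = (N':ℝ) * α + n * α := by push_cast; ring
      rw [e] at h1
      refine h1.trans ?_
      have hn0 : (0:ℝ) ≤ n := Nat.cast_nonneg n
      have h2 := hB4 N' (by omega)
      calc C₁ / (((N' + n : ℕ):ℝ) + 1) ≤ |C₁| / (((N' + n : ℕ):ℝ) + 1) := by gcongr; exact le_abs_self _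
        _ ≤ |C₁| / N' := by
            gcongr
            push_cast; linarith
        _ ≤ ((N':ℝ) * (α + 1)) ^ (-(51/100):ℝ) := by
            rw [div_le_iff₀ hN'0, Real.mul_rpow hN'0.le (by positivity)]
            have e1 : (N':ℝ) ^ (-(51/100):ℝ) * (α + 1) ^ (-(51/100):ℝ) * N' = (α + 1) ^ (-(51/100):ℝ) * (N':ℝ) ^ (49/100:ℝ) := by
              rw [mul_comm ((N':ℝ) ^ (-(51/100):ℝ)), mul_assoc]
              congr 1
              nth_rewrite 2 [← Real.rpow_one (N':ℝ)]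
              rw [← Real.rpow_add hN'0]; norm_num
            rw [e1]
            have e2 : (α + 1) ^ (-(51/100):ℝ) * (α + 1) ^ (51/100:ℝ) = 1 := by
              rw [← Real.rpow_add (by positivity)]; norm_num
            have e3 : (N':ℝ) ^ (49/100:ℝ) * (N':ℝ) ^ (-(49/100):ℝ) = 1 := by
              rw [← Real.rpow_add hN'0]; norm_num
            calc |C₁| = (|C₁| * (α + 1) ^ (51/100:ℝ) * (N':ℝ) ^ (-(49/100):ℝ)) * ((α + 1) ^ (-(51/100):ℝ) * (N':ℝ) ^ (49/100:ℝ)) := by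
                  have : (|C₁| * (α + 1) ^ (51/100:ℝ) * (N':ℝ) ^ (-(49/100):ℝ)) * ((α + 1) ^ (-(51/100):ℝ) * (N':ℝ) ^ (49/100:ℝ)) =
                    |C₁| * ((α + 1) ^ (-(51/100):ℝ) * (α + 1) ^ (51/100:ℝ)) * ((N':ℝ) ^ (49/100:ℝ) * (N':ℝ) ^ (-(49/100):ℝ)) := by ring
                  rw [this, e2, e3]; ring
              _ ≤ 1 * ((α + 1) ^ (-(51/100):ℝ) * (N':ℝ) ^ (49/100:ℝ)) :=
                  mul_le_mul_of_nonneg_right h2 (by positivity)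
              _ = _ := one_mul _
        _ = _ := by congr 1; ring
    have h1 := hq M hM N' (by omega) hcN ((N':ℝ) * α) hX4 hXN (fun n => Rn (N' + n)) hpert
    have h2 : Tw ω M + (M:ℝ)^4 * (N':ℝ) ^ (-1:ℝ) + (N':ℝ) ^ (-ω) ≤ (3 + 1/ω) * (M:ℝ) ^ (-ω) := by
      have g1 := Tw_le hω hM
      have g2 : (M:ℝ)^4 * (N':ℝ) ^ (-1:ℝ) ≤ (M:ℝ) ^ (-ω) := by
        calc (M:ℝ)^4 * (N':ℝ) ^ (-1:ℝ) ≤ (M:ℝ)^4 * ((M:ℝ)^5) ^ (-1:ℝ) := by
              apply mul_le_mul_of_nonneg_left _ (by positivity)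
              exact Real.rpow_le_rpow_of_nonpos (by positivity) hM5N' (by norm_num)
          _ = (M:ℝ) ^ (-1:ℝ) := by
              rw [Real.rpow_neg_one, Real.rpow_neg_one]; field_simp
          _ ≤ _ := Real.rpow_le_rpow_of_exponent_le hM1 (by linarith)
      have g3 : (N':ℝ) ^ (-ω) ≤ (M:ℝ) ^ (-ω) := Real.rpow_le_rpow_of_nonpos hM0 hMN (by linarith)
      have : (3 + 1/ω) * (M:ℝ) ^ (-ω) = (1 + 1/ω) * (M:ℝ) ^ (-ω) + (M:ℝ) ^ (-ω) + (M:ℝ) ^ (-ω) := by ring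
      rw [this]
      linarith
    have h3 : ∑ n ∈ Finset.range N', (|E (Rn (N' + n)) - Gen.U a φ (((N' + n : ℕ):ℝ) * α) M|)^2 ≤ Cw * N' * (M:ℝ) ^ (-ω) := by
      calc _ = ∑ n ∈ Finset.range N', (E (Rn (N' + n)) - Gen.U a φ ((N':ℝ) * α + n * α) M)^2 := by
            apply Finset.sum_congr rfl
            intro n _
            rw [sq_abs]
            congr 3
            push_cast; ring
        _ ≤ _ := h1
        _ ≤ Cq * N' * ((3 + 1/ω) * (M:ℝ) ^ (-ω)) := mul_le_mul_of_nonneg_left h2 (by positivity)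
        _ = _ := by rw [hCw]; ring
    have hcs := sq_sum_le_card_mul_sum_sq (s := Finset.range N') (f := fun n => |E (Rn (N' + n)) - Gen.U a φ (((N' + n : ℕ):ℝ) * α) M|)
    rw [Finset.card_range] at hcs
    have h4 : (∑ n ∈ Finset.range N', |E (Rn (N' + n)) - Gen.U a φ (((N' + n : ℕ):ℝ) * α) M|)^2 ≤ (C5 * (M:ℝ) ^ (-(ω/2)) * N')^2 := by
      refine hcs.trans ?_
      have e1 : (C5 * (M:ℝ) ^ (-(ω/2)) * N')^2 = N' * (Cw * N' * (M:ℝ) ^ (-ω)) := by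
        have e2 : C5^2 = Cw := Real.sq_sqrt hCw0.le
        have e3 : ((M:ℝ) ^ (-(ω/2)))^2 = (M:ℝ) ^ (-ω) := by
          rw [← Real.rpow_natCast, ← Real.rpow_mul hM0.le]; congr 1; push_cast; ring
        rw [mul_pow, mul_pow, e2, e3]; ring
      rw [e1]
      exact mul_le_mul_of_nonneg_left h3 hN'0.le
    exact le_of_sq_le_sq h4 (by positivity)

end Pool.Agent.H452R2.Om
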