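import Mathlib
import Pool.Agent.H452R2.Om.O5
import Pool.Agent.H452R2.Om.O3b

open MeasureTheory Set Filter Topology
open Pool.Agent.H383
open Pool.Agent.H383.Gauss Pool.Agent.H383.AP
open Pool.Agent.H452R2.Win

namespace Pool.Agent.H452R2.Om

variable {E : ℝ → ℝ} {a : ℕ → ℝ} {φ : ℝ} {w : ℝ → ℂ}

/-- the trivial linear bound -/
lemma lin_bound (ha : Bdw a) (ha0 : a 0 = 0) (hw : GW.Wt w) {κ₁ κ₂ : ℝ} (hS : SandW E a φ w κ₁ κ₂) :
    ∃ A : ℝ, 0 < A ∧ ∀ R : ℝ, 4 ≤ R → |E R| ≤ A * R := by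
  obtain ⟨Ct, hCt, htail⟩ := GW.WS_tail (a := a) (φ := φ) ha.Bd ha0 hw
  obtain ⟨C0, hC0, hS⟩ := hS (1/2) (by norm_num)
  have hWS : ∀ R : ℝ, |GW.WS a φ w R (1/2)| ≤ Ct * (1/2) ^ (-(3/2):ℝ) + |a 1| := by
    intro R
    have h1 := htail (1/2) (by norm_num) R 1 le_rfl
    simp only [one_pow, Finset.Icc_self, Finset.sum_singleton, Nat.cast_one, Real.one_rpow, mul_one] at h1
    have h2 : |GW.wt a φ w R (1/2) 1| ≤ |a 1| := by
      refine (GW.abs_wt_le R (1/2) 1).trans ?_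
      have := hw.one (√((1:ℕ):ℝ) * (1/2)) (by rw [Nat.cast_one, Real.sqrt_one]; norm_num)
      have h3 := abs_nonneg (a 1)
      nlinarith
    have h3 : |GW.WS a φ w R (1/2)| ≤ |GW.WS a φ w R (1/2) - GW.wt a φ w R (1/2) 1| + |GW.wt a φ w R (1/2) 1| := by
      have := abs_add_le (GW.WS a φ w R (1/2) - GW.wt a φ w R (1/2) 1) (GW.wt a φ w R (1/2) 1)
      rwa [sub_add_cancel] at this
    linarith
  set W : ℝ := Ct * (1/2) ^ (-(3/2):ℝ) + |a 1| with hW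
  have hW0 : 0 < W := by positivity
  refine ⟨W + C0 * 4, by positivity, ?_⟩
  intro R hR
  have hR0 : 0 < R := by linarith
  have her : erw (1/2) R (1/2) ≤ 4 * R := by
    unfold erw
    have e1 : R ^ (1/2 + 1/2:ℝ) = R := by norm_num
    have e2 : R ^ (-(12/25):ℝ) ≤ 1 := Real.rpow_le_one_of_one_le_of_nonpos (by linarith) (by norm_num)
    have e3 : (1/2:ℝ) ^ (-(13/25):ℝ) ≤ 2 := by
      calc (1/2:ℝ) ^ (-(13/25):ℝ) ≤ (1/2:ℝ) ^ (-1:ℝ) :=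
            Real.rpow_le_rpow_of_exponent_ge (by norm_num) (by norm_num) (by norm_num)
        _ = 2 := by rw [Real.rpow_neg_one]; norm_num
    have e4 : (1/2:ℝ) ^ (2/5:ℝ) ≤ 1 := Real.rpow_le_one (by norm_num) (by norm_num) (by norm_num)
    have e5 : 0 < (1/2:ℝ) ^ (-(13/25):ℝ) := by positivity
    have e6 : R ^ (-(12/25):ℝ) * (1/2:ℝ) ^ (-(13/25):ℝ) ≤ 1 * 2 := mul_le_mul e2 e3 e5.le (by norm_num)
    rw [e1]
    linarith
  obtain ⟨h1, h2⟩ := hS R R (1/2) hR (by norm_num) le_rfl (by rw [sub_self, abs_zero]; norm_num)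
  have g1 := abs_le.mp (hWS (R + κ₁ * (1/2)))
  have g2 := abs_le.mp (hWS (R + κ₂ * (1/2)))
  have g3 : C0 * erw (1/2) R (1/2) ≤ C0 * 4 * R := by
    have := mul_le_mul_of_nonneg_left her hC0.le
    linarith
  have g4 : W ≤ W * R := by nlinarith
  rw [abs_le]
  constructor
  · nlinarith [g2.1]
  · nlinarith [g1.2]

lemma lin_bound2 (ha : Bdw a) (ha0 : a 0 = 0) (hw : GW.Wt w) {κ₁ κ₂ : ℝ} (hS : SandW E a φ w κ₁ κ₂)
    {α : ℝ} (hα : 0 < α) {Rn : ℕ → ℝ} (hRn : ∃ C₁ : ℝ, ∀ n : ℕ, |Rn n - n * α| ≤ C₁ / (n + 1)) :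
    ∃ A₀ : ℝ, 0 < A₀ ∧ ∀ n : ℕ, |E (Rn n)| ≤ A₀ * (n + 1) := by
  obtain ⟨A, hA, hlin⟩ := lin_bound ha ha0 hw hS
  obtain ⟨C₁, hRn⟩ := hRn
  have hC1 : 0 ≤ C₁ := by
    have := (abs_nonneg _).trans (hRn 0)
    simp at this; exact this
  obtain ⟨n0, hn0⟩ := exists_nat_ge ((4 + C₁)/α)
  set A2 : ℝ := ∑ n ∈ Finset.range n0, |E (Rn n)| with hA2
  have hA20 : 0 ≤ A2 := Finset.sum_nonneg (fun n _ => abs_nonneg _)
  refine ⟨A2 + A * (α + C₁) + 1, by positivity, ?_⟩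
  intro n
  have hn : (0:ℝ) ≤ n := Nat.cast_nonneg n
  rcases lt_or_ge n n0 with h | h
  · have h1 : |E (Rn n)| ≤ A2 := Finset.single_le_sum (f := fun n => |E (Rn n)|) (fun i _ => abs_nonneg _) (Finset.mem_range.mpr h)
    have h2 : 0 ≤ A * (α + C₁) + 1 := by positivity
    nlinarith
  · have h1 := abs_le.mp (hRn n)
    have h2 : C₁ / ((n:ℝ) + 1) ≤ C₁ := div_le_self hC1 (by linarith)
    have h3 : (4 + C₁)/α ≤ n := hn0.trans (by exact_mod_cast h)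
    rw [div_le_iff₀ hα] at h3
    have h4 := hlin (Rn n) (by linarith [h1.1])
    refine h4.trans ?_
    have h5 : Rn n ≤ (α + C₁) * (n + 1) := by nlinarith [h1.2]
    have h6 : A * Rn n ≤ A * ((α + C₁) * (n + 1)) := mul_le_mul_of_nonneg_left h5 hA.le
    have h7 : 0 ≤ (A2 + 1) * ((n:ℝ) + 1) := by positivity
    nlinarith

/-- the abstract omega theorem -/
theorem omega_abs {e : ℕ → ℝ} (ha : ∀ m, 0 ≤ a m) {α : ℝ} (hφ : |Real.sin φ| ≤ Real.cos φ) (hcos : 0 < Real.cos φ)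
    {A₀ : ℝ} (hA0 : 0 < A₀) (hA : ∀ n : ℕ, |e n| ≤ A₀ * (n + 1))
    (hQ : ∃ c C : ℝ, ∃ D : ℕ, 0 < c ∧ 0 < C ∧ ∀ M : ℕ, 1 ≤ M → ∀ N : ℕ,
      ∑ n ∈ Finset.range N, |e n - Gen.U a φ (n * α) M| ≤ C * ((M:ℝ) ^ (-c) * N + (M:ℝ) ^ D))
    {γ : ℝ} (hγ : 0 ≤ γ)
    (hN : ∃ c K0 : ℝ, 0 < c ∧ ∀ K : ℝ, K0 ≤ K → ∃ 𝓜 : Finset ℕ, (𝓜.card : ℝ) ≤ K ∧
      (∀ m ∈ 𝓜, 1 ≤ m ∧ (m:ℝ) ≤ K ^ 3) ∧
      c * K ^ (1/4:ℝ) * (Real.log K) ^ γ ≤ ∑ m ∈ 𝓜, a m)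
    {ε : ℝ} (hε : 0 < ε) : ∃ c₂ : ℝ, 0 < c₂ ∧ ∃ T₀ : ℝ, ∀ T : ℝ, T₀ ≤ T → ∃ n : ℕ, T ≤ n ∧ (n:ℝ) ≤ T ^ (1 + ε) ∧
      c₂ * (Real.log T) ^ (1/4:ℝ) * (Real.log (Real.log T)) ^ γ ≤ e n := by
  obtain ⟨c, C, D, hc, hC, hQ⟩ := hQ
  obtain ⟨c₁, K0, hc₁, hN⟩ := hN
  set ε' : ℝ := min (1/4) (ε/4) with hε'
  have hε'0 : 0 < ε' := by positivity
  have hε'1 : ε' ≤ 1/4 := min_le_left _ _
  have hε'2 : ε' ≤ ε/4 := min_le_right _ _
  obtain ⟨κ, hκ, T1, hT11, hmain⟩ := main_ineq ha hφ hA0 hA hc hC hQ hε'0 (by linarith)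
  set p : ℝ := Real.cos φ * c₁ / 4 with hp
  have hp0 : 0 < p := by positivity
  refine ⟨p * κ ^ (1/4:ℝ) * (1/2) ^ γ, by positivity, ?_⟩
  -- eventual conditions
  have hlog := Real.tendsto_log_atTop
  have hll : Tendsto (fun T : ℝ => Real.log (Real.log T)) atTop atTop := hlog.comp hlog
  have v1 : ∀ᶠ T : ℝ in atTop, max K0 1 ≤ κ * Real.log T := (hlog.const_mul_atTop hκ).eventually_ge_atTop _
  have v2 : ∀ᶠ T : ℝ in atTop, (1:ℝ) ≤ Real.log (Real.log T) := hll.eventually_ge_atTop _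
  have v3 : ∀ᶠ T : ℝ in atTop, (Real.log T) ^ (1/2:ℝ) ≤ κ * Real.log T := by
    have h1 : Tendsto (fun x : ℝ => κ * x ^ (1/2:ℝ)) atTop atTop :=
      (tendsto_rpow_atTop (by norm_num : (0:ℝ) < 1/2)).const_mul_atTop hκ
    have h2 := (h1.comp hlog).eventually_ge_atTop 1
    filter_upwards [h2, hlog.eventually_gt_atTop 0] with T h3 h4
    simp only [Function.comp_apply] at h3
    calc (Real.log T) ^ (1/2:ℝ) = (Real.log T) ^ (1/2:ℝ) * 1 := (mul_one _).symm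
      _ ≤ (Real.log T) ^ (1/2:ℝ) * (κ * (Real.log T) ^ (1/2:ℝ)) := mul_le_mul_of_nonneg_left h3 (by positivity)
      _ = κ * ((Real.log T) ^ (1/2:ℝ) * (Real.log T) ^ (1/2:ℝ)) := by ring
      _ = κ * Real.log T := by rw [← Real.rpow_add h4]; norm_num
  have v4 : ∀ᶠ K : ℝ in atTop, K^3 ≤ Real.exp K := by
    have h1 := (Real.tendsto_pow_mul_exp_neg_atTop_nhds_zero 3).eventually (gt_mem_nhds one_pos)
    filter_upwards [h1] with K h2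
    rw [Real.exp_neg] at h2
    have := Real.exp_pos K
    rw [← div_eq_mul_inv, div_lt_one this] at h2
    exact h2.le
  have v5 : ∀ᶠ K : ℝ in atTop, (1:ℝ) ≤ p * K ^ (1/4:ℝ) * (Real.log K) ^ γ := by
    have h1 : Tendsto (fun x : ℝ => p * x ^ (1/4:ℝ)) atTop atTop :=
      (tendsto_rpow_atTop (by norm_num : (0:ℝ) < 1/4)).const_mul_atTop hp0
    filter_upwards [h1.eventually_ge_atTop 1, hlog.eventually_ge_atTop 1] with K h2 h3
    have h4 : 1 ≤ (Real.log K) ^ γ := Real.one_le_rpow h3 hγ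
    nlinarith
  obtain ⟨K1, hK1⟩ := eventually_atTop.mp (v4.and v5)
  have v6 : ∀ᶠ T : ℝ in atTop, K1 ≤ κ * Real.log T := (hlog.const_mul_atTop hκ).eventually_ge_atTop _
  obtain ⟨T2, hT2⟩ := eventually_atTop.mp ((((v1.and v2).and v3).and v6).and (eventually_ge_atTop (max T1 1)))
  refine ⟨T2, ?_⟩
  intro T hT
  obtain ⟨⟨⟨⟨w1, w2⟩, w3⟩, w6⟩, w7⟩ := hT2 T hT
  have hT1 : 1 ≤ T := (le_max_right _ _).trans w7
  have hT0 : 0 < T := by linarith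
  have hlT0 : 0 < Real.log T := by
    by_contra h
    push Not at h
    have : κ * Real.log T ≤ 0 := mul_nonpos_of_nonneg_of_nonpos hκ.le h
    have h2 : (1:ℝ) ≤ κ * Real.log T := (le_max_right _ _).trans w1
    linarith
  have h1ε : 0 < 1 - ε' := by linarith
  set T' : ℝ := T ^ (1/(1 - ε')) with hT'
  have hinv : 1 ≤ 1/(1 - ε') := by rw [le_div_iff₀ h1ε]; linarith
  have hTT' : T ≤ T' := by
    calc T = T ^ (1:ℝ) := (Real.rpow_one T).symm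
      _ ≤ _ := Real.rpow_le_rpow_of_exponent_le hT1 hinv
  have hT'0 : 0 < T' := by positivity
  have hlogT' : Real.log T' = 1/(1 - ε') * Real.log T := Real.log_rpow hT0 _
  have hlogle : Real.log T ≤ Real.log T' := by rw [hlogT']; nlinarith
  set K : ℝ := κ * Real.log T' with hK
  have hKge : κ * Real.log T ≤ K := mul_le_mul_of_nonneg_left hlogle hκ.le
  have hK0 : K0 ≤ K := (le_max_left _ _).trans (w1.trans hKge)
  have hK1' : 1 ≤ K := (le_max_right _ _).trans (w1.trans hKge)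
  obtain ⟨k3, k4⟩ := hK1 K (w6.trans hKge)
  obtain ⟨𝓜, m1, m2, m3⟩ := hN K hK0
  have hmT : ∀ m ∈ 𝓜, 1 ≤ m ∧ (m:ℝ) ≤ T' ^ κ := by
    intro m hm
    refine ⟨(m2 m hm).1, (m2 m hm).2.trans (k3.trans ?_)⟩
    rw [Real.rpow_def_of_pos hT'0, hK]
    apply le_of_eq; congr 1; ring
  set B : ℝ := p * K ^ (1/4:ℝ) * (Real.log K) ^ γ with hB
  have hlK : 0 ≤ Real.log K := Real.log_nonneg hK1'
  have hB0 : 0 ≤ B := by positivity
  have hBF : B + 1 ≤ (1/2) * Real.cos φ * ∑ m ∈ 𝓜, a m := by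
    have h1 : (1/2) * Real.cos φ * (c₁ * K ^ (1/4:ℝ) * (Real.log K) ^ γ) ≤ (1/2) * Real.cos φ * ∑ m ∈ 𝓜, a m :=
      mul_le_mul_of_nonneg_left m3 (by positivity)
    have h2 : (1/2) * Real.cos φ * (c₁ * K ^ (1/4:ℝ) * (Real.log K) ^ γ) = B + B := by rw [hB, hp]; ring
    linarith
  obtain ⟨n, n1, n2, n3⟩ := hmain T' ((le_max_left _ _).trans (w7.trans hTT')) 𝓜 hmT m1 B hB0 hBF
  refine ⟨n, ?_, ?_, ?_⟩
  · calc T = T' ^ (1 - ε') := by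
          rw [hT', ← Real.rpow_mul hT0.le, one_div, inv_mul_cancel₀ h1ε.ne', Real.rpow_one]
      _ ≤ n := n1
  · calc (n:ℝ) ≤ T' ^ (1 + ε') := n2
      _ = T ^ ((1 + ε')/(1 - ε')) := by
          rw [hT', ← Real.rpow_mul hT0.le]; congr 1; ring
      _ ≤ T ^ (1 + ε) := by
          apply Real.rpow_le_rpow_of_exponent_le hT1
          rw [div_le_iff₀ h1ε]
          nlinarith
  · refine le_trans ?_ n3
    have h1 : κ ^ (1/4:ℝ) * (Real.log T) ^ (1/4:ℝ) ≤ K ^ (1/4:ℝ) := by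
      rw [← Real.mul_rpow hκ.le hlT0.le]
      exact Real.rpow_le_rpow (by positivity) hKge (by norm_num)
    have h2 : (1/2) ^ γ * (Real.log (Real.log T)) ^ γ ≤ (Real.log K) ^ γ := by
      rw [← Real.mul_rpow (by norm_num) (by linarith)]
      apply Real.rpow_le_rpow (by linarith) _ hγ
      have h3 : Real.log ((Real.log T) ^ (1/2:ℝ)) ≤ Real.log K :=
        Real.log_le_log (by positivity) (w3.trans hKge)
      rw [Real.log_rpow hlT0] at h3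
      exact h3
    have h3 : 0 ≤ (1/2:ℝ) ^ γ * (Real.log (Real.log T)) ^ γ := by
      have : 0 ≤ (Real.log (Real.log T)) ^ γ := Real.rpow_nonneg (by linarith) γ
      positivity
    have h4 : 0 ≤ K ^ (1/4:ℝ) := by positivity
    calc p * κ ^ (1/4:ℝ) * (1/2) ^ γ * (Real.log T) ^ (1/4:ℝ) * (Real.log (Real.log T)) ^ γ
        = p * ((κ ^ (1/4:ℝ) * (Real.log T) ^ (1/4:ℝ)) * ((1/2) ^ γ * (Real.log (Real.log T)) ^ γ)) := by ring
      _ ≤ p * (K ^ (1/4:ℝ) * (Real.log K) ^ γ) := by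
          apply mul_le_mul_of_nonneg_left _ hp0.le
          exact mul_le_mul h1 h2 h3 h4
      _ = B := by rw [hB]; ring

end Pool.Agent.H452R2.Om
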