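import Mathlib
import Pool.Agent.H383.Expand

open Pool.Agent.H383.Gauss

namespace Pool.Agent.H452R2.Om

open Set

private theorem A_step {p m : ℕ} (hp : p.Prime) (hp4 : p % 4 = 1) (hpm : ¬ p ∣ m) :
    2 * (A m).ncard ≤ (A (p * m)).ncard := by
  have : Fact p.Prime := ⟨hp⟩
  obtain ⟨a, b, hab⟩ := Nat.Prime.sq_add_sq (p := p) (by omega)
  set π : GaussianInt := ⟨a, b⟩ with hπdef
  have hn : π.norm = p := by
    rw [norm_eq, hπdef]
    show (a:ℤ)^2 + (b:ℤ)^2 = p
    exact_mod_cast hab
  have hπirr : Irreducible π := by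
    refine ⟨?_, ?_⟩
    · intro hu
      have := Zsqrtd.norm_eq_one_iff.mpr hu
      rw [hn] at this
      simp at this
      exact hp.one_lt.ne' this
    · intro x y hxy
      have h1 : x.norm.natAbs * y.norm.natAbs = p := by
        rw [← Int.natAbs_mul, ← Zsqrtd.norm_mul, ← hxy, hn]; simp
      rcases (Nat.dvd_prime hp).mp ⟨_, h1.symm⟩ with h | h
      · left; exact Zsqrtd.norm_eq_one_iff.mp h
      · right
        rw [h] at h1
        have : y.norm.natAbs = 1 := by
          have hp0 := hp.pos
          nlinarith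
        exact Zsqrtd.norm_eq_one_iff.mp this
  have hπ : Prime π := hπirr.prime
  have hodd : p % 2 = 1 := by omega
  have hns : (star π).norm = p := by rw [Zsqrtd.norm_conj, hn]
  have hco : ¬ π ∣ star π := by
    intro h
    have h1 : π ∣ ((2 * a : ℤ) : GaussianInt) := by
      have h2 : ((2 * a : ℤ) : GaussianInt) = π + star π := by
        rw [hπdef]
        ext
        · simp; ring
        · simp
      rw [h2]
      exact dvd_add dvd_rfl h
    have h2 : (p:ℤ) ∣ (2 * a) * (2 * a) := by
      obtain ⟨c, hc⟩ := h1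
      have := congrArg Zsqrtd.norm hc
      rw [Zsqrtd.norm_intCast, Zsqrtd.norm_mul, hn] at this
      exact ⟨_, this⟩
    have h3 : p ∣ (2 * a) * (2 * a) := by exact_mod_cast h2
    have h4 : p ∣ a := by
      rcases (Nat.Prime.dvd_mul hp).mp h3 with h | h <;>
      · rcases (Nat.Prime.dvd_mul hp).mp h with h' | h'
        · exfalso
          have := Nat.le_of_dvd (by norm_num) h'
          have h5 := hp.two_le
          have : p = 2 := by omega
          rw [this] at hodd
          exact absurd hodd (by decide)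
        · exact h'
    have h5 : a = 0 := by
      by_contra h0
      have h6 := Nat.le_of_dvd (Nat.pos_of_ne_zero h0) h4
      have h7 := hp.two_le
      nlinarith
    rw [h5] at hab
    have h8 : b * b = p := by nlinarith
    rcases (Nat.dvd_prime hp).mp ⟨b, h8.symm⟩ with h9 | h9
    · rw [h9] at h8
      have := hp.two_le
      omega
    · rw [h9] at h8
      have := hp.two_le
      nlinarith
  have hπ0 : π ≠ 0 := hπ.ne_zero
  have hsπ0 : star π ≠ 0 := (star_prime hπ).ne_zero
  have hi1 : Set.InjOn (fun w : GaussianInt => π * w) (A m) := fun x _ y _ h => mul_left_cancel₀ hπ0 h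
  have hi2 : Set.InjOn (fun w : GaussianInt => star π * w) (A m) := fun x _ y _ h => mul_left_cancel₀ hsπ0 h
  have hsub : ((fun w => π * w) '' A m) ∪ ((fun w => star π * w) '' A m) ⊆ A (p * m) := by
    rintro z (⟨w, hw, rfl⟩ | ⟨w, hw, rfl⟩)
    · rw [mem_A] at hw ⊢
      rw [Zsqrtd.norm_mul, hn, hw]; push_cast; ring
    · rw [mem_A] at hw ⊢
      rw [Zsqrtd.norm_mul, hns, hw]; push_cast; ring
  have hdisj : Disjoint ((fun w => π * w) '' A m) ((fun w => star π * w) '' A m) := by
    rw [Set.disjoint_left]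
    rintro z ⟨w, hw, rfl⟩ ⟨w', hw', h⟩
    simp only at h
    have h1 : π ∣ star π * w' := ⟨w, h⟩
    rcases hπ.dvd_or_dvd h1 with h2 | h2
    · exact hco h2
    · obtain ⟨c, rfl⟩ := h2
      rw [mem_A, Zsqrtd.norm_mul, hn] at hw'
      apply hpm
      have : (p:ℤ) ∣ m := ⟨_, hw'.symm⟩
      exact_mod_cast this
  have h1 := ncard_le_ncard hsub (A_finite _)
  rw [ncard_union_eq hdisj ((A_finite _).image _) ((A_finite _).image _),
    ncard_image_of_injOn hi1, ncard_image_of_injOn hi2] at h1
  omega

theorem rA_prod_ge (S : Finset ℕ) (hS : ∀ p ∈ S, p.Prime ∧ p % 4 = 1) : (2:ℝ) ^ S.card ≤ rA (∏ p ∈ S, p) := by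
  classical
  suffices h : 2 ^ S.card ≤ (A (∏ p ∈ S, p)).ncard by
    unfold rA
    exact_mod_cast h
  induction S using Finset.induction_on with
  | empty =>
    simp only [Finset.card_empty, pow_zero, Finset.prod_empty]
    have h1 : (1 : GaussianInt) ∈ A 1 := by
      rw [mem_A]; simp
    exact Nat.one_le_iff_ne_zero.mpr (by
      intro h0
      rw [ncard_eq_zero (A_finite 1)] at h0
      rw [h0] at h1
      exact h1)
  | insert p S hpS ih =>
    rw [Finset.card_insert_of_notMem hpS, Finset.prod_insert hpS, pow_succ]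
    have hS' : ∀ q ∈ S, q.Prime ∧ q % 4 = 1 := fun q hq => hS q (Finset.mem_insert_of_mem hq)
    have hp := hS p (Finset.mem_insert_self _ _)
    have hnd : ¬ p ∣ ∏ q ∈ S, q := by
      intro h
      obtain ⟨q, hq, hpq⟩ := (hp.1.prime.dvd_finset_prod_iff _).mp h
      have := (Nat.prime_dvd_prime_iff_eq hp.1 (hS' q hq).1).mp hpq
      exact hpS (this ▸ hq)
    have := A_step hp.1 hp.2 hnd
    have := ih hS'
    omega

end Pool.Agent.H452R2.Om
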