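import Mathlib
import Pool.Agent.H452R2.Om.O6
import Pool.Agent.H452R2.Om.Mert
import Pool.Agent.H452R2.Om.RepsLow
import Pool.Agent.H452R2.Om.Extract
import Pool.Agent.H452R2.Om.Count
import Pool.Agent.H452R2.Win.V8
import Pool.Agent.H383.DivD
import Pool.Agent.H383.CircD

open MeasureTheory Set Filter Topology
open Pool.Agent.H387R2.Vor
open Pool.Agent.H383
open Pool.Agent.H383.Gauss Pool.Agent.H383.AP
open Pool.Agent.H452R2.Win

namespace Pool.Agent.H452R2.Om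

lemma zz_pos' : 0 < zz := by unfold zz; positivity

lemma zz_ge_two : 2 ≤ zz := by
  unfold zz
  calc (2:ℝ) = 2 ^ (1:ℝ) := (Real.rpow_one 2).symm
    _ ≤ 2 ^ (4/3:ℝ) := Real.rpow_le_rpow_of_exponent_le (by norm_num) (by norm_num)

/-- the exponent of the iterated logarithm, divisor problem -/
lemma gam_d : (3/4) * (zz - 1) = (3/4) * ((2:ℝ) ^ (4/3:ℝ) - 1) := rfl

lemma gam_c : (3/4) * (zz / 2 - 1) = (3/4) * ((2:ℝ) ^ (1/3:ℝ) - 1) := by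
  unfold zz
  have : (2:ℝ) ^ (4/3:ℝ) / 2 = 2 ^ (1/3:ℝ) := by
    nth_rewrite 2 [← Real.rpow_one (2:ℝ)]
    rw [← Real.rpow_sub (by norm_num)]; norm_num
  rw [this]

/-- from the parameter `T` to `x` -/
lemma to_x {a c : ℝ} (ha : 0 < a) {Dl : ℝ → ℝ} {γ : ℝ} (hγ : 0 ≤ γ) {e : ℕ → ℝ} (hP : ∀ n : ℕ, 0 < a * n^2 + c)
    (he : ∀ n : ℕ, e n = Dl (a * n^2 + c) / (a * n^2 + c) ^ (1/4:ℝ)) {ε : ℝ} (hε : 0 < ε)
    (h : ∃ c₂ : ℝ, 0 < c₂ ∧ ∃ T₀ : ℝ, ∀ T : ℝ, T₀ ≤ T → ∃ n : ℕ, T ≤ n ∧ (n:ℝ) ≤ T ^ (1 + ε) ∧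
      c₂ * (Real.log T) ^ (1/4:ℝ) * (Real.log (Real.log T)) ^ γ ≤ e n) :
    ∃ c₃ : ℝ, 0 < c₃ ∧ ∃ T₀ : ℝ, ∀ T : ℝ, T₀ ≤ T → ∃ n : ℕ, T ≤ n ∧ (n:ℝ) ≤ T ^ (1 + ε) ∧
      c₃ * ((a * n^2 + c) * Real.log (a * n^2 + c)) ^ (1/4:ℝ) * (Real.log (Real.log (a * n^2 + c))) ^ γ ≤
        Dl (a * n^2 + c) := by
  obtain ⟨c₂, hc₂, T₀, h⟩ := h
  set r : ℝ := 3 * (1 + ε) with hr
  have hr0 : 0 < r := by positivity
  have hr1 : 1 ≤ r := by rw [hr]; linarith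
  refine ⟨c₂ / (r ^ (1/4:ℝ) * 2 ^ γ), by positivity, ?_⟩
  have hlog := Real.tendsto_log_atTop
  have hll : Tendsto (fun T : ℝ => Real.log (Real.log T)) atTop atTop := hlog.comp hlog
  have ev := (((eventually_ge_atTop (max T₀ 1)).and (eventually_ge_atTop (a + |c|))).and
    (eventually_ge_atTop ((|c| + 1)/a))).and ((hll.eventually_ge_atTop (max 1 (Real.log r))).and (hlog.eventually_ge_atTop 1))
  obtain ⟨T2, hT2⟩ := eventually_atTop.mp ev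
  refine ⟨T2, ?_⟩
  intro T hT
  obtain ⟨⟨⟨w1, w2⟩, w3⟩, w4, w5⟩ := hT2 T hT
  obtain ⟨n, n1, n2, n3⟩ := h T ((le_max_left _ _).trans w1)
  refine ⟨n, n1, n2, ?_⟩
  have hT1 : 1 ≤ T := (le_max_right _ _).trans w1
  have hT0 : 0 < T := by linarith
  have hn1 : (1:ℝ) ≤ n := hT1.trans n1
  have hn0 : (0:ℝ) < n := by linarith
  set x : ℝ := a * n^2 + c with hx
  have hx0 : 0 < x := hP n
  have hxup : x ≤ (n:ℝ)^3 := by
    have h1 : a + |c| ≤ n := w2.trans n1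
    have h2 : c ≤ |c| * n^2 := by
      have := le_abs_self c
      have h3 : (1:ℝ) ≤ n^2 := by nlinarith
      have := abs_nonneg c
      nlinarith
    calc x ≤ (a + |c|) * n^2 := by rw [hx]; linarith
      _ ≤ n * n^2 := mul_le_mul_of_nonneg_right h1 (by positivity)
      _ = _ := by ring
  have hxlow : (n:ℝ) ≤ x := by
    have h1 : (|c| + 1)/a ≤ n := w3.trans n1
    rw [div_le_iff₀ ha] at h1
    have h2 : -|c| ≤ c := neg_abs_le c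
    have h3 : |c| ≤ |c| * n := by
      have := abs_nonneg c
      nlinarith
    have h4 : (|c| + 1) * n ≤ (n * a) * n := mul_le_mul_of_nonneg_right h1 hn0.le
    rw [hx]
    nlinarith
  have hlx : Real.log x ≤ r * Real.log T := by
    have h1 : Real.log x ≤ Real.log ((n:ℝ)^3) := Real.log_le_log hx0 hxup
    rw [Real.log_pow] at h1
    have h2 : Real.log n ≤ Real.log (T ^ (1 + ε)) := Real.log_le_log hn0 n2
    rw [Real.log_rpow hT0] at h2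
    rw [hr]
    push_cast at h1
    nlinarith
  have hlx2 : Real.log T ≤ Real.log x := Real.log_le_log hT0 (n1.trans hxlow)
  have hlT0 : 0 < Real.log T := by linarith
  have hlx0 : 0 < Real.log x := by linarith
  have hllx : Real.log (Real.log x) ≤ 2 * Real.log (Real.log T) := by
    have h1 : Real.log (Real.log x) ≤ Real.log (r * Real.log T) := Real.log_le_log hlx0 hlx
    rw [Real.log_mul hr0.ne' hlT0.ne'] at h1
    have h2 : Real.log r ≤ Real.log (Real.log T) := (le_max_right _ _).trans w4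
    linarith
  have hllT0 : 1 ≤ Real.log (Real.log T) := (le_max_left _ _).trans w4
  have hllx0 : 0 ≤ Real.log (Real.log x) := by
    have := Real.log_le_log hlT0 hlx2
    linarith
  rw [he n] at n3
  have hx4 : 0 < x ^ (1/4:ℝ) := by positivity
  rw [le_div_iff₀ hx4] at n3
  refine le_trans ?_ n3
  rw [Real.mul_rpow hx0.le hlx0.le]
  have g1 : (Real.log x) ^ (1/4:ℝ) ≤ r ^ (1/4:ℝ) * (Real.log T) ^ (1/4:ℝ) := by
    rw [← Real.mul_rpow hr0.le hlT0.le]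
    exact Real.rpow_le_rpow hlx0.le hlx (by norm_num)
  have g2 : (Real.log (Real.log x)) ^ γ ≤ 2 ^ γ * (Real.log (Real.log T)) ^ γ := by
    rw [← Real.mul_rpow (by norm_num) (by linarith)]
    exact Real.rpow_le_rpow hllx0 hllx hγ
  have g3 : 0 ≤ (Real.log (Real.log x)) ^ γ := Real.rpow_nonneg hllx0 γ
  have hllTγ : 0 ≤ (Real.log (Real.log T)) ^ γ := Real.rpow_nonneg (by linarith) γ
  calc c₂ / (r ^ (1/4:ℝ) * 2 ^ γ) * (x ^ (1/4:ℝ) * (Real.log x) ^ (1/4:ℝ)) * (Real.log (Real.log x)) ^ γ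
      = c₂ / (r ^ (1/4:ℝ) * 2 ^ γ) * x ^ (1/4:ℝ) * ((Real.log x) ^ (1/4:ℝ) * (Real.log (Real.log x)) ^ γ) := by ring
    _ ≤ c₂ / (r ^ (1/4:ℝ) * 2 ^ γ) * x ^ (1/4:ℝ) * ((r ^ (1/4:ℝ) * (Real.log T) ^ (1/4:ℝ)) * (2 ^ γ * (Real.log (Real.log T)) ^ γ)) := by
        apply mul_le_mul_of_nonneg_left _ (by positivity)
        exact mul_le_mul g1 g2 g3 (by positivity)
    _ = c₂ * (Real.log T) ^ (1/4:ℝ) * (Real.log (Real.log T)) ^ γ * x ^ (1/4:ℝ) := by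
        have h1 : r ^ (1/4:ℝ) ≠ 0 := by positivity
        have h2 : (2:ℝ) ^ γ ≠ 0 := by positivity
        field_simp

section
open Pool.Agent.H383.Div

lemma dv_prod {S : Finset ℕ} (hS : ∀ p ∈ S, p.Prime) : (2:ℝ) ^ S.card ≤ dv (∏ p ∈ S, p) := by
  classical
  have key : ∀ S : Finset ℕ, (∀ p ∈ S, p.Prime) → 2 ^ S.card ≤ (∏ p ∈ S, p).divisors.card := by
    intro S
    induction S using Finset.induction_on with
    | empty => intro _; simp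
    | insert q S hq ih =>
      intro h
      have hqp : q.Prime := h q (Finset.mem_insert_self _ _)
      have hS : ∀ p ∈ S, p.Prime := fun p hp => h p (Finset.mem_insert_of_mem hp)
      rw [Finset.prod_insert hq, Finset.card_insert_of_notMem hq]
      have hco : Nat.Coprime q (∏ p ∈ S, p) := by
        apply Nat.Coprime.prod_right
        intro p hp
        rw [Nat.coprime_primes hqp (hS p hp)]
        rintro rfl
        exact hq hp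
      rw [hco.card_divisors_mul, hqp.divisors, Finset.card_pair hqp.one_lt.ne, pow_succ, mul_comm]
      exact Nat.mul_le_mul_left _ (ih hS)
  unfold dv
  exact_mod_cast key S hS

lemma div_sets : ∃ c K0 : ℝ, 0 < c ∧ ∀ K : ℝ, K0 ≤ K → ∃ 𝓜 : Finset ℕ, (𝓜.card : ℝ) ≤ K ∧
      (∀ m ∈ 𝓜, 1 ≤ m ∧ (m:ℝ) ≤ K ^ 3) ∧
      c * K ^ (1/4:ℝ) * (Real.log K) ^ ((3/4) * (zz - 1)) ≤ ∑ m ∈ 𝓜, ad m := by
  have hpi := Real.pi_pos
  refine extract ad_nonneg (b := 1 / (Real.pi * √2)) (by positivity) (fun _ => True) (β := zz) (by linarith [zz_ge_two])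
    (count_sets (fun _ => True) zz_pos' mert_all) ?_
  intro S hS
  unfold ad
  have h1 := dv_prod (S := S) (fun p hp => (hS p hp).1)
  have h2 : 0 ≤ ((∏ p ∈ S, p : ℕ) : ℝ) ^ (-(3/4):ℝ) := by positivity
  have h3 : 0 ≤ 1 / (Real.pi * √2) := by positivity
  calc 1 / (Real.pi * √2) * 2 ^ S.card * ((∏ p ∈ S, p : ℕ) : ℝ) ^ (-(3/4):ℝ)
      = 2 ^ S.card * ((∏ p ∈ S, p : ℕ) : ℝ) ^ (-(3/4):ℝ) * (1 / (Real.pi * √2)) := by ring
    _ ≤ _ := by gcongr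

/-- **Omega result for the divisor problem** -/
theorem div_omega (hV : VorStmt) {a c : ℝ} (ha : 0 < a) (hP : ∀ n : ℕ, 0 < a * n^2 + c) {ε : ℝ} (hε : 0 < ε) :
    ∃ c₃ : ℝ, 0 < c₃ ∧ ∃ T₀ : ℝ, ∀ T : ℝ, T₀ ≤ T → ∃ n : ℕ, T ≤ n ∧ (n:ℝ) ≤ T ^ (1 + ε) ∧
      c₃ * ((a * n^2 + c) * Real.log (a * n^2 + c)) ^ (1/4:ℝ) *
        (Real.log (Real.log (a * n^2 + c))) ^ ((3/4) * ((2:ℝ) ^ (4/3:ℝ) - 1)) ≤ Dx (a * n^2 + c) := by
  have hP' : ∀ n : ℕ, 0 ≤ a * (n:ℝ)^2 + 0 * n + c := fun n => by have := hP n; linarith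
  obtain ⟨C₁, hC₁⟩ := sqrt_quad ha hP'
  have hsa : 0 < √a := Real.sqrt_pos.mpr ha
  have hRn : ∃ C₁ : ℝ, ∀ n : ℕ, |2 * √(a * n^2 + c) - n * (2 * √a)| ≤ C₁ / (n + 1) := by
    refine ⟨2 * C₁, fun n => ?_⟩
    have h1 := hC₁ n
    have e : 2 * √(a * (n:ℝ)^2 + c) - n * (2 * √a) = 2 * (√(a * (n:ℝ)^2 + 0 * n + c) - (0 / (2 * √a) + n * √a)) := by
      rw [zero_mul, add_zero, zero_div, zero_add]; ring
    rw [e, abs_mul, abs_of_pos (by norm_num : (0:ℝ) < 2), mul_div_assoc]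
    exact mul_le_mul_of_nonneg_left h1 (by norm_num)
  obtain ⟨A₀, hA0, hA⟩ := lin_bound2 (E := E2) ad_Bdw2 ad_zero wd_Wt (E2_SandW hV) (α := 2 * √a) (by positivity)
    (Rn := fun n : ℕ => 2 * √(a * n^2 + c)) hRn
  have hQ := ap_l1 (E := E2) ad_Bdw2 ad_zero wd_Wt (E2_SandW hV) (α := 2 * √a) (by positivity)
    (Rn := fun n : ℕ => 2 * √(a * n^2 + c)) hRn hA0 hA
  have hcos : Real.cos (Real.pi/4) = √2/2 := Real.cos_pi_div_four
  have hsin : Real.sin (Real.pi/4) = √2/2 := Real.sin_pi_div_four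
  have key := omega_abs (e := fun n : ℕ => E2 (2 * √(a * n^2 + c))) ad_nonneg (α := 2 * √a) (φ := Real.pi/4)
    (by rw [hcos, hsin, abs_of_pos (by positivity)]) (by rw [hcos]; positivity) hA0 hA hQ
    (γ := (3/4) * (zz - 1)) (by have := zz_ge_two; nlinarith) div_sets hε
  have hγ : (0:ℝ) ≤ (3/4) * ((2:ℝ) ^ (4/3:ℝ) - 1) := by
    have := zz_ge_two
    unfold zz at this
    linarith
  exact to_x ha (Dl := Dx) hγ (e := fun n : ℕ => E2 (2 * √(a * n^2 + c))) hP (by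
    intro n
    have e1 : E2 (2 * √(a * (n:ℝ)^2 + c)) = Ed √(a * (n:ℝ)^2 + c) := by
      unfold E2; congr 1; ring
    rw [e1, Ed_quad (hP n).le]) hε key

end

section
open Pool.Agent.H383.Div
open Pool.Agent.H383.Circ

lemma circ_sets : ∃ c K0 : ℝ, 0 < c ∧ ∀ K : ℝ, K0 ≤ K → ∃ 𝓜 : Finset ℕ, (𝓜.card : ℝ) ≤ K ∧
      (∀ m ∈ 𝓜, 1 ≤ m ∧ (m:ℝ) ≤ K ^ 3) ∧
      c * K ^ (1/4:ℝ) * (Real.log K) ^ ((3/4) * (zz / 2 - 1)) ≤ ∑ m ∈ 𝓜, ag m := by
  have hpi := Real.pi_pos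
  refine extract ag_nonneg (b := 1 / Real.pi) (by positivity) (fun p => p % 4 = 1) (β := zz / 2) (by linarith [zz_ge_two])
    (count_sets (fun p => p % 4 = 1) (by have := zz_pos'; positivity) mert_one) ?_
  intro S hS
  unfold ag
  have h1 := rA_prod_ge S (fun p hp => ⟨(hS p hp).1, by rcases (hS p hp).2.2 with h | h <;> exact h⟩)
  have h2 : 0 ≤ ((∏ p ∈ S, p : ℕ) : ℝ) ^ (-(3/4):ℝ) := by positivity
  have h4 : (√((∏ p ∈ S, p : ℕ) : ℝ)) ^ (-(3/2):ℝ) = ((∏ p ∈ S, p : ℕ) : ℝ) ^ (-(3/4):ℝ) := by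
    rw [Real.sqrt_eq_rpow, ← Real.rpow_mul (Nat.cast_nonneg _)]; norm_num
  rw [h4]
  calc 1 / Real.pi * 2 ^ S.card * ((∏ p ∈ S, p : ℕ) : ℝ) ^ (-(3/4):ℝ)
      = 2 ^ S.card / Real.pi * ((∏ p ∈ S, p : ℕ) : ℝ) ^ (-(3/4):ℝ) := by ring
    _ ≤ _ := by gcongr

/-- **Omega result for the circle problem** -/
theorem circ_omega {a c : ℝ} (ha : 0 < a) (hP : ∀ n : ℕ, 0 < a * n^2 + c) {ε : ℝ} (hε : 0 < ε) :
    ∃ c₃ : ℝ, 0 < c₃ ∧ ∃ T₀ : ℝ, ∀ T : ℝ, T₀ ≤ T → ∃ n : ℕ, T ≤ n ∧ (n:ℝ) ≤ T ^ (1 + ε) ∧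
      c₃ * ((a * n^2 + c) * Real.log (a * n^2 + c)) ^ (1/4:ℝ) *
        (Real.log (Real.log (a * n^2 + c))) ^ ((3/4) * ((2:ℝ) ^ (1/3:ℝ) - 1)) ≤ -Cx (a * n^2 + c) := by
  have hP' : ∀ n : ℕ, 0 ≤ a * (n:ℝ)^2 + 0 * n + c := fun n => by have := hP n; linarith
  obtain ⟨C₁, hC₁⟩ := sqrt_quad ha hP'
  have hsa : 0 < √a := Real.sqrt_pos.mpr ha
  have hRn : ∃ C₁ : ℝ, ∀ n : ℕ, |√(a * n^2 + c) - n * √a| ≤ C₁ / (n + 1) := by
    refine ⟨C₁, fun n => ?_⟩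
    have h1 := hC₁ n
    rw [zero_mul, add_zero, zero_div, zero_add] at h1
    exact h1
  obtain ⟨A₀, hA0, hA⟩ := lin_bound2 (E := En) ag_Bdw ag_zero wg_Wt En_SandW (α := √a) hsa
    (Rn := fun n : ℕ => √(a * n^2 + c)) hRn
  obtain ⟨c', C', D', hc', hC', hQ⟩ := ap_l1 (E := En) ag_Bdw ag_zero wg_Wt En_SandW (α := √a) hsa
    (Rn := fun n : ℕ => √(a * n^2 + c)) hRn hA0 hA
  have hcos : Real.cos (-(Real.pi/4)) = √2/2 := by rw [Real.cos_neg, Real.cos_pi_div_four]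
  have hsin : Real.sin (-(Real.pi/4)) = -(√2/2) := by rw [Real.sin_neg, Real.sin_pi_div_four]
  have hU : ∀ (R : ℝ) (M : ℕ), Gen.U ag (-(Real.pi/4)) R M = -Gen.U ag (3 * Real.pi/4) R M := by
    intro R M
    unfold Gen.U
    rw [← Finset.sum_neg_distrib]
    apply Finset.sum_congr rfl
    intro m _
    have : 2 * Real.pi * (R * √(m:ℝ)) - -(Real.pi/4) = 2 * Real.pi * (R * √(m:ℝ)) - 3 * Real.pi/4 + Real.pi := by ring
    rw [this, Real.cos_add_pi]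
    ring
  have key := omega_abs (e := fun n : ℕ => -En (√(a * n^2 + c))) ag_nonneg (α := √a) (φ := -(Real.pi/4))
    (by rw [hcos, hsin, abs_neg, abs_of_pos (by positivity)]) (by rw [hcos]; positivity) hA0
    (by intro n; rw [abs_neg]; exact hA n)
    ⟨c', C', D', hc', hC', fun M hM N => by
      have h1 := hQ M hM N
      refine le_trans (le_of_eq ?_) h1
      apply Finset.sum_congr rfl
      intro n _
      rw [hU, ← abs_neg]
      congr 1; ring⟩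
    (γ := (3/4) * (zz / 2 - 1)) (by have := zz_ge_two; nlinarith) circ_sets hε
  have hγ : (0:ℝ) ≤ (3/4) * ((2:ℝ) ^ (1/3:ℝ) - 1) := by
    rw [← gam_c]
    have := zz_ge_two
    nlinarith
  rw [gam_c] at key
  exact to_x ha (Dl := fun x => -Cx x) hγ (e := fun n : ℕ => -En (√(a * n^2 + c))) hP (by
    intro n
    rw [En_quad (hP n).le, neg_div]) hε key

end

end Pool.Agent.H452R2.Om
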