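import Mathlib
import Pool.Agent.H452R2.Om.O3b

open Filter Topology
open Pool.Agent.H383

namespace Pool.Agent.H452R2.Om

variable {ρ : ℝ}

lemma vc_le (n : ℕ) : vc n ≤ 6 * ((n:ℝ) + 1) ^ (-(3/4):ℝ) := by
  have h1 := vc_sum_le (N := n + 1) (by omega)
  have h2 : ((n:ℝ) + 1) * vc n ≤ ∑ i ∈ Finset.range (n+1), vc i := by
    have : ∑ i ∈ Finset.range (n+1), vc n ≤ ∑ i ∈ Finset.range (n+1), vc i := by
      apply Finset.sum_le_sum
      intro i hi
      exact vc_anti (by rw [Finset.mem_range] at hi; omega)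
    rw [Finset.sum_const, Finset.card_range, nsmul_eq_mul] at this
    push_cast at this
    exact this
  have hn : (0:ℝ) < (n:ℝ) + 1 := by positivity
  have h3 : ((n:ℝ) + 1) * vc n ≤ 6 * ((n:ℝ) + 1) ^ (1/4:ℝ) := by
    push_cast at h1
    linarith
  have h4 : ((n:ℝ) + 1) ^ (-(3/4):ℝ) = ((n:ℝ) + 1) ^ (1/4:ℝ) / ((n:ℝ) + 1) := by
    rw [show (-(3/4):ℝ) = 1/4 - 1 by norm_num, Real.rpow_sub hn, Real.rpow_one]
  rw [h4, ← mul_div_assoc, le_div_iff₀ hn]
  linarith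

/-- the tail -/
lemma L_tail2 {T Z A₀ A₁ : ℝ} (hT : 1 ≤ T) {e : ℕ → ℝ} (hA : ∀ n : ℕ, |e n| ≤ A₀ * (n + 1)) (hA1 : 0 ≤ A₁)
    (hmean : ∀ N : ℕ, ∑ n ∈ Finset.range N, |e n| ≤ A₁ * N + A₁) :
    L (Real.exp (-(1/T))) (fun n : ℕ => if Z < n then |e n| else 0) ≤ Real.exp (-(Z/(2*T))) * (5 * A₁ * T ^ (1/4:ℝ)) := by
  have hT0 : 0 < T := by linarith
  set ρ := Real.exp (-(1/T)) with hρ
  set σ := Real.exp (-(1/(2*T))) with hσ
  have hσ0 : 0 ≤ σ := (Real.exp_pos _).le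
  have hσ1 : σ < 1 := by
    rw [hσ, Real.exp_lt_one_iff]
    have : 0 < 1/(2*T) := by positivity
    linarith
  have hterm : ∀ n : ℕ, v ρ n * (if Z < n then |e n| else 0) ≤ Real.exp (-(Z/(2*T))) * (v σ n * |e n|) := by
    intro n
    split_ifs with h
    · have h2 : v ρ n ≤ Real.exp (-(Z/(2*T))) * v σ n := by
        unfold v
        have h3 : ρ^n ≤ Real.exp (-(Z/(2*T))) * σ^n := by
          rw [hρ, hσ, ← Real.exp_nat_mul, ← Real.exp_nat_mul, ← Real.exp_add]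
          apply Real.exp_le_exp.mpr
          have e1 : (n:ℝ) * -(1/T) = -(n/(2*T)) + (n:ℝ) * -(1/(2*T)) := by field_simp; ring
          rw [e1]
          have e2 : Z/(2*T) ≤ n/(2*T) := by
            apply div_le_div_of_nonneg_right h.le (by positivity)
          linarith
        calc vc n * ρ^n ≤ vc n * (Real.exp (-(Z/(2*T))) * σ^n) := mul_le_mul_of_nonneg_left h3 (vc_nonneg n)
          _ = _ := by ring
      calc v ρ n * |e n| ≤ (Real.exp (-(Z/(2*T))) * v σ n) * |e n| := mul_le_mul_of_nonneg_right h2 (abs_nonneg _)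
        _ = _ := by ring
    · rw [mul_zero]
      have := v_nonneg hσ0 n
      positivity
  have hs : Summable (fun n => v σ n * |e n|) := L_summable1 hσ0 hσ1 (B := A₀) (fun n => by rw [abs_abs]; exact hA n)
  have hs0 : Summable (fun n : ℕ => v ρ n * (if Z < n then |e n| else 0)) := by
    apply Summable.of_nonneg_of_le _ hterm (hs.mul_left _)
    intro n
    apply mul_nonneg (v_nonneg (Real.exp_pos _).le n)
    split_ifs
    · exact abs_nonneg _
    · exact le_rfl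
  unfold L
  refine (hs0.tsum_le_tsum hterm (hs.mul_left _)).trans ?_
  rw [tsum_mul_left]
  apply mul_le_mul_of_nonneg_left _ (Real.exp_pos _).le
  have h1 := L_abel hσ0 hσ1 (g := fun n => |e n|) (fun n => abs_nonneg _) hA1 hmean
  have h2 := L1_le (T := 2 * T) (by linarith)
  rw [show 1/(2*T) = 1/(2*T) from rfl, ← hσ] at h2
  have h3 : (2 * T) ^ (1/4:ℝ) ≤ (3/2) * T ^ (1/4:ℝ) := by
    rw [Real.mul_rpow (by norm_num) hT0.le]
    apply mul_le_mul_of_nonneg_right _ (by positivity)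
    calc (2:ℝ) ^ (1/4:ℝ) ≤ ((3/2:ℝ)^4) ^ (1/4:ℝ) := Real.rpow_le_rpow (by norm_num) (by norm_num) (by norm_num)
      _ = 3/2 := by rw [← Real.rpow_natCast, ← Real.rpow_mul (by norm_num)]; norm_num
  have h4 : 1 ≤ T ^ (1/4:ℝ) := Real.one_le_rpow hT (by norm_num)
  have h5 : A₁ * L σ (fun _ => 1) ≤ A₁ * (3 * T ^ (1/4:ℝ)) := mul_le_mul_of_nonneg_left (by linarith) hA1
  have h6 : A₁ ≤ A₁ * T ^ (1/4:ℝ) := by nlinarith
  unfold L at h1 h5
  have h7 : 0 ≤ A₁ * T ^ (1/4:ℝ) := by positivity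
  linarith

lemma err_tendsto2 {A₁ C c1 D2 : ℝ} (hc1 : 0 < c1) :
    Tendsto (fun T : ℝ => A₁ * T ^ (-(1/8):ℝ) + 2 * C * T ^ (-(c1/2)) + C * D2 * T ^ (-(1/8):ℝ)) atTop (𝓝 0) := by
  have h1 : ∀ y : ℝ, 0 < y → Tendsto (fun T : ℝ => T ^ (-y)) atTop (𝓝 0) := fun y hy => tendsto_rpow_neg_atTop hy
  have t2 := (h1 (1/8) (by norm_num)).const_mul A₁
  have t4 := (h1 (c1/2) (by positivity)).const_mul (2 * C)
  have t5 := (h1 (1/8) (by norm_num)).const_mul (C * D2)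
  have := (t2.add t4).add t5
  simpa using this

open Classical in
/-- the core inequality -/
lemma core_ineq (h0 : 0 ≤ ρ) (h1 : ρ < 1) {e a : ℕ → ℝ} (ha : ∀ m, 0 ≤ a m) {φ α : ℝ} (hφ : |Real.sin φ| ≤ Real.cos φ)
    {A₀ : ℝ} (hA0 : 0 < A₀) (hA : ∀ n : ℕ, |e n| ≤ A₀ * (n + 1)) {c C : ℝ} {D M : ℕ} (hC : 0 < C)
    (hQ : ∀ N : ℕ, ∑ n ∈ Finset.range N, |e n - Gen.U a φ (n * α) M| ≤ C * ((M:ℝ) ^ (-c) * N + (M:ℝ) ^ D))
    {S : Finset ℕ} (hSM : S ⊆ Finset.Icc 1 (M^2)) {B : ℝ} (hB : 0 ≤ B)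
    (hF : B + 1 ≤ (1/2) * Real.cos φ * ∑ m ∈ S, a m) (Ta Tb : ℝ) :
    Ds ρ (fun m => α * √(m:ℝ)) S ≤ (2:ℝ) ^ S.card * L ρ (fun n : ℕ => if (n:ℝ) < Ta then |e n| else 0) +
      (2:ℝ) ^ S.card * L ρ (fun n : ℕ => if Tb < n then |e n| else 0) +
      (2:ℝ) ^ S.card * L ρ (fun n : ℕ => if n ∈ (Finset.range (⌊Tb⌋₊ + 1)).filter (fun n : ℕ => Ta ≤ n ∧ B ≤ e n) then |e n| else 0) +
      (2:ℝ) ^ S.card * (C * (M:ℝ) ^ (-c) * L ρ (fun _ => 1) + C * (M:ℝ)^D) := by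
  set lam : ℕ → ℝ := fun m => α * √(m:ℝ) with hlam
  set K2 : ℝ := (2:ℝ) ^ S.card with hK2
  have hK20 : 0 < K2 := by positivity
  set P : ℕ → ℝ := Pr lam S with hP
  have hP0 : ∀ n, 0 ≤ P n := Pr_nonneg lam S
  have hP2 : ∀ n, P n ≤ K2 := Pr_le lam S
  set U : ℕ → ℝ := fun n => Gen.U a φ (n * α) M with hU
  set AM : ℝ := ∑ m ∈ Finset.Icc 1 (M^2), a m with hAM
  have hAM0 : 0 ≤ AM := Finset.sum_nonneg (fun m _ => ha m)
  have hUb : ∀ n, |U n| ≤ AM := by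
    intro n
    simp only [hU]
    unfold Gen.U
    refine (Finset.abs_sum_le_sum_abs _ _).trans ?_
    apply Finset.sum_le_sum
    intro m _
    rw [abs_mul, abs_of_nonneg (ha m)]
    have := Real.abs_cos_le_one (2 * Real.pi * ((n:ℝ) * α * √(m:ℝ)) - φ)
    have := ha m
    nlinarith
  -- (1) the main term
  have hmain : (B + 1) * Ds ρ lam S ≤ L ρ (fun n => P n * U n) := by
    have e1 := L_U h0 h1 a φ α S M
    have e2 : L ρ (fun n => P n * U n) = ∑ m ∈ Finset.Icc 1 (M^2), a m * Ns ρ lam S φ (lam m) := e1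
    rw [e2]
    have hD0 : 0 ≤ Ds ρ lam S := L_nonneg h0 hP0
    calc (B + 1) * Ds ρ lam S ≤ ((1/2) * Real.cos φ * ∑ m ∈ S, a m) * Ds ρ lam S := mul_le_mul_of_nonneg_right hF hD0
      _ = ∑ m ∈ S, a m * ((1/2) * Real.cos φ * Ds ρ lam S) := by
          rw [Finset.mul_sum, Finset.sum_mul]
          apply Finset.sum_congr rfl
          intro m _; ring
      _ ≤ ∑ m ∈ S, a m * Ns ρ lam S φ (lam m) := by
          apply Finset.sum_le_sum
          intro m hm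
          exact mul_le_mul_of_nonneg_left (Ns_main h0 h1 lam hφ hm) (ha m)
      _ ≤ _ := by
          apply Finset.sum_le_sum_of_subset_of_nonneg hSM
          intro m _ _
          exact mul_nonneg (ha m) (Ns_nonneg h0 h1 lam S hφ _)
  -- (2) the approximation error
  have hd : ∀ n : ℕ, |e n - U n| ≤ (A₀ + AM) * (n + 1) := by
    intro n
    have h3 := hA n
    have h4 := hUb n
    have hn : (0:ℝ) ≤ n := Nat.cast_nonneg n
    calc |e n - U n| ≤ |e n| + |U n| := abs_sub _ _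
      _ ≤ A₀ * (n+1) + AM * (n + 1) := by nlinarith
      _ = _ := by ring
  have herr1 : L ρ (fun n => P n * (U n - e n)) ≤ K2 * (C * (M:ℝ) ^ (-c) * L ρ (fun _ => 1) + C * (M:ℝ)^D) := by
    have h3 : L ρ (fun n => P n * (U n - e n)) ≤ L ρ (fun n => K2 * |e n - U n|) := by
      apply L_mono1 h0 h1 (B := K2 * (A₀ + AM)) (B' := K2 * (A₀ + AM))
      · intro n
        rw [abs_mul, abs_of_nonneg (hP0 n), abs_sub_comm, mul_assoc]
        exact mul_le_mul (hP2 n) (hd n) (abs_nonneg _) hK20.le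
      · intro n
        rw [abs_mul, abs_of_pos hK20, abs_abs, mul_assoc]
        exact mul_le_mul_of_nonneg_left (hd n) hK20.le
      · intro n
        calc P n * (U n - e n) ≤ P n * |e n - U n| := by
              apply mul_le_mul_of_nonneg_left _ (hP0 n)
              rw [abs_sub_comm]; exact le_abs_self _
          _ ≤ _ := mul_le_mul_of_nonneg_right (hP2 n) (abs_nonneg _)
    refine h3.trans ?_
    rw [L_smul]
    apply mul_le_mul_of_nonneg_left _ hK20.le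
    apply L_abel h0 h1 (fun n => abs_nonneg _) (by positivity)
    intro N
    have := hQ N
    calc _ ≤ _ := this
      _ = _ := by ring
  -- the set of large values
  set G : Finset ℕ := (Finset.range (⌊Tb⌋₊ + 1)).filter (fun n : ℕ => Ta ≤ n ∧ B ≤ e n) with hG
  -- (3) the upper bound
  have hup : L ρ (fun n => P n * e n) ≤ B * Ds ρ lam S + K2 * L ρ (fun n : ℕ => if (n:ℝ) < Ta then |e n| else 0) +
      K2 * L ρ (fun n : ℕ => if Tb < n then |e n| else 0) + K2 * L ρ (fun n : ℕ => if n ∈ G then |e n| else 0) := by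
    have hf1 : ∀ n : ℕ, |B * P n| ≤ (B * K2) * (n + 1) := by
      intro n
      rw [abs_mul, abs_of_nonneg hB, abs_of_nonneg (hP0 n)]
      have h3 := mul_le_mul_of_nonneg_left (hP2 n) hB
      have hn : (0:ℝ) ≤ n := Nat.cast_nonneg n
      have h4 : 0 ≤ B * K2 := by positivity
      nlinarith
    have hf2 : ∀ n : ℕ, |K2 * (if (n:ℝ) < Ta then |e n| else 0)| ≤ (K2 * A₀) * (n + 1) := by
      intro n
      rw [abs_mul, abs_of_pos hK20, mul_assoc]
      apply mul_le_mul_of_nonneg_left _ hK20.le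
      split_ifs
      · rw [abs_abs]; exact hA n
      · rw [abs_zero]; positivity
    have hf3 : ∀ n : ℕ, |K2 * (if Tb < (n:ℝ) then |e n| else 0)| ≤ (K2 * A₀) * (n + 1) := by
      intro n
      rw [abs_mul, abs_of_pos hK20, mul_assoc]
      apply mul_le_mul_of_nonneg_left _ hK20.le
      split_ifs
      · rw [abs_abs]; exact hA n
      · rw [abs_zero]; positivity
    have hf4 : ∀ n : ℕ, |K2 * (if n ∈ G then |e n| else 0)| ≤ (K2 * A₀) * (n + 1) := by
      intro n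
      rw [abs_mul, abs_of_pos hK20, mul_assoc]
      apply mul_le_mul_of_nonneg_left _ hK20.le
      split_ifs
      · rw [abs_abs]; exact hA n
      · rw [abs_zero]; positivity
    have e1 : L ρ (fun n : ℕ => ((B * P n + K2 * (if (n:ℝ) < Ta then |e n| else 0)) +
        K2 * (if Tb < (n:ℝ) then |e n| else 0)) + K2 * (if n ∈ G then |e n| else 0)) =
        B * Ds ρ lam S + K2 * L ρ (fun n : ℕ => if (n:ℝ) < Ta then |e n| else 0) +
        K2 * L ρ (fun n : ℕ => if Tb < n then |e n| else 0) + K2 * L ρ (fun n : ℕ => if n ∈ G then |e n| else 0) := by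
      rw [L_add1 (B := B * K2 + K2 * A₀ + K2 * A₀) (B' := K2 * A₀) h0 h1 _ hf4,
        L_add1 (B := B * K2 + K2 * A₀) (B' := K2 * A₀) h0 h1 _ hf3, L_add1 h0 h1 hf1 hf2, L_smul, L_smul, L_smul, L_smul]
      · rfl
      · intro n
        refine (abs_add_le _ _).trans ?_
        rw [add_mul]
        exact add_le_add (hf1 n) (hf2 n)
      · intro n
        refine (abs_add_le _ _).trans ?_
        rw [add_mul]
        apply add_le_add _ (hf3 n)
        refine (abs_add_le _ _).trans ?_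
        rw [add_mul]
        exact add_le_add (hf1 n) (hf2 n)
    rw [← e1]
    apply L_mono1 h0 h1 (B := K2 * A₀) (B' := B * K2 + K2 * A₀ + K2 * A₀ + K2 * A₀)
    · intro n
      rw [abs_mul, abs_of_nonneg (hP0 n), mul_assoc]
      exact mul_le_mul (hP2 n) (hA n) (abs_nonneg _) hK20.le
    · intro n
      refine (abs_add_le _ _).trans ?_
      rw [add_mul]
      apply add_le_add _ (hf4 n)
      refine (abs_add_le _ _).trans ?_
      rw [add_mul]
      apply add_le_add _ (hf3 n)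
      refine (abs_add_le _ _).trans ?_
      rw [add_mul]
      exact add_le_add (hf1 n) (hf2 n)
    · intro n
      have hz1 : 0 ≤ B * P n := mul_nonneg hB (hP0 n)
      have p1 : 0 ≤ K2 * (if (n:ℝ) < Ta then |e n| else 0) := by
        apply mul_nonneg hK20.le
        split_ifs
        · exact abs_nonneg _
        · exact le_rfl
      have p2 : 0 ≤ K2 * (if Tb < (n:ℝ) then |e n| else 0) := by
        apply mul_nonneg hK20.le
        split_ifs
        · exact abs_nonneg _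
        · exact le_rfl
      have p3 : 0 ≤ K2 * (if n ∈ G then |e n| else 0) := by
        apply mul_nonneg hK20.le
        split_ifs
        · exact abs_nonneg _
        · exact le_rfl
      have h5 : P n * e n ≤ K2 * |e n| := by
        calc P n * e n ≤ P n * |e n| := mul_le_mul_of_nonneg_left (le_abs_self _) (hP0 n)
          _ ≤ _ := mul_le_mul_of_nonneg_right (hP2 n) (abs_nonneg _)
      by_cases c1' : (n:ℝ) < Ta
      · rw [if_pos c1'] at p1 ⊢
        linarith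
      · by_cases c2 : Tb < (n:ℝ)
        · rw [if_pos c2] at p2 ⊢
          linarith
        · by_cases c3 : n ∈ G
          · rw [if_pos c3] at p3 ⊢
            linarith
          · push Not at c1' c2
            have c4 : e n < B := by
              by_contra hcon
              push Not at hcon
              apply c3
              rw [hG, Finset.mem_filter, Finset.mem_range]
              refine ⟨?_, c1', hcon⟩
              have : n ≤ ⌊Tb⌋₊ := Nat.le_floor c2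
              omega
            have h6 : P n * e n ≤ B * P n := by
              rw [mul_comm]
              exact mul_le_mul_of_nonneg_right c4.le (hP0 n)
            linarith
  have hPd : ∀ n : ℕ, |P n * (U n - e n)| ≤ (K2 * (A₀ + AM)) * (n + 1) := by
    intro n
    rw [abs_mul, abs_of_nonneg (hP0 n), abs_sub_comm, mul_assoc]
    exact mul_le_mul (hP2 n) (hd n) (abs_nonneg _) hK20.le
  have hPe : ∀ n : ℕ, |P n * e n| ≤ (K2 * A₀) * (n + 1) := by
    intro n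
    rw [abs_mul, abs_of_nonneg (hP0 n), mul_assoc]
    exact mul_le_mul (hP2 n) (hA n) (abs_nonneg _) hK20.le
  have hsplit : L ρ (fun n => P n * U n) = L ρ (fun n => P n * e n) + L ρ (fun n => P n * (U n - e n)) := by
    rw [← L_add1 h0 h1 hPe hPd]
    congr 1; funext n; ring
  linarith

/-- the initial segment -/
lemma ini_bound (h0 : 0 ≤ ρ) (h1 : ρ < 1) {e : ℕ → ℝ} {A₁ Ta : ℝ} (hA10 : 0 < A₁) (hTa1 : 1 ≤ Ta)
    (hmean : ∀ N : ℕ, ∑ n ∈ Finset.range N, |e n| ≤ A₁ * N + A₁) :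
    L ρ (fun n : ℕ => if (n:ℝ) < Ta then |e n| else 0) ≤ A₁ * (12 * Ta ^ (1/4:ℝ)) + A₁ := by
    have hTa0 : 0 < Ta := by linarith
    set N₁ : ℕ := ⌈Ta⌉₊ with hN₁
    have hN₁1 : 1 ≤ N₁ := by
      have : (1:ℝ) ≤ N₁ := hTa1.trans (Nat.le_ceil _)
      exact_mod_cast this
    have hN₁2 : (N₁:ℝ) ≤ 2 * Ta := by
      have := Nat.ceil_lt_add_one hTa0.le
      rw [← hN₁] at this
      linarith
    have e1 : L ρ (fun n : ℕ => if (n:ℝ) < Ta then |e n| else 0) =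
        ∑ n ∈ Finset.range N₁, v ρ n * (if (n:ℝ) < Ta then |e n| else 0) := by
      unfold L
      apply tsum_eq_sum
      intro n hn
      rw [Finset.mem_range, not_lt] at hn
      have : ¬ ((n:ℝ) < Ta) := by
        push Not
        exact Nat.ceil_le.mp hn
      simp only []
      rw [if_neg this, mul_zero]
    rw [e1]
    have e2 : ∑ n ∈ Finset.range N₁, v ρ n * (if (n:ℝ) < Ta then |e n| else 0) ≤ ∑ n ∈ Finset.range N₁, v ρ n * |e n| := by
      apply Finset.sum_le_sum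
      intro n _
      apply mul_le_mul_of_nonneg_left _ (v_nonneg h0 n)
      split_ifs
      · exact le_rfl
      · exact abs_nonneg _
    refine e2.trans ?_
    have e3 := abel_fin (v_anti h0 h1.le) (v_nonneg h0) hmean N₁
    rw [v_zero, mul_one] at e3
    refine e3.trans ?_
    have e4 : ∑ n ∈ Finset.range N₁, v ρ n ≤ ∑ n ∈ Finset.range N₁, vc n := by
      apply Finset.sum_le_sum
      intro n _
      unfold v
      have h5 : ρ^n ≤ 1 := pow_le_one₀ h0 h1.le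
      have := vc_nonneg n
      nlinarith
    have e5 := vc_sum_le hN₁1
    have e6 : (N₁:ℝ) ^ (1/4:ℝ) ≤ 2 * Ta ^ (1/4:ℝ) := by
      calc (N₁:ℝ) ^ (1/4:ℝ) ≤ (2 * Ta) ^ (1/4:ℝ) := Real.rpow_le_rpow (Nat.cast_nonneg _) hN₁2 (by norm_num)
        _ = 2 ^ (1/4:ℝ) * Ta ^ (1/4:ℝ) := Real.mul_rpow (by norm_num) (by positivity)
        _ ≤ 2 * Ta ^ (1/4:ℝ) := by
            apply mul_le_mul_of_nonneg_right _ (by positivity)
            calc (2:ℝ) ^ (1/4:ℝ) ≤ 2 ^ (1:ℝ) := Real.rpow_le_rpow_of_exponent_le (by norm_num) (by norm_num)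
              _ = 2 := Real.rpow_one 2
    have e7 : ∑ n ∈ Finset.range N₁, v ρ n ≤ 12 * Ta ^ (1/4:ℝ) := by linarith
    have := mul_le_mul_of_nonneg_left e7 hA10.le
    linarith

/-- the set of large values -/
lemma G_bound (h0 : 0 ≤ ρ) (h1 : ρ < 1) {e : ℕ → ℝ} {A₂ Ta Tb : ℝ} (hA2 : 0 < A₂) (hTa0 : 0 < Ta) (hTb : 1 ≤ Tb)
    (hS2 : ∀ N : ℕ, ∑ n ∈ Finset.range N, (e n)^2 ≤ A₂ * N + A₂) {G : Finset ℕ} (hGa : ∀ n ∈ G, Ta ≤ n)
    (hGb : G ⊆ Finset.range (⌊Tb⌋₊ + 1)) [DecidablePred (· ∈ G)] :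
    L ρ (fun n : ℕ => if n ∈ G then |e n| else 0) ≤ 6 * Ta ^ (-(3/4):ℝ) * √((G.card:ℝ) * (3 * A₂ * Tb)) := by
    have e1 : L ρ (fun n : ℕ => if n ∈ G then |e n| else 0) = ∑ n ∈ G, v ρ n * |e n| := by
      unfold L
      rw [tsum_eq_sum (s := G)]
      · apply Finset.sum_congr rfl
        intro n hn
        show v ρ n * (if n ∈ G then |e n| else 0) = _
        rw [if_pos hn]
      · intro n hn
        show v ρ n * (if n ∈ G then |e n| else 0) = _
        rw [if_neg hn, mul_zero]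
    rw [e1]
    have e2 : ∑ n ∈ G, v ρ n * |e n| ≤ ∑ n ∈ G, (6 * Ta ^ (-(3/4):ℝ)) * |e n| := by
      apply Finset.sum_le_sum
      intro n hn
      have hnTa := hGa n hn
      apply mul_le_mul_of_nonneg_right _ (abs_nonneg _)
      have h5 : v ρ n ≤ vc n := by
        unfold v
        have h5 : ρ^n ≤ 1 := pow_le_one₀ h0 h1.le
        have := vc_nonneg n
        nlinarith
      refine h5.trans ((vc_le n).trans ?_)
      apply mul_le_mul_of_nonneg_left _ (by norm_num)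
      apply Real.rpow_le_rpow_of_nonpos hTa0 _ (by norm_num)
      linarith [hnTa]
    refine e2.trans ?_
    rw [← Finset.mul_sum]
    apply mul_le_mul_of_nonneg_left _ (by positivity)
    apply Real.le_sqrt_of_sq_le
    have hcs := sq_sum_le_card_mul_sum_sq (s := G) (f := fun n => |e n|)
    refine hcs.trans ?_
    apply mul_le_mul_of_nonneg_left _ (Nat.cast_nonneg _)
    have e3 : ∑ n ∈ G, |e n|^2 ≤ ∑ n ∈ Finset.range (⌊Tb⌋₊ + 1), (e n)^2 := by
      simp only [sq_abs]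
      apply Finset.sum_le_sum_of_subset_of_nonneg hGb
      intro n _ _; exact sq_nonneg _
    refine e3.trans ((hS2 _).trans ?_)
    have h6 : (⌊Tb⌋₊ : ℝ) ≤ Tb := Nat.floor_le (by linarith)
    push_cast
    nlinarith

/-- the final numerical step -/
lemma fin_num {T A₂ lam0 lam1 lam2 L₂ kk g K2 Ta Tb : ℝ} (hT0 : 0 < T) (hA2 : 0 < A₂) (hlam20 : 0 < lam2) (hkk1 : 1 ≤ kk)
    (hlam0 : lam0 = (3/2) * lam1 + 3 + L₂ + lam2) (hg0 : 0 ≤ g) (hK20 : 0 < K2) (hK2e : K2 ≤ Real.exp kk)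
    (hTa : Ta = T * Real.exp (-(lam1 * kk))) (hTb : Tb = lam2 * kk * T) (hL20 : 0 < L₂)
    (hL2 : Real.exp L₂ = 1296 * A₂ * lam2 + 1)
    (hfin : T ^ (1/4:ℝ) * (1/2) ≤ K2 * (6 * Ta ^ (-(3/4):ℝ) * √(g * (3 * A₂ * Tb)))) :
    T * Real.exp (-(lam0 * kk)) ≤ g := by
  have hTb0 : 0 < Tb := by rw [hTb]; positivity
  have hTa0 : 0 < Ta := by rw [hTa]; positivity
  have hsq : (T ^ (1/4:ℝ) * (1/2))^2 ≤ (K2 * (6 * Ta ^ (-(3/4):ℝ) * √(g * (3 * A₂ * Tb))))^2 :=
    pow_le_pow_left₀ (by positivity) hfin 2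
  have hsq2 : (K2 * (6 * Ta ^ (-(3/4):ℝ) * √(g * (3 * A₂ * Tb))))^2 = K2^2 * 36 * (Ta ^ (-(3/4):ℝ))^2 * (g * (3 * A₂ * Tb)) := by
    rw [mul_pow, mul_pow, mul_pow, Real.sq_sqrt (by positivity)]; ring
  rw [hsq2] at hsq
  have hT2' : (T ^ (1/4:ℝ) * (1/2))^2 = T ^ (1/2:ℝ) / 4 := by
    rw [mul_pow, ← Real.rpow_natCast (T ^ (1/4:ℝ)) 2, ← Real.rpow_mul hT0.le]; norm_num; ring
  have hTa2 : (Ta ^ (-(3/4):ℝ))^2 = T ^ (-(3/2):ℝ) * Real.exp ((3/2) * (lam1 * kk)) := by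
    rw [← Real.rpow_natCast, ← Real.rpow_mul hTa0.le, hTa, Real.mul_rpow hT0.le (Real.exp_pos _).le, ← Real.exp_mul]
    congr 1
    · norm_num
    · congr 1; push_cast; ring
  have hK22 : K2^2 ≤ Real.exp (2 * kk) := by
    calc K2^2 ≤ (Real.exp kk)^2 := pow_le_pow_left₀ hK20.le hK2e 2
      _ = _ := by rw [← Real.exp_nat_mul]; push_cast; rfl
  rw [hT2', hTa2] at hsq
  have hkke : kk ≤ Real.exp kk := by
    have := Real.add_one_le_exp kk
    linarith
  have hcc : 1296 * A₂ * lam2 ≤ Real.exp (L₂ * kk) := by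
    have h6 : Real.exp L₂ ≤ Real.exp (L₂ * kk) := by
      apply Real.exp_le_exp.mpr; nlinarith
    linarith
  -- final inequality for g
  have h5 : T ^ (1/2:ℝ) / 4 ≤ (Real.exp (2 * kk)) * 36 * (T ^ (-(3/2):ℝ) * Real.exp ((3/2) * (lam1 * kk))) * (g * (3 * A₂ * Tb)) := by
    refine hsq.trans ?_
    gcongr
  have h6 : (Real.exp (2 * kk)) * 36 * (T ^ (-(3/2):ℝ) * Real.exp ((3/2) * (lam1 * kk))) * (g * (3 * A₂ * Tb)) =
      T ^ (-(1/2):ℝ) * (g * (Real.exp (2 * kk) * Real.exp ((3/2) * (lam1 * kk)) * (108 * A₂ * lam2 * kk))) := by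
    have : T ^ (-(1/2):ℝ) = T ^ (-(3/2):ℝ) * T := by
      nth_rewrite 3 [← Real.rpow_one T]
      rw [← Real.rpow_add hT0]; norm_num
    rw [this, hTb]; ring
  rw [h6] at h5
  have h7 : Real.exp (2 * kk) * Real.exp ((3/2) * (lam1 * kk)) * (432 * A₂ * lam2 * kk) ≤ Real.exp (lam0 * kk) := by
    have h8 : 432 * A₂ * lam2 * kk ≤ Real.exp (L₂ * kk) * Real.exp kk := by
      have h9 : 432 * A₂ * lam2 ≤ Real.exp (L₂ * kk) := by
        have : 0 < A₂ * lam2 := by positivity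
        linarith
      exact mul_le_mul h9 hkke (by linarith) (Real.exp_pos _).le
    calc Real.exp (2 * kk) * Real.exp ((3/2) * (lam1 * kk)) * (432 * A₂ * lam2 * kk)
        ≤ Real.exp (2 * kk) * Real.exp ((3/2) * (lam1 * kk)) * (Real.exp (L₂ * kk) * Real.exp kk) :=
          mul_le_mul_of_nonneg_left h8 (by positivity)
      _ = Real.exp (2 * kk + (3/2) * (lam1 * kk) + (L₂ * kk + kk)) := by
          rw [← Real.exp_add, ← Real.exp_add, ← Real.exp_add]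
      _ ≤ _ := by
          apply Real.exp_le_exp.mpr
          rw [hlam0]
          have : 0 ≤ lam2 * kk := by positivity
          linarith
  have h10 : T ^ (1/2:ℝ) ≤ T ^ (-(1/2):ℝ) * (g * Real.exp (lam0 * kk)) := by
    have h11 : T ^ (-(1/2):ℝ) * (g * (Real.exp (2 * kk) * Real.exp ((3/2) * (lam1 * kk)) * (432 * A₂ * lam2 * kk))) ≤
        T ^ (-(1/2):ℝ) * (g * Real.exp (lam0 * kk)) := by gcongr
    have h12 : T ^ (-(1/2):ℝ) * (g * (Real.exp (2 * kk) * Real.exp ((3/2) * (lam1 * kk)) * (432 * A₂ * lam2 * kk))) =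
      4 * (T ^ (-(1/2):ℝ) * (g * (Real.exp (2 * kk) * Real.exp ((3/2) * (lam1 * kk)) * (108 * A₂ * lam2 * kk)))) := by ring
    linarith
  have h13 : T ^ (1/2:ℝ) * T ^ (1/2:ℝ) ≤ T ^ (1/2:ℝ) * (T ^ (-(1/2):ℝ) * (g * Real.exp (lam0 * kk))) :=
    mul_le_mul_of_nonneg_left h10 (by positivity)
  have h14 : T ^ (1/2:ℝ) * T ^ (1/2:ℝ) = T := by rw [← Real.rpow_add hT0]; norm_num
  have h15 : T ^ (1/2:ℝ) * (T ^ (-(1/2):ℝ) * (g * Real.exp (lam0 * kk))) = g * Real.exp (lam0 * kk) := by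
    rw [← mul_assoc, ← Real.rpow_add hT0]; norm_num
  rw [h14, h15] at h13
  rw [Real.exp_neg, ← div_eq_mul_inv, div_le_iff₀ (Real.exp_pos _)]
  exact h13

/-- the three sizes -/
lemma sizes {T A₁ L₁ kk K2 Ta Tb κ : ℝ} (hT1' : 1 ≤ T) (hA10 : 0 < A₁) (hL10 : 0 < L₁) (hkk1 : 1 ≤ kk)
    (hL1d : L₁ = Real.log (200 * A₁ + 1)) (hκc : κ ≤ 1/16)
    (hK2e : K2 ≤ Real.exp kk) (h2K : K2 ≤ T ^ κ) (hTa : Ta = T * Real.exp (-((4 * (1 + L₁)) * kk)))
    (hTb : Tb = (2 * (1 + L₁)) * kk * T) :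
    K2 * (A₁ * (12 * Ta ^ (1/4:ℝ)) + A₁) ≤ T ^ (1/4:ℝ) * (12/200 + A₁ * T ^ (-(1/8):ℝ)) ∧
    K2 * (Real.exp (-(Tb/(2*T))) * (5 * A₁ * T ^ (1/4:ℝ))) ≤ T ^ (1/4:ℝ) * (5/200) := by
  have hT0 : 0 < T := by linarith
  have hexpL : Real.exp (-L₁) * (200 * A₁ + 1) = 1 := by
    rw [hL1d, Real.exp_neg, Real.exp_log (by linarith)]
    have : 200 * A₁ + 1 ≠ 0 := by linarith
    field_simp
  have hexpK : Real.exp (-(L₁ * kk)) ≤ Real.exp (-L₁) := by
    apply Real.exp_le_exp.mpr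
    nlinarith
  have e3 : A₁ * Real.exp (-L₁) ≤ 1/200 := by nlinarith [Real.exp_pos (-L₁)]
  constructor
  · have r1 : K2 * (A₁ * (12 * Ta ^ (1/4:ℝ))) ≤ T ^ (1/4:ℝ) * (12/200) := by
      have e1 : Ta ^ (1/4:ℝ) = T ^ (1/4:ℝ) * Real.exp (-(1 + L₁) * kk) := by
        rw [hTa, Real.mul_rpow hT0.le (Real.exp_pos _).le, ← Real.exp_mul]
        congr 2; ring
      rw [e1]
      have e2 : K2 * Real.exp (-(1 + L₁) * kk) ≤ Real.exp (-L₁) := by
        calc K2 * Real.exp (-(1 + L₁) * kk) ≤ Real.exp kk * Real.exp (-(1 + L₁) * kk) :=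
              mul_le_mul_of_nonneg_right hK2e (Real.exp_pos _).le
          _ = Real.exp (-(L₁ * kk)) := by rw [← Real.exp_add]; congr 1; ring
          _ ≤ _ := hexpK
      calc K2 * (A₁ * (12 * (T ^ (1/4:ℝ) * Real.exp (-(1 + L₁) * kk))))
          = 12 * T ^ (1/4:ℝ) * (A₁ * (K2 * Real.exp (-(1 + L₁) * kk))) := by ring
        _ ≤ 12 * T ^ (1/4:ℝ) * (A₁ * Real.exp (-L₁)) := by gcongr
        _ ≤ 12 * T ^ (1/4:ℝ) * (1/200) := by gcongr
        _ = _ := by ring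
    have r2 : K2 * A₁ ≤ T ^ (1/4:ℝ) * (A₁ * T ^ (-(1/8):ℝ)) := by
      calc K2 * A₁ ≤ T ^ κ * A₁ := mul_le_mul_of_nonneg_right h2K hA10.le
        _ ≤ T ^ (1/4 + -(1/8):ℝ) * A₁ := by
            apply mul_le_mul_of_nonneg_right _ hA10.le
            apply Real.rpow_le_rpow_of_exponent_le hT1'
            linarith
        _ = _ := by rw [Real.rpow_add hT0]; ring
    linarith
  · have e1 : Tb/(2*T) = (1 + L₁) * kk := by rw [hTb]; field_simp
    rw [e1]
    have e2 : K2 * Real.exp (-((1 + L₁) * kk)) ≤ Real.exp (-L₁) := by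
      calc K2 * Real.exp (-((1 + L₁) * kk)) ≤ Real.exp kk * Real.exp (-((1 + L₁) * kk)) :=
            mul_le_mul_of_nonneg_right hK2e (Real.exp_pos _).le
        _ = Real.exp (-(L₁ * kk)) := by rw [← Real.exp_add]; congr 1; ring
        _ ≤ _ := hexpK
    calc K2 * (Real.exp (-((1 + L₁) * kk)) * (5 * A₁ * T ^ (1/4:ℝ)))
        = 5 * T ^ (1/4:ℝ) * (A₁ * (K2 * Real.exp (-((1 + L₁) * kk)))) := by ring
      _ ≤ 5 * T ^ (1/4:ℝ) * (A₁ * Real.exp (-L₁)) := by gcongr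
      _ ≤ 5 * T ^ (1/4:ℝ) * (1/200) := by gcongr
      _ = _ := by ring

lemma size3 {T C c κ κ₁ c1 K2 : ℝ} {D M : ℕ} (hT1' : 1 ≤ T) (hC : 0 < C) (hc : 0 < c) (hc1 : c1 = c * κ₁) (hκa : κ ≤ c1/2)
    (hκc : κ ≤ 1/16) (hDκ : (D:ℝ) * κ₁ ≤ 1/16) (h2K : K2 ≤ T ^ κ) (hK20 : 0 < K2) (hMge : T ^ κ₁ ≤ M) (hMle : (M:ℝ) ≤ 2 * T ^ κ₁) :
    K2 * (C * (M:ℝ) ^ (-c) * (2 * T ^ (1/4:ℝ)) + C * (M:ℝ)^D) ≤
      T ^ (1/4:ℝ) * (2 * C * T ^ (-(c1/2)) + C * 2^D * T ^ (-(1/8):ℝ)) := by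
  have hT0 : 0 < T := by linarith
  have r1 : (M:ℝ) ^ (-c) ≤ T ^ (-c1) := by
    calc (M:ℝ) ^ (-c) ≤ (T ^ κ₁) ^ (-c) := Real.rpow_le_rpow_of_nonpos (by positivity) hMge (by linarith)
      _ = _ := by rw [← Real.rpow_mul hT0.le]; congr 1; rw [hc1]; ring
  have r2 : (M:ℝ)^D ≤ 2^D * T ^ (1/16:ℝ) := by
    calc (M:ℝ)^D ≤ (2 * T ^ κ₁)^D := pow_le_pow_left₀ (Nat.cast_nonneg _) hMle D
      _ = 2^D * T ^ (κ₁ * D) := by
          rw [mul_pow, ← Real.rpow_natCast (T ^ κ₁) D, ← Real.rpow_mul hT0.le]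
      _ ≤ _ := by
          apply mul_le_mul_of_nonneg_left _ (by positivity)
          apply Real.rpow_le_rpow_of_exponent_le hT1'
          linarith
  have r3 : K2 * (C * (M:ℝ) ^ (-c) * (2 * T ^ (1/4:ℝ))) ≤ T ^ (1/4:ℝ) * (2 * C * T ^ (-(c1/2))) := by
    calc K2 * (C * (M:ℝ) ^ (-c) * (2 * T ^ (1/4:ℝ))) ≤ T ^ κ * (C * T ^ (-c1) * (2 * T ^ (1/4:ℝ))) := by gcongr
      _ = T ^ (1/4:ℝ) * (2 * C * (T ^ κ * T ^ (-c1))) := by ring
      _ = T ^ (1/4:ℝ) * (2 * C * T ^ (κ + -c1)) := by rw [Real.rpow_add hT0]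
      _ ≤ _ := by
          apply mul_le_mul_of_nonneg_left _ (by positivity)
          apply mul_le_mul_of_nonneg_left _ (by positivity)
          apply Real.rpow_le_rpow_of_exponent_le hT1'
          linarith
  have r4 : K2 * (C * (M:ℝ)^D) ≤ T ^ (1/4:ℝ) * (C * 2^D * T ^ (-(1/8):ℝ)) := by
    calc K2 * (C * (M:ℝ)^D) ≤ T ^ κ * (C * (2^D * T ^ (1/16:ℝ))) := by gcongr
      _ = C * 2^D * (T ^ κ * T ^ (1/16:ℝ)) := by ring
      _ = C * 2^D * T ^ (κ + 1/16) := by rw [Real.rpow_add hT0]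
      _ ≤ C * 2^D * T ^ (1/4 + -(1/8):ℝ) := by
          apply mul_le_mul_of_nonneg_left _ (by positivity)
          apply Real.rpow_le_rpow_of_exponent_le hT1'
          linarith
      _ = _ := by rw [Real.rpow_add hT0]; ring
  linarith

end Pool.Agent.H452R2.Om
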