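import Mathlib
import Pool.Agent.H452R2.Om.O8

open Filter Topology
open Pool.Agent.H383

namespace Pool.Agent.H452R2.Om

variable {ρ : ℝ}

open Classical in
/-- many large values from a Riesz product with a one-sided weight -/
theorem main_count {e a : ℕ → ℝ} (ha : ∀ m, 0 ≤ a m) {φ α : ℝ} (hφ : |Real.sin φ| ≤ Real.cos φ)
    {A₀ : ℝ} (hA0 : 0 < A₀) (hA : ∀ n : ℕ, |e n| ≤ A₀ * (n + 1)) {A₂ : ℝ} (hA2 : 0 < A₂)
    (hS2 : ∀ N : ℕ, ∑ n ∈ Finset.range N, (e n)^2 ≤ A₂ * N + A₂) {c C : ℝ} {D : ℕ} (hc : 0 < c) (hC : 0 < C)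
    (hQ : ∀ M : ℕ, 1 ≤ M → ∀ N : ℕ, ∑ n ∈ Finset.range N, |e n - Gen.U a φ (n * α) M| ≤ C * ((M:ℝ) ^ (-c) * N + (M:ℝ) ^ D)) :
    ∃ κ lam0 : ℝ, 0 < κ ∧ 1 ≤ lam0 ∧ ∃ T0 : ℝ, 1 ≤ T0 ∧ ∀ T : ℝ, T0 ≤ T → ∀ S : Finset ℕ,
      (∀ m ∈ S, 1 ≤ m ∧ (m:ℝ) ≤ T ^ κ) → (S.card : ℝ) ≤ κ * Real.log T → ∀ B : ℝ, 0 ≤ B →
      B + 1 ≤ (1/2) * Real.cos φ * ∑ m ∈ S, a m →
      T * Real.exp (-(lam0 * (S.card + 1))) ≤
        (((Finset.range (⌊lam0 * (S.card + 1) * T⌋₊ + 1)).filter (fun n => B ≤ e n)).card : ℝ) := by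
  have hcos : 0 ≤ Real.cos φ := (abs_nonneg _).trans hφ
  -- mean absolute value
  set A₁ : ℝ := C + a 1 with hA1
  have hA10 : 0 < A₁ := by have := ha 1; rw [hA1]; linarith
  have hmean : ∀ N : ℕ, ∑ n ∈ Finset.range N, |e n| ≤ A₁ * N + A₁ := by
    intro N
    have h1 := hQ 1 le_rfl N
    have h2 : ∀ n : ℕ, |Gen.U a φ (n * α) 1| ≤ a 1 := by
      intro n
      unfold Gen.U
      simp only [one_pow, Finset.Icc_self, Finset.sum_singleton]
      rw [abs_mul, abs_of_nonneg (ha 1)]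
      have := Real.abs_cos_le_one (2 * Real.pi * ((n:ℝ) * α * √((1:ℕ):ℝ)) - φ)
      have := ha 1
      nlinarith
    have h3 : ∑ n ∈ Finset.range N, |e n| ≤ ∑ n ∈ Finset.range N, (|e n - Gen.U a φ (n * α) 1| + a 1) := by
      apply Finset.sum_le_sum
      intro n _
      have h4 : |e n| ≤ |e n - Gen.U a φ (n * α) 1| + |Gen.U a φ (n * α) 1| := by
        have := abs_add_le (e n - Gen.U a φ (n * α) 1) (Gen.U a φ (n * α) 1)
        rwa [sub_add_cancel] at this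
      have := h2 n
      linarith
    rw [Finset.sum_add_distrib, Finset.sum_const, Finset.card_range, nsmul_eq_mul] at h3
    simp only [Nat.cast_one, Real.one_rpow, one_mul, one_pow] at h1
    have := ha 1
    rw [hA1]
    nlinarith
  set κ₁ : ℝ := 1 / (16 * (D + 1)) with hκ₁
  have hκ₁0 : 0 < κ₁ := by positivity
  have hDκ : (D:ℝ) * κ₁ ≤ 1/16 := by
    rw [hκ₁, mul_one_div, div_le_iff₀ (by positivity)]
    nlinarith
  set c1 : ℝ := c * κ₁ with hc1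
  have hc10 : 0 < c1 := by positivity
  set L₁ : ℝ := Real.log (200 * A₁ + 1) with hL1d
  have hL10 : 0 < L₁ := Real.log_pos (by linarith)
  set lam1 : ℝ := 4 * (1 + L₁) with hlam1
  set lam2 : ℝ := 2 * (1 + L₁) with hlam2
  have hlam10 : 0 < lam1 := by positivity
  have hlam20 : 0 < lam2 := by positivity
  have hlam21 : 1 ≤ lam2 := by rw [hlam2]; linarith
  set L₂ : ℝ := Real.log (1296 * A₂ * lam2 + 1) with hL2d
  have hL20 : 0 < L₂ := Real.log_pos (by have : 0 < 1296 * A₂ * lam2 := by positivity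
                                         linarith)
  set lam0 : ℝ := (3/2) * lam1 + 3 + L₂ + lam2 with hlam0
  set κ : ℝ := min (min (c1/2) κ₁) (min (1/16) (1/(2*lam1))) with hκ
  have hκ0 : 0 < κ := by positivity
  have hκa : κ ≤ c1/2 := (min_le_left _ _).trans (min_le_left _ _)
  have hκb : κ ≤ κ₁ := (min_le_left _ _).trans (min_le_right _ _)
  have hκc : κ ≤ 1/16 := (min_le_right _ _).trans (min_le_left _ _)
  have hκd : κ ≤ 1/(2*lam1) := (min_le_right _ _).trans (min_le_right _ _)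
  have hev := ((err_tendsto2 (A₁ := A₁) (C := C) (D2 := 2^D) hc10).eventually (gt_mem_nhds (show (0:ℝ) < 1/10 by norm_num))).and
    (Real.tendsto_log_atTop.eventually_ge_atTop (2 * lam1))
  rw [eventually_atTop] at hev
  obtain ⟨T1, hT1⟩ := hev
  refine ⟨κ, lam0, hκ0, by rw [hlam0]; linarith, max T1 1, le_max_right _ _, ?_⟩
  intro T hT S hS hcard B hB hF
  obtain ⟨hTE, hTlog⟩ := hT1 T ((le_max_left _ _).trans hT)
  have hT1' : 1 ≤ T := (le_max_right _ _).trans hT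
  have hT0 : 0 < T := by linarith
  set kk : ℝ := (S.card : ℝ) + 1 with hkk
  have hkk1 : 1 ≤ kk := by rw [hkk]; have : (0:ℝ) ≤ S.card := Nat.cast_nonneg _
                           linarith
  set Ta : ℝ := T * Real.exp (-(lam1 * kk)) with hTa
  set Tb : ℝ := lam2 * kk * T with hTb
  have hTa0 : 0 < Ta := by positivity
  have hTa1 : 1 ≤ Ta := by
    have h1 : lam1 * kk ≤ Real.log T := by
      rw [hkk, mul_add, mul_one]
      have h2 : lam1 * S.card ≤ lam1 * (1/(2*lam1) * Real.log T) := by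
        apply mul_le_mul_of_nonneg_left _ hlam10.le
        refine hcard.trans ?_
        apply mul_le_mul_of_nonneg_right hκd
        linarith
      have h3 : lam1 * (1/(2*lam1) * Real.log T) = Real.log T / 2 := by field_simp
      linarith
    rw [hTa]
    nth_rewrite 1 [← Real.exp_log hT0]
    rw [← Real.exp_add]
    apply Real.one_le_exp
    linarith
  have hTbT : T ≤ Tb := by
    rw [hTb]
    have : 1 ≤ lam2 * kk := by nlinarith
    nlinarith
  set ρ := Real.exp (-(1/T)) with hρ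
  have h0 : 0 ≤ ρ := (Real.exp_pos _).le
  have h1 : ρ < 1 := by
    rw [hρ, Real.exp_lt_one_iff]
    have : 0 < 1/T := by positivity
    linarith
  set lam : ℕ → ℝ := fun m => α * √(m:ℝ) with hlam
  set M : ℕ := ⌈T ^ κ₁⌉₊ with hM
  have hTκ1 : 1 ≤ T ^ κ₁ := Real.one_le_rpow hT1' hκ₁0.le
  have hMge : T ^ κ₁ ≤ M := Nat.le_ceil _
  have hM1 : 1 ≤ M := by
    have : (1:ℝ) ≤ M := hTκ1.trans hMge
    exact_mod_cast this
  have hMle : (M:ℝ) ≤ 2 * T ^ κ₁ := by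
    have := Nat.ceil_lt_add_one (show 0 ≤ T ^ κ₁ by positivity)
    rw [← hM] at this
    linarith
  have hSM : S ⊆ Finset.Icc 1 (M^2) := by
    intro m hm
    obtain ⟨m1, m2⟩ := hS m hm
    rw [Finset.mem_Icc]
    refine ⟨m1, ?_⟩
    have h3 : (m:ℝ) ≤ M := by
      refine m2.trans (le_trans ?_ hMge)
      exact Real.rpow_le_rpow_of_exponent_le hT1' hκb
    have h4 : m ≤ M := by exact_mod_cast h3
    nlinarith
  set K2 : ℝ := (2:ℝ) ^ S.card with hK2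
  have hK20 : 0 < K2 := by positivity
  have hK2e : K2 ≤ Real.exp kk := by
    rw [hK2, ← Real.rpow_natCast, Real.rpow_def_of_pos (by norm_num)]
    apply Real.exp_le_exp.mpr
    have hl2 : Real.log 2 ≤ 1 := by have := Real.log_two_lt_d9; linarith
    have h3 : (0:ℝ) ≤ S.card := Nat.cast_nonneg _
    rw [hkk]
    nlinarith
  have h2K : K2 ≤ T ^ κ := by
    rw [hK2, ← Real.rpow_natCast, Real.rpow_def_of_pos (by norm_num), Real.rpow_def_of_pos hT0]
    apply Real.exp_le_exp.mpr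
    have hl2 : Real.log 2 ≤ 1 := by have := Real.log_two_lt_d9; linarith
    have hl2' : 0 ≤ Real.log 2 := Real.log_nonneg (by norm_num)
    have hlT : 0 ≤ Real.log T := Real.log_nonneg hT1'
    have h3 : (0:ℝ) ≤ S.card := Nat.cast_nonneg _
    nlinarith
  set G : Finset ℕ := (Finset.range (⌊Tb⌋₊ + 1)).filter (fun n : ℕ => Ta ≤ n ∧ B ≤ e n) with hG
  have hcore := core_ineq h0 h1 ha hφ hA0 hA hC (hQ M hM1) hSM hB hF Ta Tb
  rw [← hG, ← hK2, ← hlam] at hcore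
  have hini := ini_bound h0 h1 hA10 hTa1 hmean
  have htail := L_tail2 (T := T) (Z := Tb) (A₀ := A₀) hT1' hA hA10.le hmean
  rw [← hρ] at htail
  have hGsum := G_bound h0 h1 hA2 hTa0 (hT1'.trans hTbT) hS2 (G := G) (fun n hn => by
    rw [hG, Finset.mem_filter] at hn; exact hn.2.1) (Finset.filter_subset _ _)
  set g : ℝ := (G.card : ℝ) with hg
  have hDge : T ^ (1/4:ℝ) ≤ Ds ρ lam S := (L1_ge hT1').trans (Ds_ge h0 h1 lam S)
  have hL1 := L1_le hT1'
  rw [← hρ] at hL1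
  have hkey : Ds ρ lam S ≤ K2 * (A₁ * (12 * Ta ^ (1/4:ℝ)) + A₁) +
      K2 * (Real.exp (-(Tb/(2*T))) * (5 * A₁ * T ^ (1/4:ℝ))) +
      K2 * (6 * Ta ^ (-(3/4):ℝ) * √(g * (3 * A₂ * Tb))) +
      K2 * (C * (M:ℝ) ^ (-c) * (2 * T ^ (1/4:ℝ)) + C * (M:ℝ)^D) := by
    have g1 := mul_le_mul_of_nonneg_left hini hK20.le
    have g2 := mul_le_mul_of_nonneg_left htail hK20.le
    have g4 := mul_le_mul_of_nonneg_left hGsum hK20.le
    have g3 : K2 * (C * (M:ℝ) ^ (-c) * L ρ (fun _ => 1) + C * (M:ℝ)^D) ≤ K2 * (C * (M:ℝ) ^ (-c) * (2 * T ^ (1/4:ℝ)) + C * (M:ℝ)^D) := by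
      gcongr
    linarith
  obtain ⟨q1, q2⟩ := sizes hT1' hA10 hL10 hkk1 hL1d hκc hK2e h2K (Ta := Ta) (Tb := Tb) (by rw [hTa, hlam1]) (by rw [hTb, hlam2])
  have q3 := size3 (D := D) hT1' hC hc hc1 hκa hκc hDκ h2K hK20 hMge hMle
  have hT4 : 0 < T ^ (1/4:ℝ) := by positivity
  have hfin : T ^ (1/4:ℝ) * (1/2) ≤ K2 * (6 * Ta ^ (-(3/4):ℝ) * √(g * (3 * A₂ * Tb))) := by
    have e1 : T ^ (1/4:ℝ) * (A₁ * T ^ (-(1/8):ℝ) + 2 * C * T ^ (-(c1/2)) + C * 2^D * T ^ (-(1/8):ℝ)) ≤ T ^ (1/4:ℝ) * (1/10) :=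
      mul_le_mul_of_nonneg_left hTE.le hT4.le
    linarith [hDge, hkey, q1, q2, q3]
  have hgfin := fin_num hT0 hA2 hlam20 hkk1 hlam0 (Nat.cast_nonneg _) hK20 hK2e hTa hTb hL20
    (by rw [hL2d, Real.exp_log]; positivity) hfin
  refine hgfin.trans ?_
  have hsub : G ⊆ (Finset.range (⌊lam0 * kk * T⌋₊ + 1)).filter (fun n => B ≤ e n) := by
    intro n hn
    rw [hG, Finset.mem_filter, Finset.mem_range] at hn
    rw [Finset.mem_filter, Finset.mem_range]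
    refine ⟨?_, hn.2.2⟩
    have h5 : ⌊Tb⌋₊ ≤ ⌊lam0 * kk * T⌋₊ := by
      apply Nat.floor_mono
      rw [hTb]
      have : lam2 ≤ lam0 := by rw [hlam0]; linarith
      gcongr
    omega
  exact_mod_cast Finset.card_le_card hsub

end Pool.Agent.H452R2.Om
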