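import Mathlib
import Pool.Agent.H452R2.Om.O6
import Pool.Agent.H452R2.Om.O8b

open MeasureTheory Set Filter Topology
open Pool.Agent.H383
open Pool.Agent.H383.Gauss Pool.Agent.H383.AP
open Pool.Agent.H452R2.Win

namespace Pool.Agent.H452R2.Om

variable {E : ℝ → ℝ} {a : ℕ → ℝ} {φ : ℝ} {w : ℝ → ℂ}

/-- second moments -/
theorem ap_l2 (ha : Bdw a) (ha0 : a 0 = 0) (hw : GW.Wt w) {κ₁ κ₂ : ℝ} (hS : SandW E a φ w κ₁ κ₂)
    {α : ℝ} (hα : 0 < α) {Rn : ℕ → ℝ} (hRn : ∃ C₁ : ℝ, ∀ n : ℕ, |Rn n - n * α| ≤ C₁ / (n + 1)) :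
    ∃ A₂ : ℝ, 0 < A₂ ∧ ∀ N : ℕ, ∑ n ∈ Finset.range N, (E (Rn n))^2 ≤ A₂ * N + A₂ := by
  obtain ⟨C₁, hRn⟩ := hRn
  obtain ⟨ω, hω, hω200, Cq, hCq, N0, hq⟩ := ap_quant ha ha0 hw hS hα (ε := 1/4) (by norm_num)
  set c := min 1 α with hc
  have hc0 : 0 < c := by positivity
  -- thresholds
  obtain ⟨B1, hB1⟩ := exists_nat_ge (4 / c)
  obtain ⟨B2, hB2⟩ := exists_nat_ge (4 / α)
  obtain ⟨B3, hB3⟩ := exists_nat_ge (α^3)
  obtain ⟨B4, hB4⟩ : ∃ B4 : ℕ, ∀ N : ℕ, B4 ≤ N → |C₁| * (α + 1) ^ (51/100:ℝ) * (N:ℝ) ^ (-(49/100):ℝ) ≤ 1 := by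
    have h1 := tend_nat_rpow (y := 49/100) (by norm_num) (|C₁| * (α + 1) ^ (51/100:ℝ))
    have h2 := h1.eventually (gt_mem_nhds (by norm_num : (0:ℝ) < 1))
    rw [eventually_atTop] at h2
    obtain ⟨N4, hN4⟩ := h2
    exact ⟨N4, fun N hN => (hN4 N hN).le⟩
  set B : ℕ := N0 + B1 + B2 + B3 + B4 + 1 with hB
  set Cw : ℝ := 2 * (Cq * (3 + 1/ω)) + 2 * |a 1|^2 with hCw
  have hCw0 : 0 < Cw := by positivity
  set Na : ℕ := 2 * B + 3 with hNa
  set C4 : ℝ := ∑ n ∈ Finset.range Na, (E (Rn n))^2 with hC4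
  have hC40 : 0 ≤ C4 := Finset.sum_nonneg (fun n _ => sq_nonneg _)
  refine ⟨2 * Cw + C4, by positivity, ?_⟩
  intro N
  have hfin := dyad (d := fun n => (E (Rn n))^2) (fun n => sq_nonneg _) (x := 1)
    (C5 := Cw) (C4 := C4) zero_le_one hCw0.le (Na := Na) (by omega) ?_ ?_ N
  · have h1 : (0:ℝ) ≤ N := Nat.cast_nonneg N
    nlinarith
  · -- small N
    intro K hK
    apply Finset.sum_le_sum_of_subset_of_nonneg
    · intro i hi
      rw [Finset.mem_range] at hi ⊢; omega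
    · intro i _ _; exact sq_nonneg _
  · -- windows
    intro N' hN'
    have hBN : B ≤ N' := by omega
    have hN'0 : (0:ℝ) < N' := by exact_mod_cast (by omega : 0 < N')
    have hN'1 : (1:ℝ) ≤ N' := by exact_mod_cast (by omega : 1 ≤ N')
    have hcN : 2 * (((1:ℕ):ℝ) + 1) ≤ min 1 α * N' := by
      rw [← hc]
      have h1 : 4 / c ≤ N' := hB1.trans (by exact_mod_cast (by omega : B1 ≤ N'))
      rw [div_le_iff₀ hc0] at h1
      push_cast
      linarith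
    have hX4 : 4 ≤ (N':ℝ) * α := by
      have h1 : (B2:ℝ) ≤ N' := by exact_mod_cast (by omega : B2 ≤ N')
      have h2 : 4 / α ≤ N' := hB2.trans h1
      rwa [div_le_iff₀ hα] at h2
    have hXN : ((N':ℝ) * α) ^ (1/2 + 1/4:ℝ) ≤ N' := by
      have h1 : α^3 ≤ N' := hB3.trans (by exact_mod_cast (by omega : B3 ≤ N'))
      have h2 : α ^ (3/4:ℝ) ≤ (N':ℝ) ^ (1/4:ℝ) := by
        calc α ^ (3/4:ℝ) = (α^3) ^ (1/4:ℝ) := by
              rw [← Real.rpow_natCast, ← Real.rpow_mul hα.le]; norm_num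
          _ ≤ _ := Real.rpow_le_rpow (by positivity) h1 (by norm_num)
      rw [show (1/2 + 1/4:ℝ) = 3/4 by norm_num, Real.mul_rpow hN'0.le hα.le]
      calc (N':ℝ) ^ (3/4:ℝ) * α ^ (3/4:ℝ) ≤ (N':ℝ) ^ (3/4:ℝ) * (N':ℝ) ^ (1/4:ℝ) := mul_le_mul_of_nonneg_left h2 (by positivity)
        _ = N' := by rw [← Real.rpow_add hN'0]; norm_num
    have hpert : ∀ n : ℕ, n < N' → |Rn (N' + n) - ((N':ℝ) * α + n * α)| ≤ ((N':ℝ) * α + N') ^ (-(51/100):ℝ) := by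
      intro n hn
      have h1 := hRn (N' + n)
      have e : ((N' + n : ℕ):ℝ) * α = (N':ℝ) * α + n * α := by push_cast; ring
      rw [e] at h1
      refine h1.trans ?_
      have hn0 : (0:ℝ) ≤ n := Nat.cast_nonneg n
      have h2 := hB4 N' (by omega)
      calc C₁ / (((N' + n : ℕ):ℝ) + 1) ≤ |C₁| / (((N' + n : ℕ):ℝ) + 1) := by gcongr; exact le_abs_self _
        _ ≤ |C₁| / N' := by
            gcongr
            push_cast; linarith
        _ ≤ ((N':ℝ) * (α + 1)) ^ (-(51/100):ℝ) := by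
            rw [div_le_iff₀ hN'0, Real.mul_rpow hN'0.le (by positivity)]
            have e1 : (N':ℝ) ^ (-(51/100):ℝ) * (α + 1) ^ (-(51/100):ℝ) * N' = (α + 1) ^ (-(51/100):ℝ) * (N':ℝ) ^ (49/100:ℝ) := by
              rw [mul_comm ((N':ℝ) ^ (-(51/100):ℝ)), mul_assoc]
              congr 1
              nth_rewrite 2 [← Real.rpow_one (N':ℝ)]
              rw [← Real.rpow_add hN'0]; norm_num
            rw [e1]
            have e2 : (α + 1) ^ (-(51/100):ℝ) * (α + 1) ^ (51/100:ℝ) = 1 := by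
              rw [← Real.rpow_add (by positivity)]; norm_num
            have e3 : (N':ℝ) ^ (49/100:ℝ) * (N':ℝ) ^ (-(49/100):ℝ) = 1 := by
              rw [← Real.rpow_add hN'0]; norm_num
            calc |C₁| = (|C₁| * (α + 1) ^ (51/100:ℝ) * (N':ℝ) ^ (-(49/100):ℝ)) * ((α + 1) ^ (-(51/100):ℝ) * (N':ℝ) ^ (49/100:ℝ)) := by
                  have : (|C₁| * (α + 1) ^ (51/100:ℝ) * (N':ℝ) ^ (-(49/100):ℝ)) * ((α + 1) ^ (-(51/100):ℝ) * (N':ℝ) ^ (49/100:ℝ)) =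
                    |C₁| * ((α + 1) ^ (-(51/100):ℝ) * (α + 1) ^ (51/100:ℝ)) * ((N':ℝ) ^ (49/100:ℝ) * (N':ℝ) ^ (-(49/100):ℝ)) := by ring
                  rw [this, e2, e3]; ring
              _ ≤ 1 * ((α + 1) ^ (-(51/100):ℝ) * (N':ℝ) ^ (49/100:ℝ)) :=
                  mul_le_mul_of_nonneg_right h2 (by positivity)
              _ = _ := one_mul _
        _ = _ := by congr 1; ring
    have h1 := hq 1 le_rfl N' (by omega) hcN ((N':ℝ) * α) hX4 hXN (fun n => Rn (N' + n)) hpert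
    have h2 : Tw ω 1 + ((1:ℕ):ℝ)^4 * (N':ℝ) ^ (-1:ℝ) + (N':ℝ) ^ (-ω) ≤ 3 + 1/ω := by
      have g1 := Tw_le hω (M := 1) le_rfl
      rw [Nat.cast_one, Real.one_rpow, mul_one] at g1
      have g2 : (N':ℝ) ^ (-1:ℝ) ≤ 1 := Real.rpow_le_one_of_one_le_of_nonpos hN'1 (by norm_num)
      have g3 : (N':ℝ) ^ (-ω) ≤ 1 := Real.rpow_le_one_of_one_le_of_nonpos hN'1 (by linarith)
      push_cast
      linarith
    have hU1 : ∀ R : ℝ, |Gen.U a φ R 1| ≤ |a 1| := by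
      intro R
      unfold Gen.U
      simp only [one_pow, Finset.Icc_self, Finset.sum_singleton]
      rw [abs_mul]
      have := Real.abs_cos_le_one (2 * Real.pi * (R * √((1:ℕ):ℝ)) - φ)
      have := abs_nonneg (a 1)
      nlinarith
    have h3 : ∑ n ∈ Finset.range N', (E (Rn (N' + n)))^2 ≤
        ∑ n ∈ Finset.range N', (2 * (E (Rn (N' + n)) - Gen.U a φ ((N':ℝ) * α + n * α) 1)^2 + 2 * |a 1|^2) := by
      apply Finset.sum_le_sum
      intro n _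
      have g1 := hU1 ((N':ℝ) * α + n * α)
      have g2 : (Gen.U a φ ((N':ℝ) * α + n * α) 1)^2 ≤ |a 1|^2 := by
        rw [← sq_abs]
        exact pow_le_pow_left₀ (abs_nonneg _) g1 2
      nlinarith [sq_nonneg (E (Rn (N' + n)) - 2 * Gen.U a φ ((N':ℝ) * α + n * α) 1)]
    refine h3.trans ?_
    rw [Finset.sum_add_distrib, ← Finset.mul_sum, Finset.sum_const, Finset.card_range, nsmul_eq_mul]
    have h4 : Cq * N' * (Tw ω 1 + ((1:ℕ):ℝ)^4 * (N':ℝ) ^ (-1:ℝ) + (N':ℝ) ^ (-ω)) ≤ Cq * N' * (3 + 1/ω) :=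
      mul_le_mul_of_nonneg_left h2 (by positivity)
    have h5 := h1.trans h4
    calc _ ≤ 2 * (Cq * N' * (3 + 1/ω)) + N' * (2 * |a 1|^2) := by
          apply add_le_add_left
          exact mul_le_mul_of_nonneg_left h5 (by norm_num)
      _ = _ := by rw [hCw]; ring

open Classical in
/-- the abstract tail theorem -/
theorem tail_abs {e : ℕ → ℝ} (ha : ∀ m, 0 ≤ a m) {α : ℝ} (hφ : |Real.sin φ| ≤ Real.cos φ) (hcos : 0 < Real.cos φ)
    {A₀ : ℝ} (hA0 : 0 < A₀) (hA : ∀ n : ℕ, |e n| ≤ A₀ * (n + 1))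
    (hS2 : ∃ A₂ : ℝ, 0 < A₂ ∧ ∀ N : ℕ, ∑ n ∈ Finset.range N, (e n)^2 ≤ A₂ * N + A₂)
    (hQ : ∃ c C : ℝ, ∃ D : ℕ, 0 < c ∧ 0 < C ∧ ∀ M : ℕ, 1 ≤ M → ∀ N : ℕ,
      ∑ n ∈ Finset.range N, |e n - Gen.U a φ (n * α) M| ≤ C * ((M:ℝ) ^ (-c) * N + (M:ℝ) ^ D))
    {γ : ℝ} (hγ : 0 ≤ γ)
    (hN : ∃ c K0 : ℝ, 0 < c ∧ ∀ K : ℝ, K0 ≤ K → ∃ 𝓜 : Finset ℕ, (𝓜.card : ℝ) ≤ K ∧
      (∀ m ∈ 𝓜, 1 ≤ m ∧ (m:ℝ) ≤ K ^ 3) ∧
      c * K ^ (1/4:ℝ) * (Real.log K) ^ γ ≤ ∑ m ∈ 𝓜, a m) :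
    ∃ p κ C K₀ X₀ : ℝ, 0 < p ∧ 0 < κ ∧ 0 < C ∧ 1 ≤ K₀ ∧ ∀ X : ℝ, X₀ ≤ X → ∀ K : ℝ, K₀ ≤ K → K ≤ κ * Real.log X →
      X * Real.exp (-(C * K)) ≤
        (((Finset.range (⌊X⌋₊ + 1)).filter (fun n => p * K ^ (1/4:ℝ) * (Real.log K) ^ γ ≤ e n)).card : ℝ) := by
  obtain ⟨c, C, D, hc, hC, hQ⟩ := hQ
  obtain ⟨A₂, hA2, hS2⟩ := hS2
  obtain ⟨c₁, K0, hc₁, hN⟩ := hN
  obtain ⟨κ, lam0, hκ, hlam0, T1, hT11, hmain⟩ := main_count ha hφ hA0 hA hA2 hS2 hc hC hQ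
  set p : ℝ := Real.cos φ * c₁ / 4 with hp
  have hp0 : 0 < p := by positivity
  -- eventual conditions
  have hlog := Real.tendsto_log_atTop
  have v4 : ∀ᶠ K : ℝ in atTop, K^3 ≤ Real.exp K := by
    have h1 := (Real.tendsto_pow_mul_exp_neg_atTop_nhds_zero 3).eventually (gt_mem_nhds one_pos)
    filter_upwards [h1] with K h2
    rw [Real.exp_neg] at h2
    have := Real.exp_pos K
    rw [← div_eq_mul_inv, div_lt_one this] at h2
    exact h2.le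
  have v5 : ∀ᶠ K : ℝ in atTop, (1:ℝ) ≤ p * K ^ (1/4:ℝ) * (Real.log K) ^ γ := by
    have h1 : Tendsto (fun x : ℝ => p * x ^ (1/4:ℝ)) atTop atTop :=
      (tendsto_rpow_atTop (by norm_num : (0:ℝ) < 1/4)).const_mul_atTop hp0
    filter_upwards [h1.eventually_ge_atTop 1, hlog.eventually_ge_atTop 1] with K h2 h3
    have h4 : 1 ≤ (Real.log K) ^ γ := Real.one_le_rpow h3 hγ
    nlinarith
  obtain ⟨K1, hK1⟩ := eventually_atTop.mp (v4.and v5)
  -- lam0 * (K + 1) ≤ X ^ (1/2)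
  have v6 : ∀ᶠ X : ℝ in atTop, lam0 * (κ * Real.log X + 2) ≤ X ^ (1/2:ℝ) := by
    have h1 : Tendsto (fun X : ℝ => Real.log X / X ^ (1/2:ℝ)) atTop (𝓝 0) :=
      (isLittleO_log_rpow_atTop (by norm_num : (0:ℝ) < 1/2)).tendsto_div_nhds_zero
    have h2 := h1.eventually (gt_mem_nhds (show (0:ℝ) < 1/(2 * lam0 * κ) by positivity))
    have h3 : ∀ᶠ X : ℝ in atTop, 4 * lam0 ≤ X ^ (1/2:ℝ) :=
      (tendsto_rpow_atTop (by norm_num : (0:ℝ) < 1/2)).eventually_ge_atTop _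
    filter_upwards [h2, h3, eventually_gt_atTop 0] with X g2 g3 g4
    have hX : 0 < X ^ (1/2:ℝ) := by positivity
    rw [div_lt_iff₀ hX] at g2
    have h5 : lam0 * κ * Real.log X ≤ X ^ (1/2:ℝ) / 2 := by
      have h6 : lam0 * κ * Real.log X ≤ lam0 * κ * (1/(2 * lam0 * κ) * X ^ (1/2:ℝ)) :=
        mul_le_mul_of_nonneg_left g2.le (by positivity)
      have h7 : lam0 * κ * (1/(2 * lam0 * κ) * X ^ (1/2:ℝ)) = X ^ (1/2:ℝ) / 2 := by
        have : lam0 ≠ 0 := by linarith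
        field_simp
      linarith
    linarith
  obtain ⟨X1, hX1⟩ := eventually_atTop.mp ((v6.and (eventually_ge_atTop (max 1 (T1^2)))))
  refine ⟨p, κ/2, 4 * lam0 , max (max K0 K1) 1, X1, hp0, by positivity, by linarith, le_max_right _ _, ?_⟩
  intro X hX K hK hKX
  obtain ⟨w6, w7⟩ := hX1 X hX
  have hX1' : 1 ≤ X := (le_max_left _ _).trans w7
  have hX0 : 0 < X := by linarith
  have hXT : T1^2 ≤ X := (le_max_right _ _).trans w7
  have hK0 : K0 ≤ K := (le_max_left _ _).trans ((le_max_left _ _).trans hK)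
  have hKK1 : K1 ≤ K := (le_max_right _ _).trans ((le_max_left _ _).trans hK)
  have hK1' : 1 ≤ K := (le_max_right _ _).trans hK
  obtain ⟨k3, k4⟩ := hK1 K hKK1
  obtain ⟨𝓜, m1, m2, m3⟩ := hN K hK0
  have hlX : 0 ≤ Real.log X := Real.log_nonneg hX1'
  set kk : ℝ := (𝓜.card : ℝ) + 1 with hkk
  have hkk1 : 1 ≤ kk := by rw [hkk]; have : (0:ℝ) ≤ 𝓜.card := Nat.cast_nonneg _
                           linarith
  have hkkK : kk ≤ K + 1 := by linarith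
  have hlam00 : 0 < lam0 := by linarith
  set T : ℝ := X / (lam0 * kk) with hT
  have hden : 0 < lam0 * kk := by positivity
  have hdenX : lam0 * kk ≤ X ^ (1/2:ℝ) := by
    refine le_trans ?_ w6
    apply mul_le_mul_of_nonneg_left _ hlam00.le
    have : K ≤ κ * Real.log X := by
      refine hKX.trans ?_
      apply mul_le_mul_of_nonneg_right _ hlX
      linarith
    linarith
  have hTX : X ^ (1/2:ℝ) ≤ T := by
    rw [hT, le_div_iff₀ hden]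
    calc X ^ (1/2:ℝ) * (lam0 * kk) ≤ X ^ (1/2:ℝ) * X ^ (1/2:ℝ) := mul_le_mul_of_nonneg_left hdenX (by positivity)
      _ = X := by rw [← Real.rpow_add hX0]; norm_num
  have hTT1 : T1 ≤ T := by
    refine le_trans ?_ hTX
    calc T1 = (T1^2) ^ (1/2:ℝ) := by
          rw [← Real.sqrt_eq_rpow, Real.sqrt_sq (by linarith)]
      _ ≤ _ := Real.rpow_le_rpow (by positivity) hXT (by norm_num)
  have hT0 : 0 < T := by positivity
  have hlT : (1/2) * Real.log X ≤ Real.log T := by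
    have := Real.log_le_log (by positivity) hTX
    rwa [Real.log_rpow hX0] at this
  have hKT : K ≤ κ * Real.log T := by
    refine hKX.trans ?_
    have := mul_le_mul_of_nonneg_left hlT hκ.le
    linarith
  have hmT : ∀ m ∈ 𝓜, 1 ≤ m ∧ (m:ℝ) ≤ T ^ κ := by
    intro m hm
    refine ⟨(m2 m hm).1, (m2 m hm).2.trans (k3.trans ?_)⟩
    rw [Real.rpow_def_of_pos hT0]
    apply Real.exp_le_exp.mpr
    linarith
  set B : ℝ := p * K ^ (1/4:ℝ) * (Real.log K) ^ γ with hB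
  have hlK : 0 ≤ Real.log K := Real.log_nonneg hK1'
  have hB0 : 0 ≤ B := by positivity
  have hBF : B + 1 ≤ (1/2) * Real.cos φ * ∑ m ∈ 𝓜, a m := by
    have h1 : (1/2) * Real.cos φ * (c₁ * K ^ (1/4:ℝ) * (Real.log K) ^ γ) ≤ (1/2) * Real.cos φ * ∑ m ∈ 𝓜, a m :=
      mul_le_mul_of_nonneg_left m3 (by positivity)
    have h2 : (1/2) * Real.cos φ * (c₁ * K ^ (1/4:ℝ) * (Real.log K) ^ γ) = B + B := by rw [hB, hp]; ring
    linarith
  have hres := hmain T hTT1 𝓜 hmT (m1.trans hKT) B hB0 hBF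
  have e1 : lam0 * ((𝓜.card : ℝ) + 1) * T = X := by
    rw [← hkk, hT]; field_simp
  rw [e1] at hres
  refine le_trans ?_ hres
  rw [← hkk, hT]
  -- X exp(-4 lam0 K) ≤ X/(lam0 kk) exp(-lam0 kk)
  have h1 : lam0 * kk * Real.exp (lam0 * kk) ≤ Real.exp (4 * lam0 * K) := by
    have h2 : lam0 * kk ≤ Real.exp (lam0 * kk) := by
      have := Real.add_one_le_exp (lam0 * kk)
      linarith
    calc lam0 * kk * Real.exp (lam0 * kk) ≤ Real.exp (lam0 * kk) * Real.exp (lam0 * kk) :=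
          mul_le_mul_of_nonneg_right h2 (Real.exp_pos _).le
      _ = Real.exp (lam0 * kk + lam0 * kk) := by rw [← Real.exp_add]
      _ ≤ _ := by
          apply Real.exp_le_exp.mpr
          have : kk ≤ 2 * K := by linarith
          nlinarith
  have h3 : Real.exp (-(4 * lam0 * K)) ≤ 1 / (lam0 * kk) * Real.exp (-(lam0 * kk)) := by
    rw [Real.exp_neg, Real.exp_neg, one_div, ← mul_inv]
    exact inv_anti₀ (by positivity) h1
  calc X * Real.exp (-(4 * lam0 * K)) ≤ X * (1 / (lam0 * kk) * Real.exp (-(lam0 * kk))) :=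
        mul_le_mul_of_nonneg_left h3 hX0.le
    _ = _ := by ring

end Pool.Agent.H452R2.Om
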