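import Mathlib
import Pool.Agent.H452R2.Om.O9
import Pool.Agent.H452R2.Om.O7

open MeasureTheory Set Filter Topology
open Pool.Agent.H387R2.Vor
open Pool.Agent.H383
open Pool.Agent.H383.Gauss Pool.Agent.H383.AP
open Pool.Agent.H452R2.Win

namespace Pool.Agent.H452R2.Om

open Classical in
/-- the tail bound in terms of the size of the values -/
theorem tail_V {e : ℕ → ℝ} {γ : ℝ} (hγ : 0 ≤ γ)
    (h : ∃ p κ C K₀ X₀ : ℝ, 0 < p ∧ 0 < κ ∧ 0 < C ∧ 1 ≤ K₀ ∧ ∀ X : ℝ, X₀ ≤ X → ∀ K : ℝ, K₀ ≤ K → K ≤ κ * Real.log X →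
      X * Real.exp (-(C * K)) ≤
        (((Finset.range (⌊X⌋₊ + 1)).filter (fun n => p * K ^ (1/4:ℝ) * (Real.log K) ^ γ ≤ e n)).card : ℝ)) :
    ∃ C₀ V₀ : ℝ, 0 < C₀ ∧ 1 < V₀ ∧ ∀ ε : ℝ, 0 < ε → ∃ c₀ : ℝ, 0 < c₀ ∧ ∃ N₀ : ℕ, ∀ N : ℕ, N₀ ≤ N → ∀ V : ℝ, V₀ ≤ V →
      V ≤ c₀ * (Real.log N) ^ (1/4:ℝ) * (Real.log (Real.log N)) ^ γ →
      (N:ℝ) ^ (1 - ε) ≤ N * Real.exp (-(C₀ * V^4 * (Real.log V) ^ (-(4 * γ)))) ∧
      N * Real.exp (-(C₀ * V^4 * (Real.log V) ^ (-(4 * γ)))) ≤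
        (((Finset.Icc 1 N).filter (fun n => V ≤ e n)).card : ℝ) := by
  obtain ⟨p, κ, C, K₀, X₀, hp, hκ, hC, hK₀, h⟩ := h
  set C₂ : ℝ := max 1 ((1/p)^4) with hC2
  have hC21 : 1 ≤ C₂ := le_max_left _ _
  have hC20 : 0 < C₂ := by linarith
  have hC2p : 1/p ≤ C₂ ^ (1/4:ℝ) := by
    calc 1/p = ((1/p)^4) ^ (1/4:ℝ) := by
          rw [← Real.rpow_natCast, ← Real.rpow_mul (by positivity)]; norm_num
      _ ≤ _ := Real.rpow_le_rpow (by positivity) (le_max_right _ _) (by norm_num)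
  have hlog := Real.tendsto_log_atTop
  -- conditions on V
  have a1 : ∀ᶠ V : ℝ in atTop, 4 * γ * Real.log (Real.log V) ≤ 3 * Real.log V := by
    have h1 : Tendsto (fun x : ℝ => Real.log x / x) atTop (𝓝 0) := by
      have := (isLittleO_log_rpow_atTop (by norm_num : (0:ℝ) < 1)).tendsto_div_nhds_zero
      simpa using this
    have h2 := (h1.comp hlog).eventually (gt_mem_nhds (show (0:ℝ) < 3/(4 * γ + 1) by positivity))
    filter_upwards [h2, hlog.eventually_ge_atTop 1] with V h3 h4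
    simp only [Function.comp_apply] at h3
    have h5 : 0 < Real.log V := by linarith
    rw [div_lt_iff₀ h5] at h3
    have h6 : 0 ≤ Real.log (Real.log V) := Real.log_nonneg h4
    have h7 : (4 * γ + 1) * Real.log (Real.log V) ≤ (4 * γ + 1) * (3/(4 * γ + 1) * Real.log V) :=
      mul_le_mul_of_nonneg_left h3.le (by positivity)
    have h8 : (4 * γ + 1) * (3/(4 * γ + 1) * Real.log V) = 3 * Real.log V := by
      have : 4 * γ + 1 ≠ 0 := by positivity
      field_simp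
    linarith
  have a2 : ∀ᶠ V : ℝ in atTop, (1:ℝ) ≤ Real.log V := hlog.eventually_ge_atTop 1
  have a3 : ∀ᶠ V : ℝ in atTop, K₀ ≤ V := eventually_ge_atTop _
  obtain ⟨V1, hV1⟩ := eventually_atTop.mp ((a1.and a2).and a3)
  refine ⟨C * C₂, max V1 (|e 0| + 2), by positivity,
    lt_of_lt_of_le (by have := abs_nonneg (e 0); linarith) (le_max_right _ _), ?_⟩
  intro ε hε
  set κε : ℝ := min κ (ε/C) with hκε
  have hκε0 : 0 < κε := by positivity
  set c₀ : ℝ := (κε / (C₂ * 8 ^ (4 * γ))) ^ (1/4:ℝ) with hc0d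
  have hc0 : 0 < c₀ := by positivity
  have hc04 : c₀^4 = κε / (C₂ * 8 ^ (4 * γ)) := by
    rw [hc0d, ← Real.rpow_natCast, ← Real.rpow_mul (by positivity)]; norm_num
  -- conditions on N
  have hll : Tendsto (fun T : ℝ => Real.log (Real.log T)) atTop atTop := hlog.comp hlog
  have b1 : ∀ᶠ X : ℝ in atTop, C₂ * (Real.log X) ^ (1/2:ℝ) ≤ κε * Real.log X := by
    have h1 : Tendsto (fun x : ℝ => κε * x ^ (1/2:ℝ)) atTop atTop :=
      (tendsto_rpow_atTop (by norm_num : (0:ℝ) < 1/2)).const_mul_atTop hκε0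
    have h2 := (h1.comp hlog).eventually_ge_atTop C₂
    filter_upwards [h2, hlog.eventually_gt_atTop 0] with X h3 h4
    simp only [Function.comp_apply] at h3
    calc C₂ * (Real.log X) ^ (1/2:ℝ) ≤ (κε * (Real.log X) ^ (1/2:ℝ)) * (Real.log X) ^ (1/2:ℝ) :=
          mul_le_mul_of_nonneg_right h3 (by positivity)
      _ = κε * ((Real.log X) ^ (1/2:ℝ) * (Real.log X) ^ (1/2:ℝ)) := by ring
      _ = κε * Real.log X := by rw [← Real.rpow_add h4]; norm_num
  have b2 : ∀ᶠ X : ℝ in atTop, (1:ℝ) ≤ Real.log (Real.log X) := hll.eventually_ge_atTop 1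
  have b3 : ∀ᶠ X : ℝ in atTop, (1:ℝ) ≤ Real.log X := hlog.eventually_ge_atTop 1
  obtain ⟨X1, hX1⟩ := eventually_atTop.mp (((b1.and b2).and b3).and (eventually_ge_atTop (max X₀ 1)))
  obtain ⟨N₀, hN₀⟩ := exists_nat_ge X1
  refine ⟨c₀, hc0, N₀, ?_⟩
  intro N hN V hV hVN
  have hX : X1 ≤ (N:ℝ) := hN₀.trans (by exact_mod_cast hN)
  obtain ⟨⟨⟨w1, w2⟩, w3⟩, w4⟩ := hX1 N hX
  have hN1 : (1:ℝ) ≤ N := (le_max_right _ _).trans w4
  have hN0 : (0:ℝ) < N := by linarith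
  obtain ⟨⟨v1, v2⟩, v3⟩ := hV1 V ((le_max_left _ _).trans hV)
  have hV2e : |e 0| + 2 ≤ V := (le_max_right _ _).trans hV
  have hV2 : 2 ≤ V := by have := abs_nonneg (e 0); linarith
  have hV0 : 0 < V := by linarith
  have hlV0 : 0 < Real.log V := by linarith
  have hlX0 : 0 < Real.log N := by linarith
  set K : ℝ := C₂ * (V^4 * (Real.log V) ^ (-(4 * γ))) with hK
  have hK0 : 0 < K := by positivity
  -- log K
  have hlK : Real.log V ≤ Real.log K := by
    have e1 : Real.log K = Real.log C₂ + (4 * Real.log V + -(4 * γ) * Real.log (Real.log V)) := by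
      rw [hK, Real.log_mul hC20.ne' (by positivity), Real.log_mul (by positivity) (by positivity), Real.log_pow,
        Real.log_rpow hlV0]
      push_cast; ring
    have e2 : 0 ≤ Real.log C₂ := Real.log_nonneg hC21
    rw [e1]; linarith
  have hVK : V ≤ K := (Real.log_le_log_iff hV0 hK0).mp hlK
  have hK₀K : K₀ ≤ K := v3.trans hVK
  -- upper bound for K
  have hKX : K ≤ κε * Real.log N := by
    rcases le_or_gt V ((Real.log N) ^ (1/8:ℝ)) with hc | hc
    · refine le_trans ?_ w1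
      rw [hK]
      apply mul_le_mul_of_nonneg_left _ hC20.le
      have e1 : (Real.log V) ^ (-(4 * γ)) ≤ 1 := Real.rpow_le_one_of_one_le_of_nonpos v2 (by linarith)
      have e2 : V^4 ≤ (Real.log N) ^ (1/2:ℝ) := by
        calc V^4 ≤ ((Real.log N) ^ (1/8:ℝ))^4 := pow_le_pow_left₀ hV0.le hc 4
          _ = _ := by rw [← Real.rpow_natCast, ← Real.rpow_mul hlX0.le]; norm_num
      calc V^4 * (Real.log V) ^ (-(4 * γ)) ≤ V^4 * 1 := mul_le_mul_of_nonneg_left e1 (by positivity)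
        _ ≤ _ := by linarith
    · have e1 : (1/8) * Real.log (Real.log N) ≤ Real.log V := by
        have := Real.log_le_log (by positivity) hc.le
        rwa [Real.log_rpow hlX0] at this
      have e2 : (Real.log V) ^ (-(4 * γ)) ≤ 8 ^ (4 * γ) * (Real.log (Real.log N)) ^ (-(4 * γ)) := by
        calc (Real.log V) ^ (-(4 * γ)) ≤ ((1/8) * Real.log (Real.log N)) ^ (-(4 * γ)) :=
              Real.rpow_le_rpow_of_nonpos (by linarith) e1 (by linarith)
          _ = _ := by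
              rw [Real.mul_rpow (by norm_num) (by linarith), one_div, Real.inv_rpow (by norm_num),
                Real.rpow_neg (by norm_num), inv_inv]
      have hll0 : 0 < Real.log (Real.log N) := by linarith
      have e3 : V^4 ≤ c₀^4 * (Real.log N * (Real.log (Real.log N)) ^ (4 * γ)) := by
        calc V^4 ≤ (c₀ * (Real.log N) ^ (1/4:ℝ) * (Real.log (Real.log N)) ^ γ)^4 := pow_le_pow_left₀ hV0.le hVN 4
          _ = _ := by
              rw [mul_pow, mul_pow, ← Real.rpow_natCast ((Real.log N) ^ (1/4:ℝ)) 4, ← Real.rpow_mul hlX0.le,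
                ← Real.rpow_natCast ((Real.log (Real.log N)) ^ γ) 4, ← Real.rpow_mul hll0.le]
              norm_num
              ring_nf
      have e4 : (Real.log (Real.log N)) ^ (4 * γ) * (Real.log (Real.log N)) ^ (-(4 * γ)) = 1 := by
        rw [← Real.rpow_add hll0, add_neg_cancel, Real.rpow_zero]
      calc K ≤ C₂ * ((c₀^4 * (Real.log N * (Real.log (Real.log N)) ^ (4 * γ))) *
            (8 ^ (4 * γ) * (Real.log (Real.log N)) ^ (-(4 * γ)))) := by
            rw [hK]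
            apply mul_le_mul_of_nonneg_left _ hC20.le
            exact mul_le_mul e3 e2 (by positivity) (by positivity)
        _ = (C₂ * 8 ^ (4 * γ)) * c₀^4 * Real.log N * ((Real.log (Real.log N)) ^ (4 * γ) * (Real.log (Real.log N)) ^ (-(4 * γ))) := by ring
        _ = κε * Real.log N := by
            rw [e4, hc04, mul_one]
            have : C₂ * 8 ^ (4 * γ) ≠ 0 := by positivity
            field_simp
  have hKκ : K ≤ κ * Real.log N := hKX.trans (mul_le_mul_of_nonneg_right (min_le_left _ _) hlX0.le)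
  have hCK : C * K ≤ ε * Real.log N := by
    have h1 : K ≤ ε/C * Real.log N := hKX.trans (mul_le_mul_of_nonneg_right (min_le_right _ _) hlX0.le)
    have h2 := mul_le_mul_of_nonneg_left h1 hC.le
    have h3 : C * (ε/C * Real.log N) = ε * Real.log N := by field_simp
    linarith
  have hCK2 : C * C₂ * V^4 * (Real.log V) ^ (-(4 * γ)) = C * K := by rw [hK]; ring
  rw [hCK2]
  constructor
  · have e1 : (N:ℝ) ^ (1 - ε) = N * Real.exp (-(ε * Real.log N)) := by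
      rw [Real.rpow_sub hN0, Real.rpow_one, Real.rpow_def_of_pos hN0, Real.exp_neg, div_eq_mul_inv]
      congr 3; ring
    rw [e1]
    apply mul_le_mul_of_nonneg_left _ hN0.le
    apply Real.exp_le_exp.mpr
    linarith
  · have h1 := h N ((le_max_left _ _).trans w4) K hK₀K hKκ
    rw [Nat.floor_natCast] at h1
    refine h1.trans ?_
    have hsub : (Finset.range (N + 1)).filter (fun n => p * K ^ (1/4:ℝ) * (Real.log K) ^ γ ≤ e n) ⊆
        (Finset.Icc 1 N).filter (fun n => V ≤ e n) := by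
      intro n hn
      rw [Finset.mem_filter, Finset.mem_range] at hn
      rw [Finset.mem_filter, Finset.mem_Icc]
      suffices hVn : V ≤ e n by
        refine ⟨⟨?_, by omega⟩, hVn⟩
        by_contra h0
        have : n = 0 := by omega
        rw [this] at hVn
        have := le_abs_self (e 0)
        linarith
      refine le_trans ?_ hn.2
      have e1 : K ^ (1/4:ℝ) = C₂ ^ (1/4:ℝ) * (V * (Real.log V) ^ (-γ)) := by
        rw [hK, Real.mul_rpow hC20.le (by positivity), Real.mul_rpow (by positivity) (by positivity),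
          ← Real.rpow_natCast V 4, ← Real.rpow_mul hV0.le, ← Real.rpow_mul hlV0.le]
        congr 2
        · norm_num
        · congr 1; ring
      have e2 : (Real.log V) ^ γ ≤ (Real.log K) ^ γ := Real.rpow_le_rpow hlV0.le hlK hγ
      have e3 : (Real.log V) ^ (-γ) * (Real.log V) ^ γ = 1 := by
        rw [← Real.rpow_add hlV0, neg_add_cancel, Real.rpow_zero]
      have e4 : 1 ≤ p * C₂ ^ (1/4:ℝ) := by
        have := mul_le_mul_of_nonneg_left hC2p hp.le
        rwa [mul_one_div_cancel hp.ne'] at this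
      calc V = 1 * V := (one_mul V).symm
        _ ≤ (p * C₂ ^ (1/4:ℝ)) * V := mul_le_mul_of_nonneg_right e4 hV0.le
        _ = p * (C₂ ^ (1/4:ℝ) * V) * ((Real.log V) ^ (-γ) * (Real.log V) ^ γ) := by rw [e3]; ring
        _ = p * (C₂ ^ (1/4:ℝ) * (V * (Real.log V) ^ (-γ))) * (Real.log V) ^ γ := by ring
        _ = p * K ^ (1/4:ℝ) * (Real.log V) ^ γ := by rw [e1]
        _ ≤ _ := mul_le_mul_of_nonneg_left e2 (by positivity)
    exact_mod_cast Finset.card_le_card hsub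

section
open Pool.Agent.H383.Div

open Classical in
/-- **Large values in the divisor problem, full range** -/
theorem div_tail (hV : VorStmt) {a c : ℝ} (ha : 0 < a) (hc : 0 ≤ c) :
    ∃ C₀ V₀ : ℝ, 0 < C₀ ∧ 1 < V₀ ∧ ∀ ε : ℝ, 0 < ε → ∃ c₀ : ℝ, 0 < c₀ ∧ ∃ N₀ : ℕ, ∀ N : ℕ, N₀ ≤ N → ∀ V : ℝ, V₀ ≤ V →
      V ≤ c₀ * (Real.log N) ^ (1/4:ℝ) * (Real.log (Real.log N)) ^ ((3/4) * ((2:ℝ) ^ (4/3:ℝ) - 1)) →
      (N:ℝ) ^ (1 - ε) ≤ N * Real.exp (-(C₀ * V^4 * (Real.log V) ^ (-(3 * ((2:ℝ) ^ (4/3:ℝ) - 1))))) ∧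
      N * Real.exp (-(C₀ * V^4 * (Real.log V) ^ (-(3 * ((2:ℝ) ^ (4/3:ℝ) - 1))))) ≤
        (((Finset.Icc 1 N).filter (fun n : ℕ => V * (a * n^2 + c) ^ (1/4:ℝ) ≤ Dx (a * n^2 + c))).card : ℝ) := by
  have hP' : ∀ n : ℕ, 0 ≤ a * (n:ℝ)^2 + 0 * n + c := fun n => by positivity
  obtain ⟨C₁, hC₁⟩ := sqrt_quad ha hP'
  have hsa : 0 < √a := Real.sqrt_pos.mpr ha
  have hRn : ∃ C₁ : ℝ, ∀ n : ℕ, |2 * √(a * n^2 + c) - n * (2 * √a)| ≤ C₁ / (n + 1) := by
    refine ⟨2 * C₁, fun n => ?_⟩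
    have h1 := hC₁ n
    have e : 2 * √(a * (n:ℝ)^2 + c) - n * (2 * √a) = 2 * (√(a * (n:ℝ)^2 + 0 * n + c) - (0 / (2 * √a) + n * √a)) := by
      rw [zero_mul, add_zero, zero_div, zero_add]; ring
    rw [e, abs_mul, abs_of_pos (by norm_num : (0:ℝ) < 2), mul_div_assoc]
    exact mul_le_mul_of_nonneg_left h1 (by norm_num)
  obtain ⟨A₀, hA0, hA⟩ := lin_bound2 (E := E2) ad_Bdw2 ad_zero wd_Wt (E2_SandW hV) (α := 2 * √a) (by positivity)
    (Rn := fun n : ℕ => 2 * √(a * n^2 + c)) hRn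
  have hQ := ap_l1 (E := E2) ad_Bdw2 ad_zero wd_Wt (E2_SandW hV) (α := 2 * √a) (by positivity)
    (Rn := fun n : ℕ => 2 * √(a * n^2 + c)) hRn hA0 hA
  have hS2 := ap_l2 (E := E2) ad_Bdw2 ad_zero wd_Wt (E2_SandW hV) (α := 2 * √a) (by positivity)
    (Rn := fun n : ℕ => 2 * √(a * n^2 + c)) hRn
  have hcos : Real.cos (Real.pi/4) = √2/2 := Real.cos_pi_div_four
  have hsin : Real.sin (Real.pi/4) = √2/2 := Real.sin_pi_div_four
  have key := tail_V (γ := (3/4) * (zz - 1)) (by have := zz_ge_two; nlinarith)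
    (tail_abs (e := fun n : ℕ => E2 (2 * √(a * n^2 + c))) ad_nonneg (α := 2 * √a) (φ := Real.pi/4)
    (by rw [hcos, hsin, abs_of_pos (by positivity)]) (by rw [hcos]; positivity) hA0 hA hS2 hQ
    (by have := zz_ge_two; nlinarith) div_sets)
  have e4 : 4 * ((3/4) * (zz - 1)) = 3 * ((2:ℝ) ^ (4/3:ℝ) - 1) := by unfold zz; ring
  have e3 : (3/4) * (zz - 1) = (3/4) * ((2:ℝ) ^ (4/3:ℝ) - 1) := rfl
  rw [e4, e3] at key
  have hset : ∀ (V : ℝ) (N : ℕ), (Finset.Icc 1 N).filter (fun n : ℕ => V ≤ E2 (2 * √(a * n^2 + c))) =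
      (Finset.Icc 1 N).filter (fun n : ℕ => V * (a * n^2 + c) ^ (1/4:ℝ) ≤ Dx (a * n^2 + c)) := by
    intro V N
    apply Finset.filter_congr
    intro n hn
    rw [Finset.mem_Icc] at hn
    have hn0 : (0:ℝ) < n := by exact_mod_cast hn.1
    have hx : 0 < a * (n:ℝ)^2 + c := by positivity
    have e1 : E2 (2 * √(a * (n:ℝ)^2 + c)) = Ed √(a * (n:ℝ)^2 + c) := by
      unfold E2; congr 1; ring
    rw [e1, Ed_quad hx.le, le_div_iff₀ (Real.rpow_pos_of_pos hx _)]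
  simp only [hset] at key
  exact key

end

section
open Pool.Agent.H383.Div
open Pool.Agent.H383.Circ

open Classical in
/-- **Large values in the circle problem, full range** -/
theorem circ_tail {a c : ℝ} (ha : 0 < a) (hc : 0 ≤ c) :
    ∃ C₀ V₀ : ℝ, 0 < C₀ ∧ 1 < V₀ ∧ ∀ ε : ℝ, 0 < ε → ∃ c₀ : ℝ, 0 < c₀ ∧ ∃ N₀ : ℕ, ∀ N : ℕ, N₀ ≤ N → ∀ V : ℝ, V₀ ≤ V →
      V ≤ c₀ * (Real.log N) ^ (1/4:ℝ) * (Real.log (Real.log N)) ^ ((3/4) * ((2:ℝ) ^ (1/3:ℝ) - 1)) →
      (N:ℝ) ^ (1 - ε) ≤ N * Real.exp (-(C₀ * V^4 * (Real.log V) ^ (-(3 * ((2:ℝ) ^ (1/3:ℝ) - 1))))) ∧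
      N * Real.exp (-(C₀ * V^4 * (Real.log V) ^ (-(3 * ((2:ℝ) ^ (1/3:ℝ) - 1))))) ≤
        (((Finset.Icc 1 N).filter (fun n : ℕ => Cx (a * n^2 + c) ≤ -(V * (a * n^2 + c) ^ (1/4:ℝ)))).card : ℝ) := by
  have hP' : ∀ n : ℕ, 0 ≤ a * (n:ℝ)^2 + 0 * n + c := fun n => by positivity
  obtain ⟨C₁, hC₁⟩ := sqrt_quad ha hP'
  have hsa : 0 < √a := Real.sqrt_pos.mpr ha
  have hRn : ∃ C₁ : ℝ, ∀ n : ℕ, |√(a * n^2 + c) - n * √a| ≤ C₁ / (n + 1) := by
    refine ⟨C₁, fun n => ?_⟩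
    have h1 := hC₁ n
    rw [zero_mul, add_zero, zero_div, zero_add] at h1
    exact h1
  obtain ⟨A₀, hA0, hA⟩ := lin_bound2 (E := En) ag_Bdw ag_zero wg_Wt En_SandW (α := √a) hsa
    (Rn := fun n : ℕ => √(a * n^2 + c)) hRn
  obtain ⟨c', C', D', hc', hC', hQ⟩ := ap_l1 (E := En) ag_Bdw ag_zero wg_Wt En_SandW (α := √a) hsa
    (Rn := fun n : ℕ => √(a * n^2 + c)) hRn hA0 hA
  obtain ⟨A₂, hA2, hS2⟩ := ap_l2 (E := En) ag_Bdw ag_zero wg_Wt En_SandW (α := √a) hsa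
    (Rn := fun n : ℕ => √(a * n^2 + c)) hRn
  have hcos : Real.cos (-(Real.pi/4)) = √2/2 := by rw [Real.cos_neg, Real.cos_pi_div_four]
  have hsin : Real.sin (-(Real.pi/4)) = -(√2/2) := by rw [Real.sin_neg, Real.sin_pi_div_four]
  have hU : ∀ (R : ℝ) (M : ℕ), Gen.U ag (-(Real.pi/4)) R M = -Gen.U ag (3 * Real.pi/4) R M := by
    intro R M
    unfold Gen.U
    rw [← Finset.sum_neg_distrib]
    apply Finset.sum_congr rfl
    intro m _
    have : 2 * Real.pi * (R * √(m:ℝ)) - -(Real.pi/4) = 2 * Real.pi * (R * √(m:ℝ)) - 3 * Real.pi/4 + Real.pi := by ring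
    rw [this, Real.cos_add_pi]
    ring
  have hcs := circ_sets
  have key := tail_V (γ := (3/4) * (zz / 2 - 1)) (by have := zz_ge_two; nlinarith)
    (tail_abs (e := fun n : ℕ => -En (√(a * n^2 + c))) ag_nonneg (α := √a) (φ := -(Real.pi/4))
    (by rw [hcos, hsin, abs_neg, abs_of_pos (by positivity)]) (by rw [hcos]; positivity) hA0
    (by intro n; rw [abs_neg]; exact hA n)
    ⟨A₂, hA2, fun N => by simp only [neg_sq]; exact hS2 N⟩
    ⟨c', C', D', hc', hC', fun M hM N => by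
      have h1 := hQ M hM N
      refine le_trans (le_of_eq ?_) h1
      apply Finset.sum_congr rfl
      intro n _
      rw [hU, ← abs_neg]
      congr 1; ring⟩
    (by have := zz_ge_two; nlinarith) hcs)
  have e4 : 4 * ((3/4) * (zz / 2 - 1)) = 3 * ((2:ℝ) ^ (1/3:ℝ) - 1) := by rw [gam_c]; ring
  rw [e4, gam_c] at key
  have hset : ∀ (V : ℝ) (N : ℕ), (Finset.Icc 1 N).filter (fun n : ℕ => V ≤ -En (√(a * n^2 + c))) =
      (Finset.Icc 1 N).filter (fun n : ℕ => Cx (a * n^2 + c) ≤ -(V * (a * n^2 + c) ^ (1/4:ℝ))) := by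
    intro V N
    apply Finset.filter_congr
    intro n hn
    rw [Finset.mem_Icc] at hn
    have hn0 : (0:ℝ) < n := by exact_mod_cast hn.1
    have hx : 0 < a * (n:ℝ)^2 + c := by positivity
    rw [En_quad hx.le, ← neg_div, le_div_iff₀ (Real.rpow_pos_of_pos hx _)]
    constructor <;> intro h <;> linarith
  simp only [hset] at key
  exact key

end

end Pool.Agent.H452R2.Om
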