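import Mathlib
import Pool.Agent.H452R2.Om.Defs
import Pool.Agent.H383.Expand

open Pool.Agent.H383.Gauss

namespace Pool.Agent.H452R2.Om

/- Task MERT (file Om/Mert.lean, imports Defs, Helper256.KM.Mertens, Helper379.Lower2) -/
theorem mert_all : ∃ c : ℝ, 0 < c ∧ ∀ y : ℕ, 3 ≤ y →
    c * (Real.log y) ^ zz ≤ ∏ p ∈ OP (fun _ => True) y, (1 + zz / p) := sorry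

theorem mert_one : ∃ c : ℝ, 0 < c ∧ ∀ y : ℕ, 3 ≤ y →
    c * (Real.log y) ^ (zz / 2) ≤ ∏ p ∈ OP (fun p => p % 4 = 1) y, (1 + zz / p) := sorry

/- Task REPS (file Om/RepsLow.lean, imports H383.Expand, H383.Reps) -/
theorem rA_prod_ge (S : Finset ℕ) (hS : ∀ p ∈ S, p.Prime ∧ p % 4 = 1) : (2:ℝ) ^ S.card ≤ rA (∏ p ∈ S, p) := sorry

/- Task COUNT (file Om/Count.lean, imports Defs, H383.Rich, Helper256.KM.Mertens) -/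
theorem count_sets (Q : ℕ → Prop) [DecidablePred Q] {β : ℝ} (hβ : 0 < β)
    (hM : ∃ c : ℝ, 0 < c ∧ ∀ y : ℕ, 3 ≤ y → c * (Real.log y) ^ β ≤ ∏ p ∈ OP Q y, (1 + zz / p)) :
    ∃ c Y0 : ℝ, 0 < c ∧ 3 ≤ Y0 ∧ ∀ Y : ℝ, Y0 ≤ Y → ∃ 𝓢 : Finset (Finset ℕ),
      (∀ S ∈ 𝓢, (∀ p ∈ S, p.Prime ∧ 3 ≤ p ∧ (Q p ∨ p % 4 = 1)) ∧
        ((∏ p ∈ S, p : ℕ) : ℝ) ≤ 2 * Y * zz ^ S.card ∧ ((∏ p ∈ S, p : ℕ) : ℝ) ≤ Y ^ 2) ∧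
      c * Y * (Real.log Y) ^ (β - 1) ≤ (𝓢.card : ℝ) := sorry

/- Task EXTRACT (file Om/Extract.lean, imports Defs) -/
theorem extract {a : ℕ → ℝ} (ha : ∀ m, 0 ≤ a m) {b : ℝ} (hb : 0 < b) (Q : ℕ → Prop) [DecidablePred Q] {β : ℝ} (hβ : 1 ≤ β)
    (hC : ∃ c Y0 : ℝ, 0 < c ∧ 3 ≤ Y0 ∧ ∀ Y : ℝ, Y0 ≤ Y → ∃ 𝓢 : Finset (Finset ℕ),
      (∀ S ∈ 𝓢, (∀ p ∈ S, p.Prime ∧ 3 ≤ p ∧ (Q p ∨ p % 4 = 1)) ∧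
        ((∏ p ∈ S, p : ℕ) : ℝ) ≤ 2 * Y * zz ^ S.card ∧ ((∏ p ∈ S, p : ℕ) : ℝ) ≤ Y ^ 2) ∧
      c * Y * (Real.log Y) ^ (β - 1) ≤ (𝓢.card : ℝ))
    (hlow : ∀ S : Finset ℕ, (∀ p ∈ S, p.Prime ∧ 3 ≤ p ∧ (Q p ∨ p % 4 = 1)) →
      b * 2 ^ S.card * ((∏ p ∈ S, p : ℕ) : ℝ) ^ (-(3/4):ℝ) ≤ a (∏ p ∈ S, p)) :
    ∃ c K0 : ℝ, 0 < c ∧ ∀ K : ℝ, K0 ≤ K → ∃ 𝓜 : Finset ℕ, (𝓜.card : ℝ) ≤ K ∧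
      (∀ m ∈ 𝓜, 1 ≤ m ∧ (m:ℝ) ≤ K ^ 3) ∧
      c * K ^ (1/4:ℝ) * (Real.log K) ^ ((3/4) * (β - 1)) ≤ ∑ m ∈ 𝓜, a m := sorry

end Pool.Agent.H452R2.Om
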